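import Pool.Agent.H23.LR.Chart

/-!
# Level repulsion: unique continuation on a connected surface
-/

set_option autoImplicit false
set_option linter.unusedSectionVars false

open Set Filter Topology MeasureTheory
open scoped ContDiff ENNReal
open Pool.Agent.Y262.QE Pool.Agent.Y264.QR Q101.QG
open Pool.Agent.Q233 Pool.Agent.Q233.GLV

noncomputable section

namespace Pool.Agent.H23.LR

lemma weak_mono {O O' : Set ℂ} (h : O' ⊆ O) {U : ℂ → ℝ} {g : ℂ → ℂ} {w : ℂ → ℝ}
    (hw : UC.Weak O U g w) : UC.Weak O' U g w where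
  mU := fun K hK hc => hw.mU K (hK.trans h) hc
  mg := fun K hK hc => hw.mg K (hK.trans h) hc
  mw := fun K hK hc => hw.mw K (hK.trans h) hc
  grad := fun η h1 h2 h3 v => hw.grad η h1 h2 (h3.trans h) v
  lap := fun η h1 h2 h3 => hw.lap η h1 h2 (h3.trans h)

variable {M : Type} [MetricSpace M] [CompactSpace M] [MeasurableSpace M] [BorelSpace M]
  {μ : Measure M} {D : Data M}

lemma ae_chart (S : D.IsSurf μ) (p : Fin D.N) {P : M → Prop} (h : ∀ᵐ x ∂μ, P x) :
    ∀ᵐ z ∂(volume.restrict (D.T p)), P (D.ψ p z) := by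
  obtain ⟨N, hN1, hN2, hN3⟩ := exists_measurable_superset_of_null (ae_iff.1 h)
  have h1 := (Pool.Agent.Y960.QE.int_chart M μ D S p).1 (N.indicator fun _ => 1)
    (measurable_const.indicator hN2)
  have h2 : ∫⁻ x in D.U p, N.indicator (fun _ => (1 : ENNReal)) x ∂μ = 0 := by
    refine le_antisymm ((setLIntegral_le_lintegral _ _).trans ?_) (zero_le)
    rw [lintegral_indicator hN2]
    simp [hN3]
  rw [h2] at h1
  have hψ : AEMeasurable (D.ψ p) (volume.restrict (D.T p)) :=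
    (S.contψ p).aemeasurable (S.openT p).measurableSet
  have hdet : AEMeasurable (fun z => ENNReal.ofReal |(D.A p z).det|)
      (volume.restrict (D.T p)) :=
    ((Pool.Agent.Y960.QE.contDet S p).aemeasurable (S.openT p).measurableSet).ennreal_ofReal
  have h3 := (lintegral_eq_zero_iff' ((((measurable_const.indicator hN2).comp_aemeasurable
    hψ)).mul hdet)).1 h1.symm
  filter_upwards [h3, ae_restrict_mem (S.openT p).measurableSet] with z hz hzT
  by_contra hP
  have h4 : D.ψ p z ∈ N := hN1 hP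
  simp only [Pi.mul_apply, Function.comp, Pi.zero_apply] at hz
  rw [indicator_of_mem h4, one_mul, ENNReal.ofReal_eq_zero] at hz
  exact absurd (abs_pos.2 (S.det p z hzT)) (not_lt.2 hz)

lemma ae_chart' (S : D.IsSurf μ) (p : Fin D.N) {P : M → Prop}
    (h : ∀ᵐ z ∂(volume.restrict (D.T p)), P (D.ψ p z)) : ∀ᵐ x ∂μ, x ∈ D.U p → P x := by
  obtain ⟨N, hN1, hN2, hN3⟩ := exists_measurable_superset_of_null (ae_iff.1 h)
  obtain ⟨N', hN'⟩ : ∃ N' : Set M, N' = D.U p ∩ D.φ p ⁻¹' N := ⟨_, rfl⟩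
  have hm : MeasurableSet N' := by
    rw [hN']
    have h1 : Measurable fun x : D.U p => D.φ p x :=
      (continuousOn_iff_continuous_restrict.1 (S.contφ p)).measurable
    have h2 := (S.openU p).measurableSet.subtype_image (h1 hN2)
    convert h2 using 1
    ext x
    constructor
    · rintro ⟨hx1, hx2⟩
      exact ⟨⟨x, hx1⟩, hx2, rfl⟩
    · rintro ⟨y, hy, rfl⟩
      exact ⟨y.2, hy⟩
  have h0 : μ N' = 0 := by
    rw [S.area p N' (by rw [hN']; exact inter_subset_left) hm]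
    refine setLIntegral_measure_zero _ _ ?_
    have hsub : D.φ p '' N' ⊆ N ∩ D.T p := by
      rintro _ ⟨x, hx, rfl⟩
      rw [hN'] at hx
      exact ⟨hx.2, mem_image_of_mem _ hx.1⟩
    refine measure_mono_null hsub ?_
    rwa [Measure.restrict_apply hN2] at hN3
  have h1 : ∀ᵐ x ∂μ, x ∉ N' := measure_eq_zero_iff_ae_notMem.1 h0
  filter_upwards [h1] with x hx hxU
  by_contra hP
  refine hx ?_
  rw [hN']
  refine ⟨hxU, hN1 ?_⟩
  show ¬ P (D.ψ p (D.φ p x))
  rwa [S.left p x hxU]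

/-- the points with a neighbourhood on which a function vanishes -/
def Zr (μ : Measure M) (f : M → ℝ) : Set M := {x | ∃ O, IsOpen O ∧ x ∈ O ∧ ∀ᵐ y ∂μ, y ∈ O → f y = 0}

lemma zr_open (f : M → ℝ) : IsOpen (Zr μ f) := by
  rw [isOpen_iff_forall_mem_open]
  rintro x ⟨O, hO, hx, h⟩
  exact ⟨O, fun y hy => ⟨O, hO, hy, h⟩, hO, hx⟩

lemma zr_univ {f : M → ℝ} (h : Zr μ f = univ) : ∀ᵐ y ∂μ, f y = 0 := by
  refine measure_null_of_locally_null _ fun x _ => ?_
  have hx : x ∈ Zr μ f := by rw [h]; exact mem_univ x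
  obtain ⟨O, hO, hxO, hae⟩ := hx
  refine ⟨{y | ¬ f y = 0} ∩ O, ?_, ?_⟩
  · exact inter_mem_nhdsWithin _ (hO.mem_nhds hxO)
  · refine measure_mono_null ?_ (ae_iff.1 hae)
    rintro y ⟨hy1, hy2⟩ hcon
    exact hy1 (hcon hy2)

/-- **unique continuation on a connected surface** -/
theorem surf_uc (hcont : UC.StCont) (hucp : UC.StUCP) [IsFiniteMeasure μ] [ConnectedSpace M]
    (S : D.IsSurf μ)
    (hiso : ∀ p, ∀ z ∈ D.T p, ∃ c : ℝ, ∀ v, ‖D.A p z v‖ = c * ‖v‖)
    {i : HF D μ →L[ℝ] Lp ℝ 2 μ} {a : HF D μ →L[ℝ] HF D μ →L[ℝ] ℝ}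
    {b : C(M, ℝ) → HF D μ →L[ℝ] HF D μ →L[ℝ] ℝ}
    (hi : ∀ v, i v = v.1.fst) (ha : ∀ u v, a u v = inner ℝ u.1.snd v.1.snd) (hB : IsB μ i b)
    {φ : C(M, ℝ)} {E E' : ℝ} {u v : HF D μ} (hu : ∀ w, a u w = E * b φ u w)
    (hv : ∀ w, a v w = E' * b φ v w) (h0 : ∀ᵐ x ∂μ, (i u : M → ℝ) x * (i v : M → ℝ) x = 0) :
    (∀ᵐ x ∂μ, (i u : M → ℝ) x = 0) ∨ ∀ᵐ x ∂μ, (i v : M → ℝ) x = 0 := by
  -- the set of zeros is closed
  have hclosed : ∀ {v : HF D μ} {E : ℝ}, (∀ w, a v w = E * b φ v w) →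
      IsClosed (Zr μ (i v : M → ℝ)) := by
    intro v E hv
    rw [← closure_subset_iff_isClosed]
    intro x hx
    obtain ⟨p, hp⟩ := S.cover x
    have hT : D.φ p x ∈ D.T p := mem_image_of_mem _ hp
    obtain ⟨g, hg⟩ := weak_of_ev S hi ha hB (hiso p) hv
    obtain ⟨r, hr, hrT⟩ := Metric.isOpen_iff.1 (S.openT p) _ hT
    obtain ⟨B, hB'⟩ : ∃ B, B = Metric.ball (D.φ p x) (r / 2) := ⟨_, rfl⟩
    have hBc : Metric.closedBall (D.φ p x) (r / 2) ⊆ D.T p :=
      (Metric.closedBall_subset_ball (by linarith)).trans hrT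
    have hBT : B ⊆ D.T p := by rw [hB']; exact Metric.ball_subset_closedBall.trans hBc
    have hBo : IsOpen B := by rw [hB']; exact Metric.isOpen_ball
    have hwc : ContinuousOn (fun z => E * (Real.exp (φ (D.ψ p z)) * |(D.A p z).det|)) (D.T p) :=
      continuousOn_const.mul ((Real.continuous_exp.comp_continuousOn
        (φ.continuous.comp_continuousOn (S.contψ p))).mul (Pool.Agent.Y960.QE.contDet S p))
    obtain ⟨C, hC⟩ := (isCompact_closedBall (D.φ p x) (r / 2)).exists_bound_of_continuousOn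
      (hwc.mono hBc)
    -- the image of the ball
    obtain ⟨O, hO⟩ : ∃ O : Set M, O = D.U p ∩ D.φ p ⁻¹' B := ⟨_, rfl⟩
    have hOo : IsOpen O := by
      rw [hO]
      exact (S.contφ p).isOpen_inter_preimage (S.openU p) hBo
    have hxO : x ∈ O := by
      rw [hO]
      refine ⟨hp, ?_⟩
      rw [mem_preimage, hB']
      exact Metric.mem_ball_self (by linarith)
    obtain ⟨y, hyO, O₁, hO₁, hyO₁, hae⟩ := mem_closure_iff.1 hx O hOo hxO
    obtain ⟨O', hO'⟩ : ∃ O' : Set ℂ, O' = B ∩ D.ψ p ⁻¹' O₁ := ⟨_, rfl⟩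
    have hO'o : IsOpen O' := by
      rw [hO']
      exact ((S.contψ p).mono hBT).isOpen_inter_preimage hBo hO₁
    rw [hO] at hyO
    have hne : O'.Nonempty := by
      refine ⟨D.φ p y, ?_⟩
      rw [hO']
      refine ⟨hyO.2, ?_⟩
      rw [mem_preimage, S.left p y hyO.1]
      exact hyO₁
    have hsub : O' ⊆ B := by rw [hO']; exact inter_subset_left
    have h1 := ae_chart S p hae
    have h2 : ∀ᵐ z ∂(volume.restrict O'), (i v : M → ℝ) (D.ψ p z) = 0 := by
      have h3 := ae_mono (Measure.restrict_mono (hsub.trans hBT) le_rfl) h1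
      filter_upwards [h3, ae_restrict_mem hO'o.measurableSet] with z hz hzO
      rw [hO'] at hzO
      exact hz hzO.2
    have h3 := hucp B (fun z => (i v : M → ℝ) (D.ψ p z)) g
      (fun z => E * (Real.exp (φ (D.ψ p z)) * |(D.A p z).det|) * (i v : M → ℝ) (D.ψ p z)) C hBo
      (by rw [hB']; exact (convex_ball _ _).isPreconnected) (weak_mono hBT hg) (by
        refine (ae_restrict_iff' hBo.measurableSet).2 (Eventually.of_forall fun z hz => ?_)
        rw [abs_mul]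
        refine mul_le_mul_of_nonneg_right ?_ (abs_nonneg _)
        rw [hB'] at hz
        exact hC z (Metric.ball_subset_closedBall hz)) O' hO'o hne hsub h2
    refine ⟨O, hOo, hxO, ?_⟩
    have h4 : ∀ᵐ z ∂(volume.restrict (D.T p)), (fun x => x ∈ O → (i v : M → ℝ) x = 0)
        (D.ψ p z) := by
      have h5 := (ae_restrict_iff' hBo.measurableSet).1 h3
      have h6 := ae_restrict_of_ae (s := D.T p) h5
      filter_upwards [h6, ae_restrict_mem (S.openT p).measurableSet] with z hz hzT hzO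
      rw [hO] at hzO
      have h7 := hzO.2
      rw [mem_preimage, (Pool.Agent.Y183.QR.Loc.φψ S hzT).2] at h7
      exact hz h7
    filter_upwards [ae_chart' S p (P := fun x => x ∈ O → (i v : M → ℝ) x = 0) h4] with y hy hyO
    rw [hO] at hyO
    exact hy hyO.1 (by rw [hO]; exact hyO)
  -- alternatives
  have halt : ∀ {v : HF D μ} {E : ℝ}, (∀ w, a v w = E * b φ v w) →
      (Zr μ (i v : M → ℝ)).Nonempty → ∀ᵐ x ∂μ, (i v : M → ℝ) x = 0 := by
    intro v E hv hne
    refine zr_univ ?_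
    exact IsClopen.eq_univ ⟨hclosed hv, zr_open _⟩ hne
  obtain ⟨x⟩ : Nonempty M := inferInstance
  obtain ⟨p, hp⟩ := S.cover x
  obtain ⟨g, hg⟩ := weak_of_ev S hi ha hB (hiso p) hu
  obtain ⟨U', hU'c, hU'⟩ := hcont _ _ _ _ (S.openT p) hg
  by_cases hz : ∃ z ∈ D.T p, U' z ≠ 0
  · right
    refine halt hv ?_
    obtain ⟨z₀, hz₀, hne⟩ := hz
    obtain ⟨B, hB'⟩ : ∃ B : Set ℂ, B = D.T p ∩ U' ⁻¹' {0}ᶜ := ⟨_, rfl⟩
    have hBo : IsOpen B := by
      rw [hB']
      exact hU'c.isOpen_inter_preimage (S.openT p) isOpen_compl_singleton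
    obtain ⟨hU, hφ⟩ := Pool.Agent.Y183.QR.Loc.φψ S hz₀
    refine ⟨D.ψ p z₀, D.U p ∩ D.φ p ⁻¹' B, (S.contφ p).isOpen_inter_preimage (S.openU p) hBo,
      ⟨hU, ?_⟩, ?_⟩
    · rw [mem_preimage, hφ, hB']
      exact ⟨hz₀, hne⟩
    · have h1 := ae_chart S p h0
      have h2 : ∀ᵐ z ∂(volume.restrict (D.T p)),
          (fun x => x ∈ D.U p ∩ D.φ p ⁻¹' B → (i v : M → ℝ) x = 0) (D.ψ p z) := by
        filter_upwards [h1, hU', ae_restrict_mem (S.openT p).measurableSet] with z h3 h4 hzT h5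
        have h6 := h5.2
        rw [mem_preimage, (Pool.Agent.Y183.QR.Loc.φψ S hzT).2, hB'] at h6
        rcases mul_eq_zero.1 h3 with h7 | h7
        · rw [h7] at h4
          exact absurd h4.symm h6.2
        · exact h7
      filter_upwards [ae_chart' S p
        (P := fun x => x ∈ D.U p ∩ D.φ p ⁻¹' B → (i v : M → ℝ) x = 0) h2] with y hy hyO
      exact hy hyO.1 hyO
  · left
    push Not at hz
    refine halt hu ⟨x, D.U p, S.openU p, hp, ?_⟩
    have h2 : ∀ᵐ z ∂(volume.restrict (D.T p)), (fun x => (i u : M → ℝ) x = 0) (D.ψ p z) := by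
      filter_upwards [hU', ae_restrict_mem (S.openT p).measurableSet] with z h4 hzT
      rw [h4, hz z hzT]
    exact ae_chart' S p (P := fun x => (i u : M → ℝ) x = 0) h2

end Pool.Agent.H23.LR
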