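import Pool.Agent.H23.LR.Mean
import Pool.Agent.H23.LR.Surf

/-!
# Level repulsion: surfaces
-/

set_option autoImplicit false
set_option linter.unusedSectionVars false

open Set Filter Topology MeasureTheory
open scoped ENNReal
open Pool.Agent.Y262.QE Pool.Agent.Y264.QR Pool.Agent.Y319.QR Q101.QG
open Pool.Agent.Q233 Pool.Agent.Q233.GLV

noncomputable section

namespace Pool.Agent.H23.LR

variable {M : Type} [MetricSpace M] [CompactSpace M] [MeasurableSpace M] [BorelSpace M]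
  (μ : Measure M) (D : Data M) [Nonempty M]

/-- everything about the form domain of a surface -/
theorem setup (hD : D.IsSurf μ) : IsFiniteMeasure μ ∧ CompleteSpace (HF D μ) ∧
    ∃ (i : HF D μ →L[ℝ] Lp ℝ 2 μ)
    (a : HF D μ →L[ℝ] HF D μ →L[ℝ] ℝ) (b : C(M, ℝ) → HF D μ →L[ℝ] HF D μ →L[ℝ] ℝ), Sf μ i a ∧
    (∀ v, i v = v.1.fst) ∧ (∀ u v, a u v = inner ℝ u.1.snd v.1.snd) ∧ IsB μ i b ∧
    (∀ φ : C(M, ℝ), 0 < ∫ x, Real.exp (φ x) ∂μ) ∧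
    (∀ φ (u : ℕ → M → ℝ) (lam : ℕ → ℝ),
      EigBasis (D.conf fun x => Real.exp (φ x)) (wm μ fun x => Real.exp (φ x)) u lam →
      ∀ j, (wm μ fun y => Real.exp (φ y)).real univ * lam j =
        (∫ x, Real.exp (φ x) ∂μ) * Ev a (b φ) j) := by
  obtain ⟨hf, -⟩ := tFin M μ D hD
  have := hf
  have hcs : CompleteSpace (HF D μ) := by
    unfold HF
    exact (Submodule.isClosed_topologicalClosure _).completeSpace_coe
  refine ⟨hf, hcs, ?_⟩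
  obtain ⟨i, a, hSf, hi, ha⟩ := tPackF M μ D hD inferInstance
  obtain ⟨b, hB, hF, hpos, hcmp, -⟩ := tFm M μ (HF D μ) i a hSf
  have hbr := fun φ u lam hu => tBr M μ D hD i a b hSf hi ha hB hF φ u lam hu
  refine ⟨i, a, b, hSf, hi, ha, hB, hpos, ?_⟩
  intro φ u lam hu j
  obtain ⟨e', -, he'⟩ := hbr φ u lam hu
  have h1 := (Pool.Agent.Y592.QE.mm _ a (b φ) (hF φ) e' lam he' j).symm
  have h3 : (wm μ fun y => Real.exp (φ y)).real univ = ∫ y, Real.exp (φ y) ∂μ := by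
    have hm : Measurable fun y => Real.exp (φ y) :=
      (Real.continuous_exp.comp φ.continuous).measurable
    have h5 : (wm μ fun y => Real.exp (φ y)).real univ =
        ∫ y, (1 : ℝ) ∂(wm μ fun y => Real.exp (φ y)) := by simp
    rw [h5, integral_wm μ _ hm fun x => (Real.exp_pos _).le]
    simp
  rw [h3, h1]

variable {μ D}

theorem no_split (hcont : UC.StCont) (hucp : UC.StUCP) [IsFiniteMeasure μ] [ConnectedSpace M]
    (S : D.IsSurf μ) (hiso : ∀ p, ∀ z ∈ D.T p, ∃ c : ℝ, ∀ v, ‖D.A p z v‖ = c * ‖v‖)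
    {i : HF D μ →L[ℝ] Lp ℝ 2 μ} {a : HF D μ →L[ℝ] HF D μ →L[ℝ] ℝ}
    {b : C(M, ℝ) → HF D μ →L[ℝ] HF D μ →L[ℝ] ℝ}
    (hi : ∀ v, i v = v.1.fst) (ha : ∀ u v, a u v = inner ℝ u.1.snd v.1.snd) (hB : IsB μ i b) :
    NoSplit μ i a b := by
  intro φ E u v hu hv h0
  have hz : ∀ w : HF D μ, (∀ᵐ x ∂μ, (i w : M → ℝ) x = 0) → b φ w w = 0 := by
    intro w hw
    rw [hB]
    refine integral_eq_zero_of_ae ?_
    filter_upwards [hw] with x hx
    rw [hx]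
    simp
  rcases surf_uc hcont hucp S hiso hi ha hB hu hv h0 with h | h
  · exact Or.inl (hz u h)
  · exact Or.inr (hz v h)

section conv

variable [IsFiniteMeasure μ] {H : Type} [NormedAddCommGroup H] [InnerProductSpace ℝ H]
  {i : H →L[ℝ] Lp ℝ 2 μ} {a : H →L[ℝ] H →L[ℝ] ℝ} {b : C(M, ℝ) → H →L[ℝ] H →L[ℝ] ℝ} {m q : ℕ}

/-- the number of the components -/
lemma first_pos (hS : Sf μ i a) (hB : IsB μ i b) {q : ℕ} (hq : ∃ φ, 0 < Ev a (b φ) q) :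
    ∃ m ≤ q, (∀ j, j < m → ∀ φ, Ev a (b φ) j = 0) ∧ ∀ j, m ≤ j → ∀ φ, 0 < Ev a (b φ) j := by
  classical
  obtain ⟨hF, hcmp, -⟩ := forms μ i a b hS hB
  obtain ⟨hnn, hmono, -, -, hdich⟩ := tLip M μ H a b hF hcmp
  have hup : ∀ j, (∃ φ, 0 < Ev a (b φ) j) → ∀ φ, 0 < Ev a (b φ) j := by
    intro j hj
    obtain ⟨φ, hφ⟩ := hj
    rcases hdich j with h | h
    · rw [h φ] at hφ
      exact absurd hφ (lt_irrefl _)
    · exact h
  have hex : ∃ j, ∃ φ, 0 < Ev a (b φ) j := ⟨q, hq⟩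
  refine ⟨Nat.find hex, Nat.find_min' hex hq, ?_, ?_⟩
  · intro j hj φ
    have h1 := Nat.find_min hex hj
    push Not at h1
    exact le_antisymm (h1 φ) (hnn φ j)
  · intro j hj φ
    exact (hup _ (Nat.find_spec hex) φ).trans_le (hmono φ _ j hj)

/-- the gap and the difference of the inverses -/
lemma gap_conv (hS : Sf μ i a) (hB : IsB μ i b) (hmp : ∀ j, m ≤ j → ∀ φ, 0 < Ev a (b φ) j)
    (hmq : m ≤ q) (hpos : ∀ φ : C(M, ℝ), 0 < ∫ x, Real.exp (φ x) ∂μ) {K : Set C(M, ℝ)}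
    (hK : IsCompact K) : ∃ Z : ℝ, 0 < Z ∧ ∀ φ ∈ K,
      iv a b q φ - iv a b (q + 1) φ ≤ Z * (((∫ x, Real.exp (φ x) ∂μ) * Ev a (b φ) (q + 1) -
        (∫ x, Real.exp (φ x) ∂μ) * Ev a (b φ) q) / (4 * Real.pi)) := by
  obtain ⟨hF, hcmp, -⟩ := forms μ i a b hS hB
  obtain ⟨hnn, hmono, -, -, -⟩ := tLip M μ H a b hF hcmp
  obtain ⟨R, hR⟩ := hK.isBounded.exists_norm_le
  obtain ⟨B, hB0, Z, hZ0, hBZ⟩ := ev_bds μ hF hcmp hmp q R
  have hA : Continuous fun φ : C(M, ℝ) => (∫ x, Real.exp (φ x) ∂μ)⁻¹ :=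
    ((Pool.Agent.Y689.QR.int_cont μ).comp Pool.Agent.Y689.QR.exp_cont).inv₀
      fun φ => (hpos φ).ne'
  obtain ⟨Y, hY⟩ := hK.exists_bound_of_continuousOn hA.continuousOn
  refine ⟨(|Y| + 1) * B ^ 2 * (4 * Real.pi), by positivity, fun φ hφ => ?_⟩
  obtain ⟨hB1, -⟩ := hBZ φ (hR φ hφ)
  have h1 := hmp q hmq φ
  have h2 := hmp (q + 1) (by omega) φ
  have h3 := hmono φ q (q + 1) (by omega)
  have h4 := hB1 q hmq
  have h5 := hB1 (q + 1) (by omega)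
  have h6 := hY φ hφ
  have h7 := hpos φ
  obtain ⟨A, hAd⟩ : ∃ A, A = ∫ x, Real.exp (φ x) ∂μ := ⟨_, rfl⟩
  rw [← hAd] at h6 h7 ⊢
  rw [Real.norm_eq_abs, abs_of_pos (inv_pos.2 h7)] at h6
  have h8 : iv a b q φ - iv a b (q + 1) φ =
      (Ev a (b φ) (q + 1) - Ev a (b φ) q) * (iv a b q φ * iv a b (q + 1) φ) := by
    unfold iv
    field_simp
  have h9 : iv a b q φ * iv a b (q + 1) φ ≤ B * B :=
    mul_le_mul h4 h5 (inv_pos.2 h2).le hB0.le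
  have h10 : 1 ≤ (|Y| + 1) * A := by
    have h11 : A⁻¹ ≤ |Y| + 1 := by linarith [le_abs_self Y]
    have h12 : A⁻¹ * A ≤ (|Y| + 1) * A := mul_le_mul_of_nonneg_right h11 h7.le
    rwa [inv_mul_cancel₀ h7.ne'] at h12
  rw [h8]
  have h13 : (|Y| + 1) * B ^ 2 * (4 * Real.pi) *
      ((A * Ev a (b φ) (q + 1) - A * Ev a (b φ) q) / (4 * Real.pi)) =
      ((|Y| + 1) * A) * ((Ev a (b φ) (q + 1) - Ev a (b φ) q) * (B * B)) := by
    have : (4 * Real.pi) ≠ 0 := by positivity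
    field_simp
  rw [h13]
  have h14 : 0 ≤ Ev a (b φ) (q + 1) - Ev a (b φ) q := by linarith
  calc (Ev a (b φ) (q + 1) - Ev a (b φ) q) * (iv a b q φ * iv a b (q + 1) φ) ≤
      (Ev a (b φ) (q + 1) - Ev a (b φ) q) * (B * B) := mul_le_mul_of_nonneg_left h9 h14
    _ = 1 * ((Ev a (b φ) (q + 1) - Ev a (b φ) q) * (B * B)) := (one_mul _).symm
    _ ≤ _ := mul_le_mul_of_nonneg_right h10 (by positivity)

end conv

/-- **the mean of the inverse gap** -/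
theorem lr_mean (hcont : UC.StCont) (hucp : UC.StUCP) [ConnectedSpace M] (hD : D.IsSurf μ)
    (hiso : ∀ p, ∀ z ∈ D.T p, ∃ c : ℝ, ∀ v, ‖D.A p z v‖ = c * ‖v‖)
    [MeasurableSpace C(M, ℝ)] [BorelSpace C(M, ℝ)] {P : Measure C(M, ℝ)} [IsProbabilityMeasure P]
    {S : Set C(M, ℝ)} (hS : Dense (Submodule.span ℝ S : Set C(M, ℝ))) (hP : ∀ h ∈ S, BdDir P h)
    {K : Set C(M, ℝ)} (hK : IsCompact K) (x : C(M, ℝ) → ℕ → ℝ)
    (hx : ∀ φ, ∃ (u : ℕ → M → ℝ) (lam : ℕ → ℝ),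
      EigBasis (D.conf fun x => Real.exp (φ x)) (wm μ fun x => Real.exp (φ x)) u lam ∧
        ∀ j, x φ j = (wm μ fun y => Real.exp (φ y)).real univ * lam j / (4 * Real.pi))
    {q : ℕ} (hq : ∃ φ, 0 < x φ q) :
    ∫⁻ φ in K, (ENNReal.ofReal (x φ (q + 1) - x φ q))⁻¹ ∂P < ⊤ := by
  obtain ⟨hf, hcs, i, a, b, hSf, hi, ha, hB, hpos, hEv⟩ := setup μ D hD
  have hxE : ∀ φ j, x φ j = (∫ x, Real.exp (φ x) ∂μ) * Ev a (b φ) j / (4 * Real.pi) := by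
    intro φ j
    obtain ⟨u, lam, hu, hl⟩ := hx φ
    rw [hl, hEv φ u lam hu]
  have hpi : 0 < 4 * Real.pi := by positivity
  have hq' : ∃ φ, 0 < Ev a (b φ) q := by
    obtain ⟨φ, hφ⟩ := hq
    refine ⟨φ, ?_⟩
    rw [hxE, div_pos_iff_of_pos_right hpi] at hφ
    exact (pos_iff_pos_of_mul_pos hφ).1 (hpos φ)
  obtain ⟨m, hmq, hm0, hmp⟩ := first_pos hSf hB hq'
  have hns := no_split hcont hucp hD hiso hi ha hB
  have h1 := mean_gap hSf hB hm0 hmp hmq hns hS hP hK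
  obtain ⟨Z, hZ0, hZ⟩ := gap_conv hSf hB hmp hmq hpos hK
  have h2 : ∫⁻ φ in K, (ENNReal.ofReal (x φ (q + 1) - x φ q))⁻¹ ∂P ≤
      ∫⁻ φ in K, ENNReal.ofReal Z * (ENNReal.ofReal (iv a b q φ - iv a b (q + 1) φ))⁻¹ ∂P := by
    refine setLIntegral_mono' hK.isClosed.measurableSet fun φ hφ => ?_
    have h3 := hZ φ hφ
    rw [sub_div, ← hxE, ← hxE] at h3
    have h4 : ENNReal.ofReal (iv a b q φ - iv a b (q + 1) φ) ≤
        ENNReal.ofReal Z * ENNReal.ofReal (x φ (q + 1) - x φ q) := by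
      rw [← ENNReal.ofReal_mul hZ0.le]
      exact ENNReal.ofReal_le_ofReal h3
    have hZn : ENNReal.ofReal Z ≠ 0 := (ENNReal.ofReal_pos.2 hZ0).ne'
    calc (ENNReal.ofReal (x φ (q + 1) - x φ q))⁻¹ = ENNReal.ofReal Z *
        (ENNReal.ofReal Z * ENNReal.ofReal (x φ (q + 1) - x φ q))⁻¹ := by
          rw [ENNReal.mul_inv (Or.inl hZn) (Or.inl ENNReal.ofReal_ne_top), ← mul_assoc,
            ENNReal.mul_inv_cancel hZn ENNReal.ofReal_ne_top, one_mul]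
      _ ≤ _ := by gcongr
  refine h2.trans_lt ?_
  rw [lintegral_const_mul' _ _ ENNReal.ofReal_ne_top]
  exact ENNReal.mul_lt_top ENNReal.ofReal_lt_top h1

end Pool.Agent.H23.LR
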