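import Pool.Agent.H23.LR.Nbh
import Pool.Agent.H23.UC.Stm4

/-!
# Level repulsion: the lower bound
-/

set_option autoImplicit false
set_option linter.unusedSectionVars false

open Set Filter Topology MeasureTheory
open scoped ENNReal
open Pool.Agent.Y262.QE Pool.Agent.Y264.QR Q101.QG
open Pool.Agent.Q233 Pool.Agent.Q233.GLV

noncomputable section

namespace Pool.Agent.H23.LR

variable {M : Type} [MetricSpace M] [CompactSpace M] [MeasurableSpace M] [BorelSpace M]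
  {μ : Measure M} [IsFiniteMeasure μ] {H : Type} [NormedAddCommGroup H] [InnerProductSpace ℝ H]
  {i : H →L[ℝ] Lp ℝ 2 μ} {a : H →L[ℝ] H →L[ℝ] ℝ} {b : C(M, ℝ) → H →L[ℝ] H →L[ℝ] ℝ} {m q : ℕ}

/-- the difference of the inverse eigenvalues is locally Lipschitz -/
lemma dl_lip (hF : ∀ φ, Fm a (b φ)) (μ : Measure M) [IsFiniteMeasure μ]
    (hcmp : ∀ (φ ψ : C(M, ℝ)) (v : H), b φ v v ≤ Real.exp ‖φ - ψ‖ * b ψ v v)
    (hmp : ∀ j, m ≤ j → ∀ φ, 0 < Ev a (b φ) j) (hmq : m ≤ q) (R : ℝ) :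
    ∃ L > 0, ∀ φ ψ : C(M, ℝ), ‖φ‖ ≤ R → ‖ψ‖ ≤ R → ‖φ - ψ‖ ≤ 1 / 2 →
      |dl a b q φ - dl a b q ψ| ≤ L * ‖φ - ψ‖ := by
  obtain ⟨B, hB0, Z, hZ0, hBZ⟩ := ev_bds μ hF hcmp hmp q R
  refine ⟨((q : ℝ) + 1) * (2 * B) + (((q + 1 : ℕ) : ℝ) + 1) * (2 * B), by positivity,
    fun φ ψ hφ hψ hd => ?_⟩
  have key : ∀ j, m ≤ j → |iv a b j φ - iv a b j ψ| ≤ ((j : ℝ) + 1) * (2 * B) * ‖φ - ψ‖ := by
    intro j hj
    have h1 := sm_lip (m := j) (q := j) hF μ hcmp (fun l hl => hmp l (hj.trans hl)) hB0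
      (fun φ hφ l hl => (hBZ φ hφ).1 l (hj.trans hl)) hφ hψ hd
    have h2 : ∀ φ, Sm a b j j φ = iv a b j φ := by
      intro φ
      unfold Sm
      rw [Nat.Ico_succ_singleton, Finset.sum_singleton]
    rwa [h2, h2] at h1
  have h1 := key q hmq
  have h2 := key (q + 1) (by omega)
  unfold dl
  have e1 : iv a b q φ - iv a b (q + 1) φ - (iv a b q ψ - iv a b (q + 1) ψ) =
      (iv a b q φ - iv a b q ψ) - (iv a b (q + 1) φ - iv a b (q + 1) ψ) := by ring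
  rw [e1]
  refine (abs_sub _ _).trans ?_
  linarith

/-- **the area of the set of small gaps in a plane** -/
theorem area_low [CompleteSpace H] (hS : Sf μ i a) (hB : IsB μ i b)
    (hm0 : ∀ j, j < m → ∀ φ, Ev a (b φ) j = 0) (hmp : ∀ j, m ≤ j → ∀ φ, 0 < Ev a (b φ) j)
    (hmq : m ≤ q) {φ₀ : C(M, ℝ)} {e : ℕ → H}
    {E : ℕ → ℝ} (hE : Eg a (b φ₀) e E) (hdbl : ∀ l, E l = E q ↔ l = q ∨ l = q + 1)
    {h k : C(M, ℝ)} (hne : dt a b q h k φ₀ e ≠ 0) {V : Set C(M, ℝ)} (hV : V ∈ 𝓝 φ₀) {r₀ : ℝ}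
    (hr₀ : 0 < r₀) :
    ∃ r > 0, r ≤ r₀ ∧ ∃ ρ > 0, ∃ c > 0, ∀ ψ, ‖ψ - φ₀‖ ≤ ρ → ∀ ε, 0 < ε → ε ≤ 1 →
      ENNReal.ofReal (c * ε ^ 2) ≤ volume {z : ℂ | z ∈ Metric.closedBall (0 : ℂ) r ∧
        (ψ + pl h k z ∈ V ∧ dl a b q (ψ + pl h k z) ≤ ε)} := by
  obtain ⟨hF, hcmp, -⟩ := forms μ i a b hS hB
  obtain ⟨hnn, hmono, -, hcont, -⟩ := tLip M μ H a b hF hcmp
  have hmm := Pool.Agent.Y592.QE.mm H a (b φ₀) (hF φ₀) e E hE
  obtain ⟨c₀, hc₀, hev⟩ := nbhd hS hB hmp hmq hE hdbl hne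
  obtain ⟨ρ₀, hρ₀, hball⟩ := Metric.eventually_nhds_iff_ball.1 (hev.and hV)
  obtain ⟨U, hU⟩ : ∃ U : Set C(M, ℝ), U = Metric.ball φ₀ ρ₀ := ⟨_, rfl⟩
  have hUR : ∀ φ ∈ U, ‖φ‖ ≤ ‖φ₀‖ + ρ₀ := by
    intro φ hφ
    rw [hU, mem_ball_iff_norm] at hφ
    have h1 : φ = φ₀ + (φ - φ₀) := by abel
    rw [h1]
    exact (norm_add_le _ _).trans (by linarith)
  obtain ⟨c', hc'0, hcr⟩ := crossing hS hB hm0 hmp hmq h k (U := U) hc₀ hUR
    (fun φ hφ => (hball φ (by rw [← hU]; exact hφ)).1.1)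
    (fun φ hφ => (hball φ (by rw [← hU]; exact hφ)).1.2.1)
    (fun φ hφ => (hball φ (by rw [← hU]; exact hφ)).1.2.2)
  obtain ⟨L, hL0, hL⟩ := dl_lip hF μ hcmp hmp hmq (‖φ₀‖ + ρ₀)
  obtain ⟨N, hN⟩ : ∃ N, N = ‖h‖ + ‖k‖ + 1 := ⟨_, rfl⟩
  have hN0 : 0 < N := by rw [hN]; positivity
  have hplN : ∀ z, ‖pl h k z‖ ≤ ‖z‖ * N := by
    intro z
    refine (pl_norm h k z).trans (mul_le_mul_of_nonneg_left ?_ (norm_nonneg _))
    rw [hN]
    linarith
  obtain ⟨r, hr⟩ : ∃ r, r = min r₀ (min (ρ₀ / (4 * N)) (1 / (4 * N))) := ⟨_, rfl⟩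
  have hr0 : 0 < r := by rw [hr]; positivity
  have hr1 : r ≤ r₀ := by rw [hr]; exact min_le_left _ _
  have hr2 : r * N ≤ ρ₀ / 4 := by
    have h1 : r ≤ ρ₀ / (4 * N) := by
      rw [hr]
      exact (min_le_right _ _).trans (min_le_left _ _)
    calc r * N ≤ ρ₀ / (4 * N) * N := mul_le_mul_of_nonneg_right h1 hN0.le
      _ = ρ₀ / 4 := by field_simp
  have hr3 : r * N ≤ 1 / 4 := by
    have h1 : r ≤ 1 / (4 * N) := by
      rw [hr]
      exact (min_le_right _ _).trans (min_le_right _ _)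
    calc r * N ≤ 1 / (4 * N) * N := mul_le_mul_of_nonneg_right h1 hN0.le
      _ = 1 / 4 := by field_simp
  -- the gap is small near `φ₀`
  have hdl0 : dl a b q φ₀ = 0 := by
    unfold dl iv
    rw [hmm, hmm, (hdbl (q + 1)).2 (Or.inr rfl), sub_self]
  have hdlc : Continuous (dl a b q) := by
    unfold dl
    exact (iv_cont hF μ hcmp hmp hmq).sub (iv_cont hF μ hcmp hmp (by omega : m ≤ q + 1))
  have hev2 : ∀ᶠ φ in 𝓝 φ₀, dl a b q φ < c' * (r / 2) := by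
    have h1 := hdlc.tendsto φ₀
    rw [hdl0] at h1
    exact h1.eventually (eventually_lt_nhds (by positivity))
  obtain ⟨ρ₁, hρ₁, hball1⟩ := Metric.eventually_nhds_iff_ball.1 hev2
  obtain ⟨s, hs⟩ : ∃ s, s = min (r / 2) (1 / (L * N)) := ⟨_, rfl⟩
  have hs0 : 0 < s := by rw [hs]; positivity
  have hs1 : s ≤ r / 2 := by rw [hs]; exact min_le_left _ _
  have hs2 : L * (s * N) ≤ 1 := by
    have h1 : s ≤ 1 / (L * N) := by rw [hs]; exact min_le_right _ _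
    calc L * (s * N) = s * (L * N) := by ring
      _ ≤ 1 / (L * N) * (L * N) := mul_le_mul_of_nonneg_right h1 (by positivity)
      _ = 1 := by field_simp
  refine ⟨r, hr0, hr1, min (ρ₀ / 4) (ρ₁ / 2), by positivity, s ^ 2 * Real.pi, by positivity, ?_⟩
  intro ψ hψ ε hε hε1
  have hψ0 : ‖ψ - φ₀‖ ≤ ρ₀ / 4 := hψ.trans (min_le_left _ _)
  have hψ1 : ‖ψ - φ₀‖ ≤ ρ₁ / 2 := hψ.trans (min_le_right _ _)
  have hUz : ∀ z ∈ Metric.closedBall (0 : ℂ) r, ψ + pl h k z ∈ U := by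
    intro z hz
    rw [mem_closedBall_zero_iff] at hz
    rw [hU, mem_ball_iff_norm]
    have e1 : ψ + pl h k z - φ₀ = (ψ - φ₀) + pl h k z := by abel
    rw [e1]
    refine (norm_add_le _ _).trans_lt ?_
    have h1 := hplN z
    have h2 : ‖z‖ * N ≤ r * N := mul_le_mul_of_nonneg_right hz hN0.le
    linarith
  have hdψ : dl a b q ψ < c' * (r / 2) := hball1 ψ (by
    rw [mem_ball_iff_norm]
    linarith)
  obtain ⟨z₀, hz₀, hz₀0⟩ := hcr ψ r hr0 hUz (by nlinarith)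
  have hz₀r : ‖z₀‖ < r / 2 := by
    have : c' * ‖z₀‖ < c' * (r / 2) := hz₀.trans_lt hdψ
    exact lt_of_mul_lt_mul_left this hc'0.le
  have hsub : Metric.closedBall z₀ (s * ε) ⊆ {z : ℂ | z ∈ Metric.closedBall (0 : ℂ) r ∧
      (ψ + pl h k z ∈ V ∧ dl a b q (ψ + pl h k z) ≤ ε)} := by
    intro z hz
    rw [mem_closedBall_iff_norm] at hz
    have hzs : ‖z - z₀‖ ≤ s := hz.trans (by nlinarith)
    have hzr : z ∈ Metric.closedBall (0 : ℂ) r := by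
      rw [mem_closedBall_zero_iff]
      have e1 : z = z₀ + (z - z₀) := by ring
      rw [e1]
      refine (norm_add_le _ _).trans ?_
      linarith
    have hz₀r' : z₀ ∈ Metric.closedBall (0 : ℂ) r := by
      rw [mem_closedBall_zero_iff]
      linarith
    refine ⟨hzr, (hball _ (by rw [← hU]; exact hUz z hzr)).2, ?_⟩
    have e2 : ψ + pl h k z - (ψ + pl h k z₀) = pl h k (z - z₀) := by
      rw [← pl_sub]
      abel
    have h1 : ‖pl h k (z - z₀)‖ ≤ ‖z - z₀‖ * N := hplN _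
    have h2 : ‖z - z₀‖ * N ≤ s * ε * N := mul_le_mul_of_nonneg_right hz hN0.le
    have h2' : ‖z - z₀‖ * N ≤ s * N := mul_le_mul_of_nonneg_right hzs hN0.le
    have h2'' : s * N ≤ r * N := mul_le_mul_of_nonneg_right (by linarith) hN0.le
    have h3 := hL (ψ + pl h k z) (ψ + pl h k z₀) (hUR _ (hUz z hzr)) (hUR _ (hUz z₀ hz₀r'))
      (by rw [e2]; linarith)
    rw [e2, hz₀0, sub_zero] at h3
    have h4 : L * ‖pl h k (z - z₀)‖ ≤ L * (s * ε * N) :=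
      mul_le_mul_of_nonneg_left (h1.trans h2) hL0.le
    have h5 : L * (s * ε * N) = (L * (s * N)) * ε := by ring
    have h6 : (L * (s * N)) * ε ≤ 1 * ε := mul_le_mul_of_nonneg_right hs2 hε.le
    have h7 := le_abs_self (dl a b q (ψ + pl h k z))
    linarith
  refine le_trans ?_ (measure_mono hsub)
  rw [Complex.volume_closedBall]
  have h1 : ENNReal.ofReal (s ^ 2 * Real.pi * ε ^ 2) =
      ENNReal.ofReal (s * ε) ^ 2 * ENNReal.ofReal Real.pi := by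
    rw [← ENNReal.ofReal_pow (by positivity), ← ENNReal.ofReal_mul (by positivity)]
    congr 1
    ring
  rw [h1]
  refine mul_le_mul' le_rfl (le_of_eq ?_)
  rw [ENNReal.ofReal_eq_coe_nnreal Real.pi_pos.le]
  rfl

/-- **the lower bound of the probability** -/
theorem prob_low [CompleteSpace H] (hS : Sf μ i a) (hB : IsB μ i b)
    (hm0 : ∀ j, j < m → ∀ φ, Ev a (b φ) j = 0) (hmp : ∀ j, m ≤ j → ∀ φ, 0 < Ev a (b φ) j)
    (hmq : m ≤ q) {φ₀ : C(M, ℝ)} {e : ℕ → H}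
    {E : ℕ → ℝ} (hE : Eg a (b φ₀) e E) (hdbl : ∀ l, E l = E q ↔ l = q ∨ l = q + 1)
    {h k : C(M, ℝ)} (hne : dt a b q h k φ₀ e ≠ 0) {V : Set C(M, ℝ)} (hV : V ∈ 𝓝 φ₀)
    [MeasurableSpace C(M, ℝ)] [BorelSpace C(M, ℝ)] {P : Measure C(M, ℝ)}
    (hP : UC.LowDir2 P h k φ₀) (hVm : MeasurableSet V) :
    ∃ c > 0, ∀ ε, 0 < ε → ε ≤ 1 →
      ENNReal.ofReal (c * ε ^ 2) ≤ P (V ∩ {φ | dl a b q φ ≤ ε}) := by
  obtain ⟨hF, hcmp, -⟩ := forms μ i a b hS hB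
  obtain ⟨Q, ν, ζ, r₀, c₀, hQ, hν, hr₀, hc₀, hlow, hQpos, rfl⟩ := hP
  obtain ⟨r, hr, hrr₀, ρ, hρ, c, hc, harea⟩ := area_low hS hB hm0 hmp hmq hE hdbl hne hV hr₀
  have hdlc : Continuous (dl a b q) := by
    unfold dl
    exact (iv_cont hF μ hcmp hmp hmq).sub (iv_cont hF μ hcmp hmp (by omega : m ≤ q + 1))
  obtain ⟨G, hG⟩ : ∃ G : Set C(M, ℝ), G = Metric.closedBall (φ₀ - (ζ.re • h + ζ.im • k)) ρ :=
    ⟨_, rfl⟩
  have hGm : MeasurableSet G := by rw [hG]; exact Metric.isClosed_closedBall.measurableSet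
  have hQG : 0 < (Q G).toReal := ENNReal.toReal_pos (by rw [hG]; exact (hQpos ρ hρ).ne')
    (measure_ne_top _ _)
  refine ⟨c₀ * c * (Q G).toReal, by positivity, fun ε hε hε1 => ?_⟩
  have hAm : MeasurableSet (V ∩ {φ | dl a b q φ ≤ ε}) :=
    hVm.inter (measurableSet_le hdlc.measurable measurable_const)
  have hm : Measurable fun p : C(M, ℝ) × ℂ => p.1 + (p.2.re • h + p.2.im • k) := by
    have h1 : Continuous fun p : C(M, ℝ) × ℂ => p.1 + (p.2.re • h + p.2.im • k) := by fun_prop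
    exact h1.measurable
  rw [Measure.map_apply hm hAm, Measure.prod_apply (hm hAm)]
  have key : ∀ ψ ∈ G, ENNReal.ofReal c₀ * ENNReal.ofReal (c * ε ^ 2) ≤
      ν (Prod.mk ψ ⁻¹' ((fun p : C(M, ℝ) × ℂ => p.1 + (p.2.re • h + p.2.im • k)) ⁻¹'
        (V ∩ {φ | dl a b q φ ≤ ε}))) := by
    intro ψ hψ
    rw [hG, mem_closedBall_iff_norm] at hψ
    have hψ' : ‖(ψ + pl h k ζ) - φ₀‖ ≤ ρ := by
      refine le_trans (le_of_eq ?_) hψ
      congr 1
      unfold pl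
      abel
    have h1 := harea (ψ + pl h k ζ) hψ' ε hε hε1
    obtain ⟨T, hT⟩ : ∃ T : Set ℂ, T = {z : ℂ | z ∈ Metric.closedBall ζ r ∧
        ψ + pl h k z ∈ V ∩ {φ | dl a b q φ ≤ ε}} := ⟨_, rfl⟩
    have hTm : MeasurableSet T := by
      rw [hT]
      have h2 : Measurable fun z : ℂ => ψ + pl h k z :=
        (continuous_const.add (pl_cont h k)).measurable
      exact Metric.isClosed_closedBall.measurableSet.inter (h2 hAm)
    have hshift : {z : ℂ | z ∈ Metric.closedBall (0 : ℂ) r ∧ (ψ + pl h k ζ + pl h k z ∈ V ∧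
        dl a b q (ψ + pl h k ζ + pl h k z) ≤ ε)} = (fun z => ζ + z) ⁻¹' T := by
      ext z
      rw [hT]
      simp only [mem_preimage, mem_inter_iff]
      have e1 : ψ + pl h k ζ + pl h k z = ψ + pl h k (ζ + z) := by
        unfold pl
        simp only [Complex.add_re, Complex.add_im, add_smul]
        abel
      have e2 : z ∈ Metric.closedBall (0 : ℂ) r ↔ ζ + z ∈ Metric.closedBall ζ r := by
        rw [mem_closedBall_zero_iff, mem_closedBall_iff_norm, add_sub_cancel_left]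
      constructor
      · rintro ⟨g1, g2, g3⟩
        rw [e1] at g2 g3
        exact ⟨e2.1 g1, g2, g3⟩
      · rintro ⟨g1, g2, g3⟩
        rw [← e1] at g2 g3
        exact ⟨e2.2 g1, g2, g3⟩
    rw [hshift, measure_preimage_add] at h1
    have h2 := hlow T hTm (by
      intro z hz
      rw [hT] at hz
      exact Metric.closedBall_subset_closedBall hrr₀ hz.1)
    refine (mul_le_mul' le_rfl h1).trans (h2.trans (measure_mono ?_))
    intro z hz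
    rw [hT] at hz
    exact hz.2
  calc ENNReal.ofReal (c₀ * c * (Q G).toReal * ε ^ 2) =
      (ENNReal.ofReal c₀ * ENNReal.ofReal (c * ε ^ 2)) * Q G := by
        rw [← ENNReal.ofReal_mul hc₀.le]
        conv_rhs => rw [← ENNReal.ofReal_toReal (measure_ne_top Q G)]
        rw [← ENNReal.ofReal_mul (by positivity)]
        congr 1
        ring
    _ = ∫⁻ _ in G, (ENNReal.ofReal c₀ * ENNReal.ofReal (c * ε ^ 2)) ∂Q := by
        rw [setLIntegral_const]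
    _ ≤ ∫⁻ ψ in G, ν (Prod.mk ψ ⁻¹' ((fun p : C(M, ℝ) × ℂ => p.1 + (p.2.re • h + p.2.im • k)) ⁻¹'
        (V ∩ {φ | dl a b q φ ≤ ε}))) ∂Q := setLIntegral_mono' hGm key
    _ ≤ _ := setLIntegral_le_lintegral _ _

end Pool.Agent.H23.LR
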