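import Mathlib

/-!
# Level repulsion: the pair correlation measure and the measure of the spacings
-/

set_option autoImplicit false

open Set Filter Topology MeasureTheory
open scoped ENNReal

noncomputable section

namespace Pool.Agent.H23.LR

/-- the pairs of different indices with levels at most `T` -/
abbrev PT (T : ℝ) (x : ℕ → ℝ) : Type := {p : ℕ × ℕ // p.1 ≠ p.2 ∧ x p.1 ≤ T ∧ x p.2 ≤ T}

/-- the pair correlation measure at the height `T` -/
def pcm (T : ℝ) (x : ℕ → ℝ) : Measure ℝ :=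
  ENNReal.ofReal T⁻¹ • Measure.sum fun p : PT T x => Measure.dirac (x p.1.1 - x p.1.2)

/-- the measure of the nearest neighbour spacings at the height `T` -/
def spm (T : ℝ) (x : ℕ → ℝ) : Measure ℝ :=
  ENNReal.ofReal T⁻¹ • Measure.sum fun k : {k : ℕ // x k ≤ T} =>
    Measure.dirac (x (k.1 + 1) - x k.1)

lemma pcm_le {T : ℝ} {x : ℕ → ℝ} (hm : Monotone x) {N : ℕ} (hN : ∀ j, x j ≤ T → j < N) (ε : ℝ) :
    (Measure.sum fun p : PT T x => Measure.dirac (x p.1.1 - x p.1.2)) (Icc (-ε) ε) ≤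
      ∑ p ∈ Finset.range N ×ˢ Finset.range N,
        (if x (min p.1 p.2 + 1) - x (min p.1 p.2) ≤ ε then 1 else 0 : ℝ≥0∞) := by
  rw [Measure.sum_apply _ measurableSet_Icc]
  obtain ⟨g, hg⟩ : ∃ g : ℕ × ℕ → ℝ≥0∞, g = fun p => if p ∈ Finset.range N ×ˢ Finset.range N then
      (if x (min p.1 p.2 + 1) - x (min p.1 p.2) ≤ ε then 1 else 0 : ℝ≥0∞) else 0 := ⟨_, rfl⟩
  have h1 : ∀ p : PT T x, (Measure.dirac (x p.1.1 - x p.1.2)) (Icc (-ε) ε) ≤ g p.1 := by
    rintro ⟨⟨j, k⟩, hne, hjT, hkT⟩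
    simp only
    rw [Measure.dirac_apply' _ measurableSet_Icc]
    by_cases hmem : x j - x k ∈ Icc (-ε) ε
    · rw [indicator_of_mem hmem, hg]
      simp only [Finset.mem_product, Finset.mem_range, Pi.one_apply]
      rw [if_pos ⟨hN j hjT, hN k hkT⟩, if_pos]
      rcases lt_or_gt_of_ne (show j ≠ k from hne) with h | h
      · rw [min_eq_left h.le]
        have := hm (Nat.succ_le_of_lt h)
        rw [Nat.succ_eq_add_one] at this
        linarith [hmem.1]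
      · rw [min_eq_right h.le]
        have := hm (Nat.succ_le_of_lt h)
        rw [Nat.succ_eq_add_one] at this
        linarith [hmem.2]
    · rw [indicator_of_notMem hmem]
      exact zero_le
  refine (ENNReal.tsum_le_tsum h1).trans ?_
  refine (ENNReal.tsum_comp_le_tsum_of_injective Subtype.val_injective g).trans ?_
  rw [tsum_eq_sum (s := Finset.range N ×ˢ Finset.range N) (fun p hp => by rw [hg]; exact if_neg hp)]
  refine Finset.sum_le_sum fun p hp => ?_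
  rw [hg]
  simp only
  rw [if_pos hp]

lemma spm_le {T : ℝ} {x : ℕ → ℝ} {N : ℕ} (hN : ∀ j, x j ≤ T → j < N) (ε : ℝ) :
    (Measure.sum fun k : {k : ℕ // x k ≤ T} => Measure.dirac (x (k.1 + 1) - x k.1)) (Iic ε) ≤
      ∑ k ∈ Finset.range N, (if x (k + 1) - x k ≤ ε then 1 else 0 : ℝ≥0∞) := by
  rw [Measure.sum_apply _ measurableSet_Iic]
  obtain ⟨g, hg⟩ : ∃ g : ℕ → ℝ≥0∞, g = fun k => if k ∈ Finset.range N then
      (if x (k + 1) - x k ≤ ε then 1 else 0 : ℝ≥0∞) else 0 := ⟨_, rfl⟩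
  have h1 : ∀ k : {k : ℕ // x k ≤ T}, (Measure.dirac (x (k.1 + 1) - x k.1)) (Iic ε) ≤ g k.1 := by
    rintro ⟨k, hk⟩
    simp only
    rw [Measure.dirac_apply' _ measurableSet_Iic]
    by_cases hmem : x (k + 1) - x k ∈ Iic ε
    · rw [indicator_of_mem hmem, hg]
      simp only [Finset.mem_range, Pi.one_apply]
      rw [if_pos (hN k hk), if_pos (mem_Iic.1 hmem)]
    · rw [indicator_of_notMem hmem]
      exact zero_le
  refine (ENNReal.tsum_le_tsum h1).trans ?_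
  refine (ENNReal.tsum_comp_le_tsum_of_injective Subtype.val_injective g).trans ?_
  rw [tsum_eq_sum (s := Finset.range N) (fun p hp => by rw [hg]; exact if_neg hp)]
  refine Finset.sum_le_sum fun p hp => ?_
  rw [hg]
  simp only
  rw [if_pos hp]

/-- a finite sum of rare events -/
lemma sum_rare {E : Type} [MeasurableSpace E] {P : Measure E} {K : Set E} (hK : MeasurableSet K)
    {ι : Type} (s : Finset ι) (A : ι → ℝ → Set E) (hA : ∀ p ε, MeasurableSet (A p ε))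
    (h : ∀ p, ∃ C : ℝ, ∀ ε > 0, P (K ∩ A p ε) ≤ ENNReal.ofReal (C * ε ^ 2)) (T : ℝ)
    (F : ℝ → E → ℝ≥0∞) (hF : ∀ ε, ∀ φ ∈ K, F ε φ ≤ ENNReal.ofReal T⁻¹ *
      ∑ p ∈ s, (A p ε).indicator 1 φ) :
    ∃ C : ℝ, ∀ ε > 0, ∫⁻ φ in K, F ε φ ∂P ≤ ENNReal.ofReal (C * ε ^ 2) := by
  choose c hc using h
  refine ⟨|T⁻¹| * ∑ p ∈ s, max (c p) 0, fun ε hε => ?_⟩
  refine (setLIntegral_mono' hK (hF ε)).trans ?_
  rw [lintegral_const_mul' _ _ ENNReal.ofReal_ne_top, lintegral_finsetSum _ fun p _ =>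
    measurable_one.indicator (hA p ε), mul_assoc, ENNReal.ofReal_mul (abs_nonneg _)]
  refine mul_le_mul' (ENNReal.ofReal_le_ofReal (le_abs_self _)) ?_
  rw [Finset.sum_mul, ENNReal.ofReal_sum_of_nonneg fun p _ =>
    mul_nonneg (le_max_right _ _) (sq_nonneg _)]
  refine Finset.sum_le_sum fun p _ => ?_
  rw [lintegral_indicator_one (hA p ε), Measure.restrict_apply (hA p ε), inter_comm]
  exact (hc p ε hε).trans (ENNReal.ofReal_le_ofReal
    (mul_le_mul_of_nonneg_right (le_max_left _ _) (sq_nonneg _)))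

/-- **the pair correlation measure and the measure of the spacings near zero** -/
theorem pair_spac {E : Type} [MeasurableSpace E] {P : Measure E} {K : Set E} (hK : MeasurableSet K)
    {x : E → ℕ → ℝ} (hx : ∀ j, Measurable fun φ => x φ j) (hm : ∀ φ, Monotone (x φ))
    (h : ∀ q, ∃ C : ℝ, ∀ ε > 0,
      P (K ∩ {φ | x φ (q + 1) - x φ q ≤ ε}) ≤ ENNReal.ofReal (C * ε ^ 2)) {T : ℝ}
    (hN : ∃ N, ∀ φ ∈ K, ∀ j, x φ j ≤ T → j < N) :
    ∃ C : ℝ, ∀ ε > 0, ∫⁻ φ in K, pcm T (x φ) (Icc (-ε) ε) ∂P ≤ ENNReal.ofReal (C * ε ^ 2) ∧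
      ∫⁻ φ in K, spm T (x φ) (Iic ε) ∂P ≤ ENNReal.ofReal (C * ε ^ 2) := by
  classical
  obtain ⟨N, hN⟩ := hN
  have hms : ∀ (q : ℕ) (ε : ℝ), MeasurableSet {φ | x φ (q + 1) - x φ q ≤ ε} := fun q ε =>
    measurableSet_le ((hx (q + 1)).sub (hx q)) measurable_const
  obtain ⟨C₁, hC₁⟩ := sum_rare hK (Finset.range N ×ˢ Finset.range N)
    (fun p ε => {φ | x φ (min p.1 p.2 + 1) - x φ (min p.1 p.2) ≤ ε}) (fun p ε => hms _ ε)
    (fun p => h _) T (fun ε φ => pcm T (x φ) (Icc (-ε) ε)) (fun ε φ hφ => by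
      unfold pcm
      rw [Measure.smul_apply, smul_eq_mul]
      refine mul_le_mul' le_rfl ?_
      refine (pcm_le (hm φ) (hN φ hφ) ε).trans (le_of_eq ?_)
      refine Finset.sum_congr rfl fun p _ => ?_
      rw [indicator_apply]
      rfl)
  obtain ⟨C₂, hC₂⟩ := sum_rare hK (Finset.range N)
    (fun p ε => {φ | x φ (p + 1) - x φ p ≤ ε}) (fun p ε => hms _ ε)
    (fun p => h _) T (fun ε φ => spm T (x φ) (Iic ε)) (fun ε φ hφ => by
      unfold spm
      rw [Measure.smul_apply, smul_eq_mul]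
      refine mul_le_mul' le_rfl ?_
      refine (spm_le (hN φ hφ) ε).trans (le_of_eq ?_)
      refine Finset.sum_congr rfl fun p _ => ?_
      rw [indicator_apply]
      rfl)
  refine ⟨max C₁ C₂, fun ε hε => ⟨(hC₁ ε hε).trans (ENNReal.ofReal_le_ofReal ?_),
    (hC₂ ε hε).trans (ENNReal.ofReal_le_ofReal ?_)⟩⟩
  · exact mul_le_mul_of_nonneg_right (le_max_left _ _) (sq_nonneg _)
  · exact mul_le_mul_of_nonneg_right (le_max_right _ _) (sq_nonneg _)

/-- **the lower bounds** -/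
theorem pair_spac_low {E : Type} [MeasurableSpace E] {P : Measure E} {x : E → ℕ → ℝ}
    (hx : ∀ j, Measurable fun φ => x φ j) (hm : ∀ φ, Monotone (x φ)) {q : ℕ} {T : ℝ} (hT : 0 < T)
    {V : Set E} (hV : MeasurableSet V) (hVT : ∀ φ ∈ V, x φ (q + 1) < T)
    (h : ∃ c > 0, ∀ ε, 0 < ε → ε ≤ 1 →
      ENNReal.ofReal (c * ε ^ 2) ≤ P (V ∩ {φ | x φ (q + 1) - x φ q ≤ ε})) :
    ∃ c > 0, ∀ ε, 0 < ε → ε ≤ 1 →
      ENNReal.ofReal (c * ε ^ 2) ≤ ∫⁻ φ, pcm T (x φ) (Icc (-ε) ε) ∂P ∧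
      ENNReal.ofReal (c * ε ^ 2) ≤ ∫⁻ φ, spm T (x φ) (Iic ε) ∂P := by
  obtain ⟨c, hc, hlow⟩ := h
  refine ⟨T⁻¹ * c, by positivity, fun ε hε hε1 => ?_⟩
  have h1 : MeasurableSet (V ∩ {φ | x φ (q + 1) - x φ q ≤ ε}) :=
    hV.inter (measurableSet_le ((hx (q + 1)).sub (hx q)) measurable_const)
  have key : ∀ F : E → ℝ≥0∞, (∀ φ ∈ V ∩ {φ | x φ (q + 1) - x φ q ≤ ε},
      ENNReal.ofReal T⁻¹ ≤ F φ) → ENNReal.ofReal (T⁻¹ * c * ε ^ 2) ≤ ∫⁻ φ, F φ ∂P := by
    intro F hF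
    calc ENNReal.ofReal (T⁻¹ * c * ε ^ 2) = ENNReal.ofReal T⁻¹ * ENNReal.ofReal (c * ε ^ 2) := by
          rw [← ENNReal.ofReal_mul (by positivity)]
          congr 1
          ring
      _ ≤ ENNReal.ofReal T⁻¹ * P (V ∩ {φ | x φ (q + 1) - x φ q ≤ ε}) :=
          mul_le_mul' le_rfl (hlow ε hε hε1)
      _ = ∫⁻ _ in V ∩ {φ | x φ (q + 1) - x φ q ≤ ε}, ENNReal.ofReal T⁻¹ ∂P := by
          rw [setLIntegral_const]
      _ ≤ ∫⁻ φ in V ∩ {φ | x φ (q + 1) - x φ q ≤ ε}, F φ ∂P := setLIntegral_mono' h1 hF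
      _ ≤ _ := setLIntegral_le_lintegral _ _
  constructor
  · refine key _ ?_
    rintro φ ⟨hφV, hφε⟩
    have g1 := hVT φ hφV
    have g3 : x φ (q + 1) - x φ q ≤ ε := hφε
    have g4 : x φ q ≤ x φ (q + 1) := hm φ (by omega)
    unfold pcm
    rw [Measure.smul_apply, smul_eq_mul]
    refine le_mul_of_one_le_right zero_le ?_
    obtain ⟨p, hp⟩ : ∃ p : PT T (x φ), p.1 = (q + 1, q) :=
      ⟨⟨(q + 1, q), by omega, g1.le, g4.trans g1.le⟩, rfl⟩
    refine le_trans ?_ (Measure.le_sum_apply _ _)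
    refine le_trans ?_ (ENNReal.le_tsum p)
    rw [hp, Measure.dirac_apply' _ measurableSet_Icc, indicator_of_mem]
    · rfl
    · exact ⟨by simp only; linarith, g3⟩
  · refine key _ ?_
    rintro φ ⟨hφV, hφε⟩
    have g1 := hVT φ hφV
    have g3 : x φ (q + 1) - x φ q ≤ ε := hφε
    have g4 : x φ q ≤ x φ (q + 1) := hm φ (by omega)
    unfold spm
    rw [Measure.smul_apply, smul_eq_mul]
    refine le_mul_of_one_le_right zero_le ?_
    obtain ⟨p, hp⟩ : ∃ p : {k : ℕ // x φ k ≤ T}, p.1 = q := ⟨⟨q, g4.trans g1.le⟩, rfl⟩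
    refine le_trans ?_ (Measure.le_sum_apply _ _)
    refine le_trans ?_ (ENNReal.le_tsum p)
    rw [hp, Measure.dirac_apply' _ measurableSet_Iic, indicator_of_mem]
    · rfl
    · exact g3

end Pool.Agent.H23.LR
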