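import Pool.Agent.H23.LR.Few
import Pool.Agent.H23.LR.Low
import Pool.Agent.H23.LR.Pair2
import Pool.Graph.R_pool_sql_team_seeded_35f281b4.K7.H58.RM.Conn

/-!
# Level repulsion: connected surfaces
-/

set_option autoImplicit false
set_option linter.unusedSectionVars false

open Set Filter Topology MeasureTheory
open scoped ENNReal
open Pool.Agent.Y262.QE Pool.Agent.Y264.QR Pool.Agent.Y319.QR Q101.QG
open Pool.Agent.Q233 Pool.Agent.Q233.GLV

noncomputable section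

namespace Pool.Agent.H23.LR

variable {M : Type} [MetricSpace M] [CompactSpace M] [MeasurableSpace M] [BorelSpace M]
  {μ : Measure M} {D : Data M} [Nonempty M]

/-- `x` are the unfolded levels -/
abbrev Lev (μ : Measure M) (D : Data M) (x : C(M, ℝ) → ℕ → ℝ) : Prop :=
  ∀ φ, ∃ (u : ℕ → M → ℝ) (lam : ℕ → ℝ),
    EigBasis (D.conf fun x => Real.exp (φ x)) (wm μ fun x => Real.exp (φ x)) u lam ∧
      ∀ j, x φ j = (wm μ fun y => Real.exp (φ y)).real univ * lam j / (4 * Real.pi)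

lemma lev_mono' {x : C(M, ℝ) → ℕ → ℝ} (hx : Lev μ D x) (φ : C(M, ℝ)) : Monotone (x φ) := by
  obtain ⟨u, lam, hu, hl⟩ := hx φ
  intro j k hjk
  rw [hl, hl]
  have := hu.mono hjk
  have h0 : 0 ≤ (wm μ fun y => Real.exp (φ y)).real univ := measureReal_nonneg
  gcongr

/-- the levels of positive index are positive -/
theorem lev_pos [ConnectedSpace M] (hD : D.IsSurf μ) {x : C(M, ℝ) → ℕ → ℝ} (hx : Lev μ D x)
    (φ : C(M, ℝ)) : (∀ j, 0 ≤ x φ j) ∧ ∀ j, 1 ≤ j → 0 < x φ j := by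
  obtain ⟨hf, hcs, i, a, b, hSf, hi, ha, hB, hpos, hEv⟩ := setup μ D hD
  have hxE : ∀ φ j, x φ j = (∫ x, Real.exp (φ x) ∂μ) * Ev a (b φ) j / (4 * Real.pi) := by
    intro φ j
    obtain ⟨u, lam, hu, hl⟩ := hx φ
    rw [hl, hEv φ u lam hu]
  obtain ⟨hF, hcmp, -⟩ := forms μ i a b hSf hB
  obtain ⟨hnn, hmono, -, -, -⟩ := tLip M μ _ a b hF hcmp
  obtain ⟨e, E, hE⟩ := tSp _ a (b φ) (hF φ)
  have hmm := Pool.Agent.Y592.QE.mm _ a (b φ) (hF φ) e E hE
  have h1 := Pool.Agent.K7.H58.RM.pos_one hD i a hSf hi ha b hB hE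
  rw [← hmm 1] at h1
  have h2 := hpos φ
  constructor
  · intro j
    rw [hxE]
    have := hnn φ j
    positivity
  · intro j hj
    rw [hxE]
    have h3 : 0 < Ev a (b φ) j := h1.trans_le (hmono φ 1 j hj)
    positivity

/-- **the quadratic bound for all gaps** -/
theorem lr_all (hcont : UC.StCont) (hucp : UC.StUCP) (hpl : UC.StPlane) (hcell : UC.StCell)
    [ConnectedSpace M] (hD : D.IsSurf μ)
    (hiso : ∀ p, ∀ z ∈ D.T p, ∃ c : ℝ, ∀ v, ‖D.A p z v‖ = c * ‖v‖)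
    [MeasurableSpace C(M, ℝ)] [BorelSpace C(M, ℝ)] {P : Measure C(M, ℝ)} [IsProbabilityMeasure P]
    {S : Set C(M, ℝ)} (hS : Dense (Submodule.span ℝ S : Set C(M, ℝ)))
    (hP : ∀ h ∈ S, ∀ k ∈ S, LinearIndependent ℝ ![h, k] → UC.BdDir2 P h k)
    {K : Set C(M, ℝ)} (hK : IsCompact K) {x : C(M, ℝ) → ℕ → ℝ} (hx : Lev μ D x) :
    (∀ q, ∃ C : ℝ, ∀ ε > 0,
      P (K ∩ {φ | x φ (q + 1) - x φ q ≤ ε}) ≤ ENNReal.ofReal (C * ε ^ 2)) ∧
    ∀ T : ℝ, ∃ C : ℝ, ∀ ε > 0,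
      ∫⁻ φ in K, pcm T (x φ) (Icc (-ε) ε) ∂P ≤ ENNReal.ofReal (C * ε ^ 2) ∧
      ∫⁻ φ in K, spm T (x φ) (Iic ε) ∂P ≤ ENNReal.ofReal (C * ε ^ 2) := by
  have h1 : ∀ q, (∃ φ, 0 < x φ q) → ∃ C : ℝ, ∀ ε > 0,
      P (K ∩ {φ | x φ (q + 1) - x φ q ≤ ε}) ≤ ENNReal.ofReal (C * ε ^ 2) := fun q hq =>
    lr_sq hcont hucp hpl hcell hD hiso hS hP hK x hx hq
  have h2 : ∀ q, ∃ C : ℝ, ∀ ε > 0,
      P (K ∩ {φ | x φ (q + 1) - x φ q ≤ ε}) ≤ ENNReal.ofReal (C * ε ^ 2) := by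
    intro q
    by_cases hq : ∃ φ, 0 < x φ q
    · exact h1 q hq
    · push Not at hq
      have hq0 : ∀ φ, x φ q = 0 := fun φ => le_antisymm (hq φ) ((lev_pos hD hx φ).1 q)
      have hc : Continuous fun φ => x φ (q + 1) := lev_c μ D hD x hx (q + 1)
      rcases K.eq_empty_or_nonempty with h0 | h0
      · refine ⟨0, fun ε _ => ?_⟩
        rw [h0, empty_inter, measure_empty]
        exact zero_le
      · obtain ⟨φ₁, hφ₁, hmin⟩ := hK.exists_isMinOn h0 hc.continuousOn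
        have hpos := (lev_pos hD hx φ₁).2 (q + 1) (by omega)
        refine ⟨1 / (x φ₁ (q + 1)) ^ 2, fun ε hε => ?_⟩
        rcases lt_or_ge ε (x φ₁ (q + 1)) with h | h
        · have hempty : K ∩ {φ | x φ (q + 1) - x φ q ≤ ε} = ∅ := by
            rw [eq_empty_iff_forall_notMem]
            rintro φ ⟨hφ, hle⟩
            have h3 : x φ (q + 1) - x φ q ≤ ε := hle
            rw [hq0, sub_zero] at h3
            have h4 : x φ₁ (q + 1) ≤ x φ (q + 1) := hmin hφ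
            linarith
          rw [hempty, measure_empty]
          exact zero_le
        · refine prob_le_one.trans ?_
          rw [← ENNReal.ofReal_one]
          refine ENNReal.ofReal_le_ofReal ?_
          rw [div_mul_eq_mul_div, one_mul, le_div_iff₀ (by positivity), one_mul]
          exact pow_le_pow_left₀ hpos.le h 2
  exact ⟨h2, fun T => pair_spac hK.isClosed.measurableSet
    (fun j => (lev_c μ D hD x hx j).measurable) (lev_mono' hx) h2 (few hD x hx hK T)⟩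

/-- **the quadratic bound for all gaps of a law which is carried by a compact set** -/
theorem lr_all_univ (hcont : UC.StCont) (hucp : UC.StUCP) (hpl : UC.StPlane) (hcell : UC.StCell)
    [ConnectedSpace M] (hD : D.IsSurf μ)
    (hiso : ∀ p, ∀ z ∈ D.T p, ∃ c : ℝ, ∀ v, ‖D.A p z v‖ = c * ‖v‖)
    [MeasurableSpace C(M, ℝ)] [BorelSpace C(M, ℝ)] {P : Measure C(M, ℝ)} [IsProbabilityMeasure P]
    {S : Set C(M, ℝ)} (hS : Dense (Submodule.span ℝ S : Set C(M, ℝ)))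
    (hP : ∀ h ∈ S, ∀ k ∈ S, LinearIndependent ℝ ![h, k] → UC.BdDir2 P h k)
    {K : Set C(M, ℝ)} (hK : IsCompact K) (hK0 : P Kᶜ = 0) {x : C(M, ℝ) → ℕ → ℝ}
    (hx : Lev μ D x) :
    (∀ q, ∃ C : ℝ, ∀ ε > 0, P {φ | x φ (q + 1) - x φ q ≤ ε} ≤ ENNReal.ofReal (C * ε ^ 2)) ∧
    ∀ T : ℝ, ∃ C : ℝ, ∀ ε > 0,
      ∫⁻ φ, pcm T (x φ) (Icc (-ε) ε) ∂P ≤ ENNReal.ofReal (C * ε ^ 2) ∧
      ∫⁻ φ, spm T (x φ) (Iic ε) ∂P ≤ ENNReal.ofReal (C * ε ^ 2) := by
  obtain ⟨g1, g2⟩ := lr_all hcont hucp hpl hcell hD hiso hS hP hK hx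
  have hres : P.restrict K = P := Measure.restrict_eq_self_of_ae_mem (by
    rw [ae_iff]
    exact hK0)
  refine ⟨fun q => ?_, fun T => ?_⟩
  · obtain ⟨C, hC⟩ := g1 q
    refine ⟨C, fun ε hε => le_trans (le_of_eq ?_) (hC ε hε)⟩
    have h1 : MeasurableSet {φ | x φ (q + 1) - x φ q ≤ ε} :=
      measurableSet_le ((lev_c μ D hD x hx (q + 1)).measurable.sub
        (lev_c μ D hD x hx q).measurable) measurable_const
    rw [inter_comm, ← Measure.restrict_apply h1, hres]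
  · obtain ⟨C, hC⟩ := g2 T
    refine ⟨C, fun ε hε => ?_⟩
    have := hC ε hε
    rwa [hres] at this

end Pool.Agent.H23.LR
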