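import Pool.Agent.H23.LR.Int

/-!
# Level repulsion: random conformal factors
-/

set_option autoImplicit false
set_option linter.unusedSectionVars false

open Set Filter Topology MeasureTheory
open scoped ENNReal
open Pool.Agent.Y262.QE Pool.Agent.Y264.QR Q101.QG
open Pool.Agent.Q233 Pool.Agent.Q233.GLV

noncomputable section

namespace Pool.Agent.H23.LR

/-- `P` is the law of `ψ + ξ h` with independent `ψ`, `ξ`, where the real random variable `ξ` has a
bounded density -/
def BdDir {E : Type} [TopologicalSpace E] [AddCommGroup E] [Module ℝ E] [MeasurableSpace E]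
    (P : Measure E) (h : E) : Prop :=
  ∃ (Q : Measure E) (ν : Measure ℝ) (c : ENNReal), IsProbabilityMeasure Q ∧
    IsProbabilityMeasure ν ∧ c ≠ ⊤ ∧ ν ≤ c • (volume : Measure ℝ) ∧
    P = (Q.prod ν).map fun p => p.1 + p.2 • h

lemma bddir_le {E : Type} [NormedAddCommGroup E] [NormedSpace ℝ E] [SecondCountableTopology E]
    [MeasurableSpace E] [BorelSpace E] {P : Measure E} {h : E} (hP : BdDir P h) :
    ∃ c : ENNReal, c ≠ ⊤ ∧ ∀ F : E → ENNReal, Measurable F → ∀ X : ENNReal,
      (∀ ψ, ∫⁻ t : ℝ, F (ψ + t • h) ≤ X) → ∫⁻ φ, F φ ∂P ≤ c * X := by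
  obtain ⟨Q, ν, c, hQ, hν, hc, hle, rfl⟩ := hP
  refine ⟨c, hc, fun F hF X hX => ?_⟩
  have hm : Measurable fun p : E × ℝ => p.1 + p.2 • h := by
    have : Continuous fun p : E × ℝ => p.1 + p.2 • h := by fun_prop
    exact this.measurable
  rw [lintegral_map hF hm]
  have h0 := lintegral_prod (μ := Q) (ν := ν) (fun p : E × ℝ => F (p.1 + p.2 • h))
    (hF.comp hm).aemeasurable
  rw [h0]
  calc ∫⁻ ψ, ∫⁻ t, F (ψ + t • h) ∂ν ∂Q ≤ ∫⁻ _ψ, c * X ∂Q := by
        refine lintegral_mono fun ψ => ?_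
        calc ∫⁻ t, F (ψ + t • h) ∂ν ≤ ∫⁻ t, F (ψ + t • h) ∂(c • (volume : Measure ℝ)) :=
              lintegral_mono' hle le_rfl
          _ = c * ∫⁻ t, F (ψ + t • h) := by rw [lintegral_smul_measure, smul_eq_mul]
          _ ≤ c * X := mul_le_mul_right (hX ψ) _
    _ = c * X := by simp

variable {M : Type} [MetricSpace M] [CompactSpace M] [MeasurableSpace M] [BorelSpace M]
  {μ : Measure M} [IsFiniteMeasure μ] {H : Type} [NormedAddCommGroup H] [InnerProductSpace ℝ H]
  {i : H →L[ℝ] Lp ℝ 2 μ} {a : H →L[ℝ] H →L[ℝ] ℝ} {b : C(M, ℝ) → H →L[ℝ] H →L[ℝ] ℝ} {m q : ℕ}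

/-- **the mean over the random conformal factor** -/
theorem mean_bd [CompleteSpace H] (hS : Sf μ i a) (hB : IsB μ i b)
    (hm0 : ∀ j, j < m → ∀ φ, Ev a (b φ) j = 0) (hmp : ∀ j, m ≤ j → ∀ φ, 0 < Ev a (b φ) j)
    (hmq : m ≤ q) [MeasurableSpace C(M, ℝ)] [BorelSpace C(M, ℝ)] {P : Measure C(M, ℝ)}
    {h : C(M, ℝ)} (hP : BdDir P h) {A : Set C(M, ℝ)} (hAm : MeasurableSet A) {R c : ℝ}
    (hAR : ∀ φ ∈ A, ‖φ‖ ≤ R) (hc : 0 < c) (hA : ∀ φ ∈ A, ∃ u, Tp a b q φ u ∧ c ≤ |od i h φ q u|) :
    ∃ X : ENNReal, X ≠ ⊤ ∧ ∀ ε > 0, ∫⁻ φ, A.indicator (fun φ => ENNReal.ofReal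
        (iv a b q φ - iv a b (q + 1) φ + ε)⁻¹) φ ∂P ≤ X := by
  obtain ⟨hF, hcmp, -⟩ := forms μ i a b hS hB
  obtain ⟨c₀, hc₀, hle⟩ := bddir_le hP
  by_cases hh : h = 0
  · have hA0 : A = ∅ := by
      rw [eq_empty_iff_forall_notMem]
      intro φ hφ
      obtain ⟨u, -, h1⟩ := hA φ hφ
      have h2 : od i h φ q u = 0 := by
        unfold od
        rw [hh]
        simp
      rw [h2, abs_zero] at h1
      linarith
    refine ⟨0, ENNReal.zero_ne_top, fun ε _ => ?_⟩
    rw [hA0]
    simp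
  · have hn : 0 < ‖h‖ := norm_pos_iff.2 hh
    obtain ⟨r, hr⟩ : ∃ r, r = 2 * |R| / ‖h‖ + 1 := ⟨_, rfl⟩
    have hr0 : 0 < r := by rw [hr]; positivity
    obtain ⟨C, hC0, hC⟩ := line_int hS hB hm0 hmp hmq h (|R| + (r + 1) * ‖h‖)
    refine ⟨c₀ * ENNReal.ofReal (C * (1 + 2 * r) / c ^ 2),
      ENNReal.mul_ne_top hc₀ ENNReal.ofReal_ne_top, fun ε hε => ?_⟩
    refine hle _ ?_ _ fun ψ => ?_
    · refine Measurable.indicator ?_ hAm
      refine Measurable.ennreal_ofReal (Measurable.inv ?_)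
      have h1 := (iv_cont hF μ hcmp hmp hmq).measurable
      have h2 := (iv_cont hF μ hcmp hmp (by omega : m ≤ q + 1)).measurable
      exact (h1.sub h2).add_const ε
    · by_cases hex : ∃ s : ℝ, ψ + s • h ∈ A
      · obtain ⟨s, hs⟩ := hex
        have hsR := (hAR _ hs).trans (le_abs_self R)
        have h1 := hC A c hc hA ψ (s - r) (s + r) (by linarith) (fun t ht1 ht2 => by
          have e1 : ψ + t • h = (ψ + s • h) + (t - s) • h := by
            rw [sub_smul]
            abel
          rw [e1]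
          refine (norm_add_le _ _).trans (add_le_add hsR ?_)
          rw [norm_smul, Real.norm_eq_abs]
          refine mul_le_mul_of_nonneg_right ?_ hn.le
          rw [abs_le]
          constructor <;> linarith) ε hε
        have e1 : s + r - (s - r) = 2 * r := by ring
        rw [e1] at h1
        refine le_trans (le_of_eq ?_) h1
        rw [← lintegral_indicator measurableSet_Ioc]
        refine lintegral_congr fun t => ?_
        by_cases ht : t ∈ Ioc (s - r) (s + r)
        · rw [indicator_of_mem ht]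
        · rw [indicator_of_notMem ht, indicator_of_notMem]
          intro hmem
          refine ht ?_
          have h2 := (hAR _ hmem).trans (le_abs_self R)
          have h3 : ‖(t - s) • h‖ ≤ 2 * |R| := by
            have e2 : (t - s) • h = (ψ + t • h) - (ψ + s • h) := by
              rw [sub_smul]
              abel
            rw [e2]
            refine (norm_sub_le _ _).trans ?_
            linarith
          rw [norm_smul, Real.norm_eq_abs, ← le_div_iff₀ hn] at h3
          have h4 := abs_le.1 h3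
          constructor <;> linarith [h4.1, h4.2]
      · push Not at hex
        have h1 : ∀ t : ℝ, A.indicator (fun φ => ENNReal.ofReal
            (iv a b q φ - iv a b (q + 1) φ + ε)⁻¹) (ψ + t • h) = 0 := fun t =>
          indicator_of_notMem (hex t) _
        simp only [h1, lintegral_zero]
        exact zero_le

end Pool.Agent.H23.LR
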