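import Pool.Agent.H23.LR.Cpt
import Pool.Agent.H23.LR.Prob

/-!
# Level repulsion: the mean of the inverse gap
-/

set_option autoImplicit false
set_option linter.unusedSectionVars false

open Set Filter Topology MeasureTheory
open scoped ENNReal
open Pool.Agent.Y262.QE Pool.Agent.Y264.QR Q101.QG
open Pool.Agent.Q233 Pool.Agent.Q233.GLV

noncomputable section

namespace Pool.Agent.H23.LR

variable {M : Type} [MetricSpace M] [CompactSpace M] [MeasurableSpace M] [BorelSpace M]
  {μ : Measure M} [IsFiniteMeasure μ] {H : Type} [NormedAddCommGroup H] [InnerProductSpace ℝ H]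
  {i : H →L[ℝ] Lp ℝ 2 μ} {a : H →L[ℝ] H →L[ℝ] ℝ} {b : C(M, ℝ) → H →L[ℝ] H →L[ℝ] ℝ} {m q : ℕ}

lemma od_int (hB : IsB μ i b) (h φ : C(M, ℝ)) (u : ℕ → H) :
    od i h φ q u = ∫ x, h x * (Real.exp (φ x) * (i (u q) x * i (u (q + 1)) x)) ∂μ := by
  unfold od
  refine integral_congr_ae (Eventually.of_forall fun x => ?_)
  ring

lemma od_integrable (φ : C(M, ℝ)) (u v : H) :
    Integrable (fun x => Real.exp (φ x) * (i u x * i v x)) μ :=
  kf_int (i := i) (ex φ) u v

/-- a countable total subset of a total set -/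
lemma ctb_total [Nonempty M] {S : Set C(M, ℝ)} (hS : Dense (Submodule.span ℝ S : Set C(M, ℝ))) :
    ∃ hs : ℕ → C(M, ℝ), (∀ n, hs n ∈ S) ∧
      Dense (Submodule.span ℝ (range hs) : Set C(M, ℝ)) := by
  obtain ⟨t, htS, htc, hts⟩ :=
    (TopologicalSpace.IsSeparable.of_separableSpace S).exists_countable_dense_subset
  have hd : Dense (Submodule.span ℝ t : Set C(M, ℝ)) := by
    have h1 : Submodule.span ℝ S ≤ (Submodule.span ℝ t).topologicalClosure := by
      rw [Submodule.span_le]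
      refine hts.trans ?_
      rw [Submodule.topologicalClosure_coe]
      exact closure_mono Submodule.subset_span
    intro f
    have h2 := hS f
    have h3 : closure (Submodule.span ℝ S : Set C(M, ℝ)) ⊆
        closure (closure (Submodule.span ℝ t : Set C(M, ℝ))) := by
      refine closure_mono fun x hx => ?_
      have := h1 hx
      rwa [← SetLike.mem_coe, Submodule.topologicalClosure_coe] at this
    rw [closure_closure] at h3
    exact h3 h2
  have hne : t.Nonempty := by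
    by_contra hcon
    rw [not_nonempty_iff_eq_empty] at hcon
    rw [hcon, Submodule.span_empty] at hd
    have h1 := hd (1 : C(M, ℝ))
    rw [Submodule.bot_coe, closure_singleton, mem_singleton_iff] at h1
    obtain ⟨x⟩ : Nonempty M := inferInstance
    have h2 := DFunLike.congr_fun h1 x
    simp at h2
  obtain ⟨hs, hhs⟩ := htc.exists_eq_range hne
  refine ⟨hs, fun n => htS ?_, by rw [← hhs]; exact hd⟩
  rw [hhs]
  exact mem_range_self n

/-- no two eigenvectors of a double eigenvalue are supported in disjoint sets -/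
def NoSplit (μ : Measure M) (i : H →L[ℝ] Lp ℝ 2 μ) (a : H →L[ℝ] H →L[ℝ] ℝ)
    (b : C(M, ℝ) → H →L[ℝ] H →L[ℝ] ℝ) : Prop :=
  ∀ (φ : C(M, ℝ)) (E : ℝ) (u v : H), (∀ w, a u w = E * b φ u w) → (∀ w, a v w = E * b φ v w) →
    (∀ᵐ x ∂μ, i u x * i v x = 0) → b φ u u = 0 ∨ b φ v v = 0

lemma gap_tend (δ : ℝ) : Tendsto (fun n : ℕ => ENNReal.ofReal (δ + 1 / ((n : ℝ) + 1)))
    atTop (𝓝 (ENNReal.ofReal δ)) := by
  refine ENNReal.tendsto_ofReal ?_
  have h := (tendsto_one_div_add_atTop_nhds_zero_nat (𝕜 := ℝ)).const_add δ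
  rwa [add_zero] at h

/-- **the mean of the inverse gap, abstract form** -/
theorem mean_gap [CompleteSpace H] [Nonempty M] (hS : Sf μ i a) (hB : IsB μ i b)
    (hm0 : ∀ j, j < m → ∀ φ, Ev a (b φ) j = 0) (hmp : ∀ j, m ≤ j → ∀ φ, 0 < Ev a (b φ) j)
    (hmq : m ≤ q) (hns : NoSplit μ i a b) [MeasurableSpace C(M, ℝ)] [BorelSpace C(M, ℝ)]
    {P : Measure C(M, ℝ)} [IsProbabilityMeasure P] {S : Set C(M, ℝ)}
    (hSd : Dense (Submodule.span ℝ S : Set C(M, ℝ))) (hP : ∀ h ∈ S, BdDir P h)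
    {K : Set C(M, ℝ)} (hK : IsCompact K) :
    ∫⁻ φ in K, (ENNReal.ofReal (iv a b q φ - iv a b (q + 1) φ))⁻¹ ∂P < ⊤ := by
  obtain ⟨hF, hcmp, -⟩ := forms μ i a b hS hB
  obtain ⟨hnn, hmono, -, -, -⟩ := tLip M μ H a b hF hcmp
  obtain ⟨hs, hsS, hsd⟩ := ctb_total hSd
  have hne : ∀ φ u, Tp a b q φ u → Ev a (b φ) q = Ev a (b φ) (q + 1) →
      ∃ n, od i (hs n) φ q u ≠ 0 := by
    intro φ u hu heq
    by_contra hcon
    push Not at hcon
    have h1 := RSP.zero_of_total μ (od_integrable (i := i) φ (u q) (u (q + 1))) (range hs) hsd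
      (by
        rintro _ ⟨n, rfl⟩
        rw [← od_int hB]
        exact hcon n)
    have h2 : ∀ᵐ x ∂μ, i (u q) x * i (u (q + 1)) x = 0 := by
      filter_upwards [h1] with x hx
      rcases mul_eq_zero.1 hx with h | h
      · exact absurd h (Real.exp_pos _).ne'
      · exact h
    have h3 := hns φ (Ev a (b φ) q) (u q) (u (q + 1)) (hu.eig q (by omega))
      (fun w => by rw [heq]; exact hu.eig (q + 1) (by omega) w) h2
    rw [hu.orth q q (by omega) (by omega), hu.orth (q + 1) (q + 1) (by omega) (by omega),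
      if_pos rfl, if_pos rfl] at h3
    rcases h3 with h | h <;> exact one_ne_zero h
  obtain ⟨N, c, hc, hcov⟩ := cover hS hB hmp hmq hs hne hK
  obtain ⟨R, hR⟩ := hK.isBounded.exists_norm_le
  have hm : ∀ n, MeasurableSet (K ∩ Fc i a b q (hs n) c) := fun n =>
    (hK.isClosed.inter (fc_closed hS hB _ _)).measurableSet
  choose X hX hXle using fun n : ℕ => mean_bd (c := c) (R := R) hS hB hm0 hmp hmq (hP _ (hsS n))
    (hm n) (fun φ hφ => hR φ hφ.1) hc (fun φ hφ => hφ.2)
  have hδ : ∀ φ : C(M, ℝ), 0 ≤ iv a b q φ - iv a b (q + 1) φ := by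
    intro φ
    rw [sub_nonneg]
    exact inv_anti₀ (hmp q hmq φ) (hmono φ q (q + 1) (by omega))
  have hmeas : ∀ ε : ℝ, Measurable fun φ => ENNReal.ofReal
      (iv a b q φ - iv a b (q + 1) φ + ε)⁻¹ := by
    intro ε
    refine Measurable.ennreal_ofReal (Measurable.inv ?_)
    have h1 := (iv_cont hF μ hcmp hmp hmq).measurable
    have h2 := (iv_cont hF μ hcmp hmp (by omega : m ≤ q + 1)).measurable
    exact (h1.sub h2).add_const ε
  obtain ⟨X', hX'⟩ : ∃ X' : ENNReal, X' = ENNReal.ofReal c⁻¹ + ∑ n ∈ Finset.range N, X n :=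
    ⟨_, rfl⟩
  have hX'0 : X' ≠ ⊤ := by
    rw [hX']
    exact ENNReal.add_ne_top.2 ⟨ENNReal.ofReal_ne_top,
      (ENNReal.sum_lt_top.2 fun n _ => (hX n).lt_top).ne⟩
  have key : ∀ ε > 0, ∫⁻ φ in K, ENNReal.ofReal (iv a b q φ - iv a b (q + 1) φ + ε)⁻¹ ∂P ≤ X' := by
    intro ε hε
    rw [← lintegral_indicator hK.isClosed.measurableSet]
    have h1 : ∀ φ, K.indicator (fun φ => ENNReal.ofReal (iv a b q φ - iv a b (q + 1) φ + ε)⁻¹) φ ≤
        ENNReal.ofReal c⁻¹ + ∑ n ∈ Finset.range N, (K ∩ Fc i a b q (hs n) c).indicator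
          (fun φ => ENNReal.ofReal (iv a b q φ - iv a b (q + 1) φ + ε)⁻¹) φ := by
      intro φ
      by_cases hφ : φ ∈ K
      · rw [indicator_of_mem hφ]
        rcases le_or_gt (iv a b q φ - iv a b (q + 1) φ) c with h | h
        · obtain ⟨n, hn, hmem⟩ := hcov φ hφ h
          refine le_add_left ?_
          refine le_trans (le_of_eq ?_) (Finset.single_le_sum (f := fun n =>
            (K ∩ Fc i a b q (hs n) c).indicator (fun φ => ENNReal.ofReal
              (iv a b q φ - iv a b (q + 1) φ + ε)⁻¹) φ) (fun _ _ => zero_le)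
            (Finset.mem_range.2 hn))
          rw [indicator_of_mem (show φ ∈ K ∩ Fc i a b q (hs n) c from ⟨hφ, hmem⟩)]
        · refine le_add_right (ENNReal.ofReal_le_ofReal ?_)
          exact inv_anti₀ hc (by linarith)
      · rw [indicator_of_notMem hφ]
        exact zero_le
    refine (lintegral_mono h1).trans ?_
    rw [lintegral_add_left measurable_const, lintegral_const, measure_univ, mul_one,
      lintegral_finset_sum _ fun n _ => (hmeas ε).indicator (hm n), hX']
    exact add_le_add le_rfl (Finset.sum_le_sum fun n _ => hXle n ε hε)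
  -- Fatou's lemma
  have h2 : ∀ φ, Tendsto (fun n : ℕ => ENNReal.ofReal
      (iv a b q φ - iv a b (q + 1) φ + 1 / ((n : ℝ) + 1))⁻¹) atTop
      (𝓝 (ENNReal.ofReal (iv a b q φ - iv a b (q + 1) φ))⁻¹) := by
    intro φ
    have h3 := ((continuous_inv (G := ENNReal)).tendsto _).comp
      (gap_tend (iv a b q φ - iv a b (q + 1) φ))
    refine h3.congr fun n => ?_
    have h4 : 0 < iv a b q φ - iv a b (q + 1) φ + 1 / ((n : ℝ) + 1) := by
      have := hδ φ
      positivity
    simp only [Function.comp]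
    rw [ENNReal.ofReal_inv_of_pos h4]
  have h3 : ∫⁻ φ in K, (ENNReal.ofReal (iv a b q φ - iv a b (q + 1) φ))⁻¹ ∂P ≤ X' := by
    have h4 : ∀ φ, (ENNReal.ofReal (iv a b q φ - iv a b (q + 1) φ))⁻¹ =
        liminf (fun n : ℕ => ENNReal.ofReal
          (iv a b q φ - iv a b (q + 1) φ + 1 / ((n : ℝ) + 1))⁻¹) atTop :=
      fun φ => ((h2 φ).liminf_eq).symm
    simp only [h4]
    refine (lintegral_liminf_le fun n => hmeas _).trans ?_
    refine liminf_le_of_le (by isBoundedDefault) fun d hd => ?_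
    obtain ⟨n, hn⟩ := hd.exists
    exact hn.trans (key _ (by positivity))
  exact h3.trans_lt hX'0.lt_top

end Pool.Agent.H23.LR
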