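import Pool.Agent.H23.LR.Plane
import Pool.Agent.H23.LR.Mean

/-!
# Level repulsion: compactness for pairs of directions
-/

set_option autoImplicit false
set_option linter.unusedSectionVars false

open Set Filter Topology MeasureTheory
open scoped ENNReal
open Pool.Agent.Y262.QE Pool.Agent.Y264.QR Q101.QG
open Pool.Agent.Q233 Pool.Agent.Q233.GLV

noncomputable section

namespace Pool.Agent.H23.LR

/-- parallel vectors of the plane are orthogonal to a common vector -/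
lemma parallel {ι : Type} (D O : ι → ℝ) (h : ∀ n l, D n * O l - D l * O n = 0) :
    ∃ α β : ℝ, (α ≠ 0 ∨ β ≠ 0) ∧ ∀ n, α * D n + β * O n = 0 := by
  by_cases h0 : ∀ n, D n = 0 ∧ O n = 0
  · exact ⟨1, 0, Or.inl one_ne_zero, fun n => by rw [(h0 n).1, (h0 n).2]; ring⟩
  · push Not at h0
    obtain ⟨n, hn⟩ := h0
    refine ⟨O n, -D n, ?_, fun l => ?_⟩
    · by_cases hD : D n = 0
      · exact Or.inl (hn hD)
      · exact Or.inr (neg_ne_zero.2 hD)
    · have := h n l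
      linarith

/-- half of the angle -/
lemma half_angle {α β : ℝ} (h : α ≠ 0 ∨ β ≠ 0) : ∃ ρ c s : ℝ, 0 < ρ ∧ c ^ 2 + s ^ 2 = 1 ∧
    α = ρ * (c ^ 2 - s ^ 2) ∧ β = ρ * (2 * (c * s)) := by
  obtain ⟨z, hz⟩ : ∃ z : ℂ, z = ⟨α, β⟩ := ⟨_, rfl⟩
  obtain ⟨t, ht⟩ : ∃ t, t = Complex.arg z / 2 := ⟨_, rfl⟩
  have h1 := Complex.norm_mul_cos_arg z
  have h2 := Complex.norm_mul_sin_arg z
  have h3 : Complex.arg z = 2 * t := by rw [ht]; ring
  rw [h3, Real.cos_two_mul'] at h1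
  rw [h3, Real.sin_two_mul] at h2
  refine ⟨‖z‖, Real.cos t, Real.sin t, ?_, Real.cos_sq_add_sin_sq t, ?_, ?_⟩
  · rw [norm_pos_iff]
    intro h0
    have e1 : z.re = 0 := by rw [h0]; rfl
    have e2 : z.im = 0 := by rw [h0]; rfl
    rw [hz] at e1 e2
    rcases h with h | h
    · exact h e1
    · exact h e2
  · rw [h1, hz]
  · rw [show 2 * (Real.cos t * Real.sin t) = 2 * Real.sin t * Real.cos t by ring, h2, hz]

variable {M : Type} [MetricSpace M] [CompactSpace M] [MeasurableSpace M] [BorelSpace M]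
  {μ : Measure M} [IsFiniteMeasure μ] {H : Type} [NormedAddCommGroup H] [InnerProductSpace ℝ H]
  {i : H →L[ℝ] Lp ℝ 2 μ} {a : H →L[ℝ] H →L[ℝ] ℝ} {b : C(M, ℝ) → H →L[ℝ] H →L[ℝ] ℝ} {m q : ℕ}

lemma kf_nv (k : H →L[ℝ] H →L[ℝ] ℝ) (E : ℕ → ℝ) (u : ℕ → H) (j l : ℕ) :
    k (nv E u j) (nv E u l) = (Real.sqrt (E j))⁻¹ * ((Real.sqrt (E l))⁻¹ * k (u j) (u l)) := by
  unfold nv
  simp only [map_smul, smul_apply, smul_eq_mul]
  ring

/-- the limit of the normalised vectors -/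
lemma nv_tend (hS : Sf μ i a) (hB : IsB μ i b) {φs : ℕ → C(M, ℝ)} {φ : C(M, ℝ)}
    (hφ : Tendsto φs atTop (𝓝 φ)) {us : ℕ → ℕ → H} {u : ℕ → H} {j : ℕ}
    (hj : 0 < Ev a (b φ) j) (hu : Tendsto (fun n => us n j) atTop (𝓝 (u j))) :
    Tendsto (fun n => nv (fun j => Ev a (b (φs n)) j) (us n) j) atTop
      (𝓝 (nv (fun j => Ev a (b φ) j) u j)) := by
  obtain ⟨hF, hcmp, -⟩ := forms μ i a b hS hB
  obtain ⟨-, -, -, hcont, -⟩ := tLip M μ H a b hF hcmp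
  unfold nv
  have h1 : Tendsto (fun n => (Real.sqrt (Ev a (b (φs n)) j))⁻¹) atTop
      (𝓝 (Real.sqrt (Ev a (b φ) j))⁻¹) := by
    refine Tendsto.inv₀ ?_ (Real.sqrt_pos.2 hj).ne'
    exact (Real.continuous_sqrt.tendsto _).comp (((hcont j).tendsto φ).comp hφ)
  exact h1.smul hu

lemma dd_tend (hS : Sf μ i a) (hB : IsB μ i b) (hmp : ∀ j, m ≤ j → ∀ φ, 0 < Ev a (b φ) j)
    (hmq : m ≤ q) {φs : ℕ → C(M, ℝ)} {φ : C(M, ℝ)}
    (hφ : Tendsto φs atTop (𝓝 φ)) {us : ℕ → ℕ → H} {u : ℕ → H}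
    (hu : ∀ j < q + 2, Tendsto (fun n => us n j) atTop (𝓝 (u j))) (h : C(M, ℝ)) :
    Tendsto (fun n => dd (kf b (h * ex (φs n))) (fun j => Ev a (b (φs n)) j) (us n) q) atTop
      (𝓝 (dd (kf b (h * ex φ)) (fun j => Ev a (b φ) j) u q)) ∧
    Tendsto (fun n => oo (kf b (h * ex (φs n))) (fun j => Ev a (b (φs n)) j) (us n) q) atTop
      (𝓝 (oo (kf b (h * ex φ)) (fun j => Ev a (b φ) j) u q)) := by
  have h1 := nv_tend (j := q) hS hB hφ (hmp q hmq φ) (hu q (by omega))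
  have h2 := nv_tend (j := q + 1) hS hB hφ (hmp (q + 1) (by omega) φ) (hu (q + 1) (by omega))
  have h3 := (ex_tend hφ).const_mul h
  unfold dd oo
  exact ⟨((kf_tend hS hB h3 h1 h1).sub (kf_tend hS hB h3 h2 h2)).div_const 2,
    kf_tend hS hB h3 h1 h2⟩

lemma dt_tend (hS : Sf μ i a) (hB : IsB μ i b) (hmp : ∀ j, m ≤ j → ∀ φ, 0 < Ev a (b φ) j)
    (hmq : m ≤ q) {φs : ℕ → C(M, ℝ)} {φ : C(M, ℝ)}
    (hφ : Tendsto φs atTop (𝓝 φ)) {us : ℕ → ℕ → H} {u : ℕ → H}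
    (hu : ∀ j < q + 2, Tendsto (fun n => us n j) atTop (𝓝 (u j))) (h k : C(M, ℝ)) :
    Tendsto (fun n => dt a b q h k (φs n) (us n)) atTop (𝓝 (dt a b q h k φ u)) := by
  obtain ⟨h1, h2⟩ := dd_tend hS hB hmp hmq hφ hu h
  obtain ⟨h3, h4⟩ := dd_tend hS hB hmp hmq hφ hu k
  unfold dt
  exact (h1.mul h4).sub (h3.mul h2)

lemma fc2_closed [CompleteSpace H] (hS : Sf μ i a) (hB : IsB μ i b)
    (hmp : ∀ j, m ≤ j → ∀ φ, 0 < Ev a (b φ) j) (hmq : m ≤ q) (h k : C(M, ℝ)) (c : ℝ) :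
    IsClosed (Fc2 a b q h k c) := by
  refine isSeqClosed_iff_isClosed.1 fun φs φ hmem hφ => ?_
  choose us hus hc using hmem
  obtain ⟨s, u, hs, hu, hlim⟩ := cl hS hB hφ hus
  refine ⟨u, hu, ?_⟩
  have h1 := (dt_tend hS hB hmp hmq (hφ.comp hs.tendsto_atTop) hlim h k).abs
  exact ge_of_tendsto' h1 fun n => hc (s n)

/-- **at a double eigenvalue some determinant does not vanish** -/
theorem dt_ne [CompleteSpace H] [Nonempty M] (hS : Sf μ i a) (hB : IsB μ i b)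
    (hmp : ∀ j, m ≤ j → ∀ φ, 0 < Ev a (b φ) j) (hmq : m ≤ q) (hns : NoSplit μ i a b)
    {hs : ℕ → C(M, ℝ)} (hsd : Dense (Submodule.span ℝ (range hs) : Set C(M, ℝ))) (φ : C(M, ℝ))
    (u : ℕ → H) (hu : Tp a b q φ u) (heq : Ev a (b φ) q = Ev a (b φ) (q + 1)) :
    ∃ n l, dt a b q (hs n) (hs l) φ u ≠ 0 := by
  by_contra hcon
  push Not at hcon
  obtain ⟨E, hE⟩ : ∃ E, E = Ev a (b φ) q := ⟨_, rfl⟩
  have hE0 : 0 < E := by rw [hE]; exact hmp q hmq φ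
  have hE1 : Ev a (b φ) (q + 1) = E := by rw [hE, heq]
  have hEi : (Real.sqrt E)⁻¹ * (Real.sqrt E)⁻¹ = E⁻¹ := by
    rw [← mul_inv, Real.mul_self_sqrt hE0.le]
  obtain ⟨α, β, hαβ, hlin⟩ := parallel
    (fun n => dd (kf b (hs n * ex φ)) (fun j => Ev a (b φ) j) u q)
    (fun n => oo (kf b (hs n * ex φ)) (fun j => Ev a (b φ) j) u q) (fun n l => hcon n l)
  have hdd : ∀ h : C(M, ℝ), dd (kf b (h * ex φ)) (fun j => Ev a (b φ) j) u q =
      E⁻¹ * ((kf b (h * ex φ) (u q) (u q) - kf b (h * ex φ) (u (q + 1)) (u (q + 1))) / 2) := by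
    intro h
    unfold dd
    rw [kf_nv, kf_nv]
    rw [hE1, ← hE, ← hEi]
    ring
  have hoo : ∀ h : C(M, ℝ), oo (kf b (h * ex φ)) (fun j => Ev a (b φ) j) u q =
      E⁻¹ * kf b (h * ex φ) (u q) (u (q + 1)) := by
    intro h
    unfold oo
    rw [kf_nv]
    rw [hE1, ← hE, ← hEi]
    ring
  obtain ⟨ρ, c, s, hρ, hcs, hα, hβ⟩ := half_angle hαβ
  obtain ⟨v, hv⟩ : ∃ v, v = (c + s) • u q + (s - c) • u (q + 1) := ⟨_, rfl⟩
  obtain ⟨w, hw⟩ : ∃ w, w = (c - s) • u q + (s + c) • u (q + 1) := ⟨_, rfl⟩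
  have hkey : ∀ n, kf b (hs n * ex φ) v w = 0 := by
    intro n
    have h1 := hlin n
    rw [hdd, hoo, hα, hβ] at h1
    have h2 : kf b (hs n * ex φ) v w = (c ^ 2 - s ^ 2) *
        (kf b (hs n * ex φ) (u q) (u q) - kf b (hs n * ex φ) (u (q + 1)) (u (q + 1))) +
        (2 * (c * s)) * (2 * kf b (hs n * ex φ) (u q) (u (q + 1))) := by
      rw [hv, hw]
      simp only [map_add, map_smul, add_apply, smul_apply, smul_eq_mul]
      rw [kf_symm hB _ (u (q + 1)) (u q)]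
      ring
    have h3 : kf b (hs n * ex φ) v w * (ρ * E⁻¹) = 0 := by
      rw [h2]
      linear_combination 2 * h1
    have h4 : ρ * E⁻¹ ≠ 0 := mul_ne_zero hρ.ne' (inv_ne_zero hE0.ne')
    exact (mul_eq_zero.1 h3).resolve_right h4
  have hi : ∀ᵐ x ∂μ, i v x * i w x = 0 := by
    have h1 := RSP.zero_of_total μ (od_integrable (i := i) φ v w) (range hs) hsd (by
      rintro _ ⟨n, rfl⟩
      rw [← hkey n, kf_apply hB]
      refine integral_congr_ae (Eventually.of_forall fun x => ?_)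
      simp only [Pool.Agent.Q233.GLV.ex, ContinuousMap.mul_apply, ContinuousMap.coe_mk]
      ring)
    filter_upwards [h1] with x hx
    rcases mul_eq_zero.1 hx with h | h
    · exact absurd h (Real.exp_pos _).ne'
    · exact h
  have hev : ∀ x y : ℝ, ∀ z, a (x • u q + y • u (q + 1)) z = E * b φ (x • u q + y • u (q + 1)) z := by
    intro x y z
    simp only [map_add, map_smul, add_apply, smul_apply, smul_eq_mul]
    rw [hu.eig q (by omega) z, hu.eig (q + 1) (by omega) z, hE1, ← hE]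
    ring
  have hbb : ∀ x y : ℝ, b φ (x • u q + y • u (q + 1)) (x • u q + y • u (q + 1)) = x ^ 2 + y ^ 2 := by
    intro x y
    simp only [map_add, map_smul, add_apply, smul_apply, smul_eq_mul]
    rw [hu.orth q q (by omega) (by omega), hu.orth (q + 1) (q + 1) (by omega) (by omega),
      hu.orth q (q + 1) (by omega) (by omega), hu.orth (q + 1) q (by omega) (by omega),
      if_pos rfl, if_pos rfl, if_neg (by omega), if_neg (by omega)]
    ring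
  have h3 := hns φ E v w (fun z => by rw [hv]; exact hev _ _ z) (fun z => by rw [hw]; exact hev _ _ z)
    hi
  rw [hv, hw, hbb, hbb] at h3
  rcases h3 with h | h <;> nlinarith

/-- **the covering of a compact set** -/
theorem cover2 [CompleteSpace H] (hS : Sf μ i a) (hB : IsB μ i b)
    (hmp : ∀ j, m ≤ j → ∀ φ, 0 < Ev a (b φ) j) (hmq : m ≤ q) (hs : ℕ → C(M, ℝ))
    (hne : ∀ φ u, Tp a b q φ u → Ev a (b φ) q = Ev a (b φ) (q + 1) →
      ∃ n l, dt a b q (hs n) (hs l) φ u ≠ 0)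
    {K : Set C(M, ℝ)} (hK : IsCompact K) :
    ∃ (N : ℕ) (c : ℝ), 0 < c ∧ ∀ φ ∈ K, iv a b q φ - iv a b (q + 1) φ ≤ c →
      ∃ n < N, ∃ l < N, φ ∈ Fc2 a b q (hs n) (hs l) c := by
  obtain ⟨hF, hcmp, -⟩ := forms μ i a b hS hB
  by_contra hcon
  push Not at hcon
  have h1 : ∀ n : ℕ, ∃ φ ∈ K, iv a b q φ - iv a b (q + 1) φ ≤ 1 / ((n : ℝ) + 1) ∧
      ∀ k < n, ∀ l < n, φ ∉ Fc2 a b q (hs k) (hs l) (1 / ((n : ℝ) + 1)) :=
    fun n => hcon n (1 / ((n : ℝ) + 1)) (by positivity)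
  choose φs hφK hφδ hφF using h1
  obtain ⟨φ, hφ, s, hs1, hs2⟩ := hK.tendsto_subseq hφK
  choose us hus using fun n => tp_ex hF q (φs (s n))
  obtain ⟨s', u, hs3, hu, hlim⟩ := cl hS hB hs2 hus
  have hφl : Tendsto (fun n => φs (s (s' n))) atTop (𝓝 φ) := hs2.comp hs3.tendsto_atTop
  have hinf : Tendsto (fun n : ℕ => 1 / (((s (s' n) : ℕ) : ℝ) + 1)) atTop (𝓝 0) :=
    tendsto_one_div_add_atTop_nhds_zero_nat.comp (hs1.tendsto_atTop.comp hs3.tendsto_atTop)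
  have hiv : iv a b q φ - iv a b (q + 1) φ ≤ 0 := by
    have h2 : Tendsto (fun n => iv a b q (φs (s (s' n))) - iv a b (q + 1) (φs (s (s' n)))) atTop
        (𝓝 (iv a b q φ - iv a b (q + 1) φ)) :=
      (((iv_cont hF μ hcmp hmp hmq).tendsto φ).comp hφl).sub
        (((iv_cont hF μ hcmp hmp (by omega : m ≤ q + 1)).tendsto φ).comp hφl)
    exact le_of_tendsto_of_tendsto' h2 hinf fun n => hφδ _
  have heq : Ev a (b φ) q = Ev a (b φ) (q + 1) := by
    obtain ⟨hnn, hmono, -, -, -⟩ := tLip M μ H a b hF hcmp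
    refine le_antisymm (hmono φ q (q + 1) (by omega)) ?_
    have h3 : (Ev a (b φ) q)⁻¹ ≤ (Ev a (b φ) (q + 1))⁻¹ := by
      have : iv a b q φ ≤ iv a b (q + 1) φ := by linarith
      exact this
    exact (inv_le_inv₀ (hmp q hmq φ) (hmp (q + 1) (by omega) φ)).1 h3
  obtain ⟨k, l, hkl⟩ := hne φ u hu heq
  have h2 := (dt_tend (a := a) (b := b) (q := q) hS hB hmp hmq hφl hlim (hs k) (hs l)).abs
  have h3 : |dt a b q (hs k) (hs l) φ u| ≤ 0 := by
    refine le_of_tendsto_of_tendsto h2 hinf ?_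
    have h4 : ∀ᶠ n in atTop, max k l < s (s' n) :=
      (hs1.tendsto_atTop.comp hs3.tendsto_atTop).eventually (eventually_gt_atTop _)
    filter_upwards [h4] with n hn
    by_contra hlt
    push Not at hlt
    exact hφF (s (s' n)) k ((le_max_left _ _).trans_lt hn) l ((le_max_right _ _).trans_lt hn)
      ⟨_, hus (s' n), hlt.le⟩
  exact hkl (abs_nonpos_iff.1 h3)

end Pool.Agent.H23.LR
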