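import Pool.Agent.H23.LR.Few
import Pool.Agent.H23.UC.Stm3

/-!
# Level repulsion: from compact sets to random series
-/

set_option autoImplicit false
set_option linter.unusedSectionVars false

open Set Filter Topology MeasureTheory
open scoped ENNReal
open Pool.Agent.Y262.QE Pool.Agent.Y264.QR Pool.Agent.Y319.QR Q101.QG
open Pool.Agent.Q233 Pool.Agent.Q233.GLV

noncomputable section

namespace Pool.Agent.H23.LR

variable {M : Type} [MetricSpace M] [CompactSpace M] [MeasurableSpace M] [BorelSpace M]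
  {μ : Measure M} {D : Data M} [Nonempty M]

lemma lev_mono (x : C(M, ℝ) → ℕ → ℝ)
    (hx : ∀ φ, ∃ (u : ℕ → M → ℝ) (lam : ℕ → ℝ),
      EigBasis (D.conf fun x => Real.exp (φ x)) (wm μ fun x => Real.exp (φ x)) u lam ∧
        ∀ j, x φ j = (wm μ fun y => Real.exp (φ y)).real univ * lam j / (4 * Real.pi))
    (φ : C(M, ℝ)) : Monotone (x φ) := by
  obtain ⟨u, lam, hu, hl⟩ := hx φ
  intro j k hjk
  rw [hl, hl]
  have := hu.mono hjk
  have h0 : 0 ≤ (wm μ fun y => Real.exp (φ y)).real univ := measureReal_nonneg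
  gcongr

/-- **the quadratic bound and the pair correlation measure** -/
theorem lr_pc (hcont : UC.StCont) (hucp : UC.StUCP) (hpl : UC.StPlane) (hcell : UC.StCell)
    [ConnectedSpace M] (hD : D.IsSurf μ)
    (hiso : ∀ p, ∀ z ∈ D.T p, ∃ c : ℝ, ∀ v, ‖D.A p z v‖ = c * ‖v‖)
    [MeasurableSpace C(M, ℝ)] [BorelSpace C(M, ℝ)] {P : Measure C(M, ℝ)} [IsProbabilityMeasure P]
    {S : Set C(M, ℝ)} (hS : Dense (Submodule.span ℝ S : Set C(M, ℝ)))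
    (hP : ∀ h ∈ S, ∀ k ∈ S, LinearIndependent ℝ ![h, k] → UC.BdDir2 P h k)
    {K : Set C(M, ℝ)} (hK : IsCompact K) (x : C(M, ℝ) → ℕ → ℝ)
    (hx : ∀ φ, ∃ (u : ℕ → M → ℝ) (lam : ℕ → ℝ),
      EigBasis (D.conf fun x => Real.exp (φ x)) (wm μ fun x => Real.exp (φ x)) u lam ∧
        ∀ j, x φ j = (wm μ fun y => Real.exp (φ y)).real univ * lam j / (4 * Real.pi)) :
    (∀ q, (∃ φ, 0 < x φ q) → ∃ C : ℝ, ∀ ε > 0,
      P (K ∩ {φ | x φ (q + 1) - x φ q ≤ ε}) ≤ ENNReal.ofReal (C * ε ^ 2)) ∧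
    ∀ T : ℝ, ∃ C : ℝ, ∀ ε > 0, ∫⁻ φ in K, (ENNReal.ofReal T⁻¹ • Measure.sum
      fun p : Prs T (x φ) => Measure.dirac (x φ p.1.1 - x φ p.1.2)) (Icc (-ε) ε) ∂P ≤
        ENNReal.ofReal (C * ε ^ 2) := by
  have h1 : ∀ q, (∃ φ, 0 < x φ q) → ∃ C : ℝ, ∀ ε > 0,
      P (K ∩ {φ | x φ (q + 1) - x φ q ≤ ε}) ≤ ENNReal.ofReal (C * ε ^ 2) := fun q hq =>
    lr_sq hcont hucp hpl hcell hD hiso hS hP hK x hx hq
  exact ⟨h1, fun T => pair_corr hK.isClosed.measurableSet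
    (fun j => (lev_c μ D hD x hx j).measurable) (lev_mono x hx) h1 (few hD x hx hK T)⟩

/-- **random series** -/
theorem lr_ser (hcont : UC.StCont) (hucp : UC.StUCP) (hpl : UC.StPlane) (hcell : UC.StCell)
    (hser : UC.StSeries) [ConnectedSpace M] (hD : D.IsSurf μ)
    (hiso : ∀ p, ∀ z ∈ D.T p, ∃ c : ℝ, ∀ v, ‖D.A p z v‖ = c * ‖v‖)
    [MeasurableSpace C(M, ℝ)] [BorelSpace C(M, ℝ)] {h : ℕ → C(M, ℝ)}
    (hS : Dense (Submodule.span ℝ (range h) : Set C(M, ℝ))) (hsum : Summable fun n => ‖h n‖)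
    {ν : ℕ → Measure ℝ} [∀ n, IsProbabilityMeasure (ν n)]
    (hν : ∀ n, ∃ c : ENNReal, c ≠ ⊤ ∧ ν n ≤ c • (volume : Measure ℝ))
    (hν1 : ∀ n, ν n (Icc (-1) 1)ᶜ = 0) (x : C(M, ℝ) → ℕ → ℝ)
    (hx : ∀ φ, ∃ (u : ℕ → M → ℝ) (lam : ℕ → ℝ),
      EigBasis (D.conf fun x => Real.exp (φ x)) (wm μ fun x => Real.exp (φ x)) u lam ∧
        ∀ j, x φ j = (wm μ fun y => Real.exp (φ y)).real univ * lam j / (4 * Real.pi)) :
    (∀ q, (∃ φ, 0 < x φ q) → ∃ C : ℝ, ∀ ε > 0,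
      ((Measure.infinitePi ν).map fun ξ : ℕ → ℝ => ∑' n, ξ n • h n)
        {φ | x φ (q + 1) - x φ q ≤ ε} ≤ ENNReal.ofReal (C * ε ^ 2)) ∧
    ∀ T : ℝ, ∃ C : ℝ, ∀ ε > 0, ∫⁻ φ, (ENNReal.ofReal T⁻¹ • Measure.sum
      fun p : Prs T (x φ) => Measure.dirac (x φ p.1.1 - x φ p.1.2)) (Icc (-ε) ε)
        ∂((Measure.infinitePi ν).map fun ξ : ℕ → ℝ => ∑' n, ξ n • h n) ≤
        ENNReal.ofReal (C * ε ^ 2) := by
  obtain ⟨hP, ⟨K, hK, hK0⟩, hd⟩ := hser C(M, ℝ) h ν hν hν1 hsum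
  obtain ⟨P, hPd⟩ : ∃ P, P = (Measure.infinitePi ν).map fun ξ : ℕ → ℝ => ∑' n, ξ n • h n :=
    ⟨_, rfl⟩
  rw [← hPd] at hP hK0 hd ⊢
  obtain ⟨g1, g2⟩ := lr_pc (P := P) hcont hucp hpl hcell hD hiso hS (by
    rintro _ ⟨n, rfl⟩ _ ⟨k, rfl⟩ hind
    refine hd n k fun hnk => ?_
    subst hnk
    rw [LinearIndependent.pair_iff] at hind
    have h1 := hind 1 (-1) (by rw [one_smul, neg_smul, one_smul, add_neg_cancel])
    exact one_ne_zero h1.1) hK x hx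
  have hres : P.restrict K = P := Measure.restrict_eq_self_of_ae_mem (by
    rw [ae_iff]
    exact hK0)
  refine ⟨fun q hq => ?_, fun T => ?_⟩
  · obtain ⟨C, hC⟩ := g1 q hq
    refine ⟨C, fun ε hε => le_trans (le_of_eq ?_) (hC ε hε)⟩
    have h1 : MeasurableSet {φ | x φ (q + 1) - x φ q ≤ ε} :=
      measurableSet_le ((lev_c μ D hD x hx (q + 1)).measurable.sub
        (lev_c μ D hD x hx q).measurable) measurable_const
    rw [inter_comm, ← Measure.restrict_apply h1, hres]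
  · obtain ⟨C, hC⟩ := g2 T
    refine ⟨C, fun ε hε => ?_⟩
    have := hC ε hε
    rwa [hres] at this

end Pool.Agent.H23.LR
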