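import Pool.Agent.H23.UC.Stm
import Pool.Graph.R_pool_sql_team_seeded_3997aac3.Q233.GLV.GTop2

/-!
# Level repulsion: eigenfunctions in an isothermal chart
-/

set_option autoImplicit false
set_option linter.unusedSectionVars false

open Set Filter Topology MeasureTheory
open scoped ContDiff ENNReal
open Pool.Agent.Y262.QE Pool.Agent.Y264.QR Q101.QG
open Pool.Agent.Q233 Pool.Agent.Q233.GLV

noncomputable section

namespace Pool.Agent.H23.LR

variable {M : Type} [MetricSpace M] [CompactSpace M] [MeasurableSpace M] [BorelSpace M]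
  {μ : Measure M} {D : Data M}

/-- the gradient in the chart -/
def cg (D : Data M) (p : Fin D.N) (F : M → ℝ) (z : ℂ) : ℂ :=
  ⟨fderiv ℝ (fun z => F (D.ψ p z)) z 1, fderiv ℝ (fun z => F (D.ψ p z)) z Complex.I⟩

lemma cg_cont (S : D.IsSurf μ) {p : Fin D.N} {F : M → ℝ} (hF : D.C1 F) :
    ContinuousOn (cg D p F) (D.T p) := by
  have h1 : ContinuousOn (fderiv ℝ fun z => F (D.ψ p z)) (D.T p) :=
    (hF p).continuousOn_fderiv_of_isOpen (S.openT p) le_rfl
  have h2 : Continuous fun L : ℂ →L[ℝ] ℝ => (⟨L 1, L Complex.I⟩ : ℂ) := by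
    have h3 : (fun L : ℂ →L[ℝ] ℝ => (⟨L 1, L Complex.I⟩ : ℂ)) =
        fun L => Complex.equivRealProdCLM.symm (L 1, L Complex.I) := by
      funext L
      apply Complex.ext <;> simp
    rw [h3]
    fun_prop
  exact h2.comp_continuousOn h1

lemma cg_sq (S : D.IsSurf μ) {p : Fin D.N}
    (hc : ∀ z ∈ D.T p, ∃ c : ℝ, ∀ v, ‖D.A p z v‖ = c * ‖v‖) {F G : M → ℝ}
    (hF : D.C1 F) (hG : D.C1 G) {z : ℂ} (hz : z ∈ D.T p) :
    ‖D.gr F (D.ψ p z) - D.gr G (D.ψ p z)‖ ^ 2 * |(D.A p z).det| =
      ‖cg D p F z - cg D p G z‖ ^ 2 := by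
  obtain ⟨-, -, h3⟩ := Pool.Agent.Y708.QE.gradient M μ D S
  obtain ⟨h4, h5⟩ := h3 F G hF hG 1 (-1)
  have h6 := gr_K S (K := D.T p) (Subset.refl _) hc h4 (fun _ _ => rfl) h4 hz
  have h7 : D.gr F (D.ψ p z) - D.gr G (D.ψ p z) =
      D.gr (fun x => 1 * F x + -1 * G x) (D.ψ p z) := by
    rw [h5, one_smul, neg_smul, one_smul, sub_eq_add_neg]
  have hd : ∀ {F : M → ℝ}, D.C1 F → DifferentiableAt ℝ (fun z => F (D.ψ p z)) z := fun {F} hF =>
    ((hF p).differentiableOn one_ne_zero).differentiableAt ((S.openT p).mem_nhds hz)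
  have h8 : fderiv ℝ (fun z => 1 * F (D.ψ p z) + -1 * G (D.ψ p z)) z =
      fderiv ℝ (fun z => F (D.ψ p z)) z - fderiv ℝ (fun z => G (D.ψ p z)) z := by
    have h9 : (fun z => 1 * F (D.ψ p z) + -1 * G (D.ψ p z)) =
        (fun z => F (D.ψ p z)) - fun z => G (D.ψ p z) := by
      funext w
      simp only [Pi.sub_apply]
      ring
    rw [h9, fderiv_sub (hd hF) (hd hG)]
  rw [h7, ← real_inner_self_eq_norm_sq, h6, h8, ← Complex.normSq_eq_norm_sq, Complex.normSq_apply]
  simp only [cg, Complex.sub_re, Complex.sub_im, sub_apply]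

lemma cg_lint (S : D.IsSurf μ) {p : Fin D.N}
    (hc : ∀ z ∈ D.T p, ∃ c : ℝ, ∀ v, ‖D.A p z v‖ = c * ‖v‖) {F G : M → ℝ}
    (hF : D.C1 F) (hG : D.C1 G) :
    eLpNorm (fun z => cg D p F z - cg D p G z) 2 (volume.restrict (D.T p)) ≤
      eLpNorm (fun x => D.gr F x - D.gr G x) 2 μ := by
  obtain ⟨h1, -, -⟩ := Pool.Agent.Y708.QE.gradient M μ D S
  have hm : Measurable fun x => D.gr F x - D.gr G x := (h1 F hF).2.1.sub (h1 G hG).2.1
  rw [eLpNorm_eq_lintegral_rpow_enorm_toReal two_ne_zero ENNReal.ofNat_ne_top,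
    eLpNorm_eq_lintegral_rpow_enorm_toReal two_ne_zero ENNReal.ofNat_ne_top]
  refine ENNReal.rpow_le_rpow ?_ (by norm_num)
  have h2 := (Pool.Agent.Y960.QE.int_chart M μ D S p).1
    (fun x => ‖D.gr F x - D.gr G x‖ₑ ^ (2 : ℝ≥0∞).toReal) (hm.enorm.pow_const _)
  refine le_trans (le_of_eq ?_) (setLIntegral_le_lintegral (D.U p) _)
  rw [h2]
  refine setLIntegral_congr_fun (S.openT p).measurableSet fun z hz => ?_
  have h3 : ∀ w : ℂ, ‖w‖ₑ ^ (2 : ℝ≥0∞).toReal = ENNReal.ofReal (‖w‖ ^ 2) := by
    intro w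
    rw [ENNReal.toReal_ofNat, ← ofReal_norm_eq_enorm, ENNReal.ofReal_pow (norm_nonneg _)]
    norm_cast
  rw [h3, h3, ← cg_sq S hc hF hG hz, ENNReal.ofReal_mul (by positivity)]

lemma gr_zero (S : D.IsSurf μ) (x : M) : D.gr (fun _ => (0 : ℝ)) x = 0 := by
  obtain ⟨-, -, h3⟩ := Pool.Agent.Y708.QE.gradient M μ D S
  have h0 : D.C1 fun _ => (0 : ℝ) := fun _ => contDiffOn_const
  have h := (h3 _ _ h0 h0 1 1).2 x
  simp only [mul_zero, add_zero, one_smul] at h
  exact left_eq_add.1 h

lemma cg_mem (S : D.IsSurf μ) {p : Fin D.N}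
    (hc : ∀ z ∈ D.T p, ∃ c : ℝ, ∀ v, ‖D.A p z v‖ = c * ‖v‖) [IsFiniteMeasure μ] {F : M → ℝ}
    (hF : D.C1 F) : MemLp (cg D p F) 2 (volume.restrict (D.T p)) := by
  refine ⟨(cg_cont S hF).aestronglyMeasurable (S.openT p).measurableSet, ?_⟩
  have h0 : D.C1 fun _ => (0 : ℝ) := fun _ => contDiffOn_const
  have h1 := cg_lint S hc hF h0
  obtain ⟨h2, -, -⟩ := Pool.Agent.Y708.QE.gradient M μ D S
  have e1 : (fun z => cg D p F z - cg D p (fun _ => 0) z) = cg D p F := by
    funext z
    have : cg D p (fun _ => (0 : ℝ)) z = 0 := by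
      unfold cg
      simp only [fderiv_fun_const, Pi.zero_apply, zero_apply]
      rfl
    rw [this, sub_zero]
  have e2 : (fun x => D.gr F x - D.gr (fun _ => 0) x) = D.gr F := by
    funext x
    rw [gr_zero S, sub_zero]
  rw [e1, e2] at h1
  refine h1.trans_lt ?_
  obtain ⟨-, hm, C, hC⟩ := h2 F hF
  exact (MemLp.of_bound hm.aestronglyMeasurable C (Eventually.of_forall hC)).2

/-- the integral of a function of the chart -/
lemma int_lift (S : D.IsSurf μ) {p : Fin D.N} {K : Set ℂ} (hK : IsCompact K) (hs : K ⊆ D.T p)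
    {w : ℂ → ℝ} (hw : ContinuousOn w (D.T p)) (h0 : ∀ z, z ∉ K → w z = 0) :
    ∃ h : C(M, ℝ), ∀ F : M → ℝ, AEStronglyMeasurable F μ →
      ∫ x, F x * h x ∂μ = ∫ z, F (D.ψ p z) * w z := by
  have hdet : ContinuousOn (fun z => |(D.A p z).det|) (D.T p) := Pool.Agent.Y960.QE.contDet S p
  have hpos : ∀ z ∈ D.T p, 0 < |(D.A p z).det| := fun z hz => abs_pos.2 (S.det p z hz)
  obtain ⟨h, h1, h2⟩ := cont_lift S hK hs (w := fun z => w z / |(D.A p z).det|)
    (hw.div hdet fun z hz => (hpos z hz).ne') (fun z hz => by rw [h0 z hz, zero_div])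
  refine ⟨h, fun F hF => ?_⟩
  have h5 := int_KK S hK hs (g := fun x => F x * h x)
    (hF.mul h.continuous.aestronglyMeasurable) (fun x hx => by
    rw [h2 x hx, mul_zero])
  rw [h5]
  have h3 : ∫ z, F (D.ψ p z) * w z = ∫ z in K, F (D.ψ p z) * w z := by
    refine (setIntegral_eq_integral_of_forall_compl_eq_zero fun z hz => ?_).symm
    rw [h0 z hz, mul_zero]
  rw [h3]
  refine setIntegral_congr_fun hK.isClosed.measurableSet fun z hz => ?_
  rw [h1 z (hs hz)]
  have h4 := (hpos z (hs hz)).ne'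
  field_simp

/-- integration by parts in the chart -/
lemma ibp (S : D.IsSurf μ) {p : Fin D.N} {F : M → ℝ} (hF : D.C1 F) {η : ℂ → ℝ}
    (hη : ContDiff ℝ ∞ η) (hc : HasCompactSupport η) (hs : tsupport η ⊆ D.T p) (v : ℂ) :
    ∫ z, F (D.ψ p z) * fderiv ℝ η z v = -∫ z, inner ℝ (cg D p F z) v * η z := by
  obtain ⟨f, hf⟩ : ∃ f : ℂ → ℝ, f = fun z => F (D.ψ p z) := ⟨_, rfl⟩
  obtain ⟨P, hP⟩ : ∃ P : ℂ → ℝ, P = fun z => f z * η z := ⟨_, rfl⟩
  have hfT : ContDiffOn ℝ 1 f (D.T p) := by rw [hf]; exact hF p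
  have hη1 : ContDiff ℝ 1 η := hη.of_le (by exact_mod_cast le_top)
  have hoff : ∀ z, z ∉ tsupport η → P =ᶠ[𝓝 z] fun _ => 0 := by
    intro z hz
    filter_upwards [(isClosed_tsupport η).isOpen_compl.mem_nhds hz] with w hw
    rw [hP]
    simp only
    rw [image_eq_zero_of_notMem_tsupport hw, mul_zero]
  have hPc : ContDiff ℝ 1 P := by
    rw [contDiff_iff_contDiffAt]
    intro z
    by_cases hz : z ∈ D.T p
    · rw [hP]
      exact ((hfT z hz).contDiffAt ((S.openT p).mem_nhds hz)).mul hη1.contDiffAt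
    · exact contDiffAt_const.congr_of_eventuallyEq (hoff z fun h => hz (hs h))
  have hPs : HasCompactSupport P := by
    rw [hP]
    exact hc.mul_left
  have hder : ∀ z, fderiv ℝ P z v = f z * fderiv ℝ η z v + inner ℝ (cg D p F z) v * η z := by
    intro z
    by_cases hz : z ∈ D.T p
    · have h1 : DifferentiableAt ℝ f z :=
        (hfT.differentiableOn one_ne_zero).differentiableAt ((S.openT p).mem_nhds hz)
      have h2 : DifferentiableAt ℝ η z := (hη1.differentiable one_ne_zero) z
      rw [hP, fderiv_fun_mul h1 h2]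
      simp only [add_apply, smul_apply, smul_eq_mul]
      have h3 : fderiv ℝ f z v = inner ℝ (cg D p F z) v := by
        have h4 : v = v.re • (1 : ℂ) + v.im • Complex.I := by
          apply Complex.ext <;> simp
        conv_lhs => rw [h4]
        rw [map_add, map_smul, map_smul, Complex.inner]
        simp only [cg, smul_eq_mul, Complex.mul_re, Complex.conj_re, Complex.conj_im, ← hf]
        ring
      rw [h3]
      ring
    · have hz' : z ∉ tsupport η := fun h => hz (hs h)
      have h1 : fderiv ℝ P z = 0 := by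
        rw [(hoff z hz').fderiv_eq]
        simp
      have h2 : η z = 0 := image_eq_zero_of_notMem_tsupport hz'
      have h3 : fderiv ℝ η z = 0 := by
        by_contra hne
        exact hz' (support_fderiv_subset ℝ hne)
      rw [h1, h2, h3]
      simp
  have hPi : Integrable (fun z => fderiv ℝ P z v) := by
    refine Continuous.integrable_of_hasCompactSupport ?_ ?_
    · exact (hPc.continuous_fderiv one_ne_zero).clm_apply continuous_const
    · exact (hPs.fderiv ℝ).comp_left (g := fun L : ℂ →L[ℝ] ℝ => L v) rfl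
  have h1 : ∫ z, fderiv ℝ P z v = 0 := by
    have h2 := integral_mul_fderiv_eq_neg_fderiv_mul_of_integrable (μ := volume) (f := P)
      (g := fun _ : ℂ => (1 : ℝ)) (v := v) (by simpa using hPi) (by simp)
      (by simpa using hPc.continuous.integrable_of_hasCompactSupport hPs)
      (fun x _ => (hPc.differentiable one_ne_zero) x) (fun x _ => differentiableAt_const _)
    simp only [fderiv_fun_const, Pi.zero_apply, zero_apply, mul_zero, integral_zero, mul_one] at h2
    linarith
  have hA : Integrable fun z => inner ℝ (cg D p F z) v * η z := by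
    have h2 : ∀ z, inner ℝ (cg D p F z) v * η z = fderiv ℝ P z v - f z * fderiv ℝ η z v :=
      fun z => by rw [hder]; ring
    simp only [h2]
    refine hPi.sub ?_
    refine Continuous.integrable_of_hasCompactSupport ?_ ?_
    · rw [continuous_iff_continuousAt]
      intro z
      by_cases hz : z ∈ D.T p
      · refine ContinuousAt.mul (hfT.continuousOn.continuousAt ((S.openT p).mem_nhds hz)) ?_
        exact ((hη1.continuous_fderiv one_ne_zero).clm_apply continuous_const).continuousAt
      · have hz' : z ∉ tsupport η := fun h => hz (hs h)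
        refine (continuousAt_const (y := (0 : ℝ))).congr ?_
        filter_upwards [(isClosed_tsupport η).isOpen_compl.mem_nhds hz'] with w hw
        have h3 : fderiv ℝ η w = 0 := by
          by_contra hne
          exact hw (support_fderiv_subset ℝ hne)
        rw [h3]
        simp
    · exact ((hc.fderiv ℝ).comp_left (g := fun L : ℂ →L[ℝ] ℝ => L v) rfl).mul_left
  have hB : Integrable fun z => f z * fderiv ℝ η z v := by
    have h2 : ∀ z, f z * fderiv ℝ η z v = fderiv ℝ P z v - inner ℝ (cg D p F z) v * η z :=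
      fun z => by rw [hder]; ring
    simp only [h2]
    exact hPi.sub hA
  simp only [hder] at h1
  rw [integral_add hB hA] at h1
  rw [hf] at h1
  simp only at h1
  linarith

/-- **eigenfunctions in a chart** -/
theorem weak_of_ev [IsFiniteMeasure μ] (S : D.IsSurf μ) {i : HF D μ →L[ℝ] Lp ℝ 2 μ}
    {a : HF D μ →L[ℝ] HF D μ →L[ℝ] ℝ} {b : C(M, ℝ) → HF D μ →L[ℝ] HF D μ →L[ℝ] ℝ}
    (hi : ∀ v, i v = v.1.fst) (ha : ∀ u v, a u v = inner ℝ u.1.snd v.1.snd) (hB : IsB μ i b)
    {p : Fin D.N} (hc : ∀ z ∈ D.T p, ∃ c : ℝ, ∀ v, ‖D.A p z v‖ = c * ‖v‖) {φ : C(M, ℝ)} {E : ℝ}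
    {v : HF D μ} (hv : ∀ w, a v w = E * b φ v w) :
    ∃ g : ℂ → ℂ, UC.Weak (D.T p) (fun z => (i v : M → ℝ) (D.ψ p z)) g
      (fun z => E * (Real.exp (φ (D.ψ p z)) * |(D.A p z).det|) * (i v : M → ℝ) (D.ψ p z)) := by
  obtain ⟨hden1, hden2⟩ := tDenF M μ D S
  obtain ⟨F, f, hf, hlim⟩ := hden2 v.1 v.2
  obtain ⟨hgr, -, -⟩ := Pool.Agent.Y708.QE.gradient M μ D S
  have hTm : MeasurableSet (D.T p) := (S.openT p).measurableSet
  have hfst : Tendsto (fun k => (f k).fst) atTop (𝓝 (i v)) := by
    rw [hi]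
    exact (WithLp.fstL 2 ℝ (Lp ℝ 2 μ) (Lp ℂ 2 μ)).continuous.tendsto _ |>.comp hlim
  have hsnd : Tendsto (fun k => (f k).snd) atTop (𝓝 v.1.snd) := snd_tend hlim
  -- the gradients converge in the chart
  obtain ⟨G, hG⟩ : ∃ G : ℕ → Lp ℂ 2 (volume.restrict (D.T p)),
      ∀ k, G k = (cg_mem S hc (hf k).1).toLp _ := ⟨_, fun k => rfl⟩
  have hGd : ∀ k l, dist (G k) (G l) ≤ dist (f k).snd (f l).snd := by
    intro k l
    rw [hG, hG, dist_eq_norm, dist_eq_norm, ← MemLp.toLp_sub, Lp.norm_toLp, Lp.norm_def]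
    refine ENNReal.toReal_mono (Lp.eLpNorm_ne_top _) ?_
    refine (cg_lint S hc (hf k).1 (hf l).1).trans (le_of_eq ?_)
    refine eLpNorm_congr_ae ?_
    filter_upwards [(hf k).2.2.2, (hf l).2.2.2, Lp.coeFn_sub (f k).snd (f l).snd] with x h1 h2 h3
    rw [h3, Pi.sub_apply, h1, h2]
  have hGc : CauchySeq G := by
    have h1 := hsnd.cauchySeq
    rw [Metric.cauchySeq_iff'] at h1 ⊢
    intro ε hε
    obtain ⟨N, hN⟩ := h1 ε hε
    exact ⟨N, fun n hn => (hGd n N).trans_lt (hN n hn)⟩
  obtain ⟨g, hg⟩ := cauchySeq_tendsto_of_complete hGc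
  have hGcg : ∀ k, (G k : ℂ → ℂ) =ᵐ[volume.restrict (D.T p)] cg D p (F k) := by
    intro k
    rw [hG]
    exact (cg_mem S hc (hf k).1).coeFn_toLp
  -- pairings with bounded fields
  have hpair : ∀ X : ℂ → ℂ, MemLp X 2 (volume.restrict (D.T p)) →
      Tendsto (fun k => ∫ z in D.T p, inner ℝ (cg D p (F k) z) (X z)) atTop
        (𝓝 (∫ z in D.T p, inner ℝ (g z) (X z))) := by
    intro X hX
    have h1 : Tendsto (fun k => inner ℝ (G k) (hX.toLp X)) atTop (𝓝 (inner ℝ g (hX.toLp X))) :=
      hg.inner tendsto_const_nhds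
    have h2 : ∀ Y : Lp ℂ 2 (volume.restrict (D.T p)), inner ℝ Y (hX.toLp X) =
        ∫ z in D.T p, inner ℝ ((Y : ℂ → ℂ) z) (X z) := by
      intro Y
      rw [L2.inner_def]
      refine integral_congr_ae ?_
      filter_upwards [hX.coeFn_toLp] with z hz
      rw [hz]
    simp only [h2] at h1
    refine h1.congr fun k => ?_
    refine integral_congr_ae ?_
    filter_upwards [hGcg k] with z hz
    rw [hz]
  -- pairings of the functions
  have hfun : ∀ h : C(M, ℝ), Tendsto (fun k => ∫ x, F k x * h x ∂μ) atTop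
      (𝓝 (∫ x, (i v : M → ℝ) x * h x ∂μ)) := by
    intro h
    have hh : MemLp (fun x => h x) 2 μ :=
      MemLp.of_bound h.continuous.aestronglyMeasurable ‖h‖
        (Eventually.of_forall fun x => h.norm_coe_le_norm x)
    have h1 : Tendsto (fun k => inner ℝ (f k).fst (hh.toLp _)) atTop
        (𝓝 (inner ℝ (i v) (hh.toLp _))) := hfst.inner tendsto_const_nhds
    have h2 : ∀ Y : Lp ℝ 2 μ, inner ℝ Y (hh.toLp _) = ∫ x, (Y : M → ℝ) x * h x ∂μ := by
      intro Y
      rw [L2.inner_def]
      refine integral_congr_ae ?_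
      filter_upwards [hh.coeFn_toLp] with z hz
      rw [hz]
      simp only [RCLike.inner_apply, conj_trivial]
      ring
    simp only [h2] at h1
    refine h1.congr fun k => ?_
    refine integral_congr_ae ?_
    filter_upwards [(hf k).2.2.1] with z hz
    rw [hz]
  have hivm : AEStronglyMeasurable (i v : M → ℝ) μ := Lp.aestronglyMeasurable _
  have hdet : ContinuousOn (fun z => |(D.A p z).det|) (D.T p) := Pool.Agent.Y960.QE.contDet S p
  have hψ : ContinuousOn (D.ψ p) (D.T p) := S.contψ p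
  have hmU : ∀ K ⊆ D.T p, IsCompact K →
      MemLp (fun z => (i v : M → ℝ) (D.ψ p z)) 2 (volume.restrict K) := by
    intro K hK hKc
    have hsm : StronglyMeasurable (i v : M → ℝ) := Lp.stronglyMeasurable _
    have h1 := integ_K S hKc hK (g := fun x => ((i v : M → ℝ) x) ^ 2)
      (hsm.pow 2) (Lp.memLp (i v)).integrable_sq
    have hψm : AEMeasurable (D.ψ p) (volume.restrict K) :=
      (hψ.mono hK).aemeasurable hKc.isClosed.measurableSet
    exact (memLp_two_iff_integrable_sq
      (hsm.measurable.comp_aemeasurable hψm).aestronglyMeasurable).2 h1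
  refine ⟨g, ?_⟩
  constructor
  · exact hmU
  · intro K hK _
    exact (Lp.memLp g).mono_measure (Measure.restrict_mono hK le_rfl)
  · intro K hK hKc
    have hwc : ContinuousOn (fun z => E * (Real.exp (φ (D.ψ p z)) * |(D.A p z).det|)) (D.T p) :=
      continuousOn_const.mul ((Real.continuous_exp.comp_continuousOn
        (φ.continuous.comp_continuousOn hψ)).mul hdet)
    obtain ⟨C, hC⟩ := hKc.exists_bound_of_continuousOn (hwc.mono hK)
    refine MemLp.of_le_mul (c := C) (hmU K hK hKc) ?_ ?_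
    · exact ((hwc.mono hK).aestronglyMeasurable hKc.isClosed.measurableSet).mul
        (hmU K hK hKc).1
    · refine (ae_restrict_iff' hKc.isClosed.measurableSet).2 (Eventually.of_forall fun z hz => ?_)
      rw [norm_mul]
      exact mul_le_mul_of_nonneg_right (hC z hz) (norm_nonneg _)
  · -- the weak gradient
    intro η hη hηc hηs w
    have hη1 : ContDiff ℝ 1 η := hη.of_le (by exact_mod_cast le_top)
    have hoffd : ∀ z, z ∉ tsupport η → fderiv ℝ η z = 0 := fun z hz => by
      by_contra hne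
      exact hz (support_fderiv_subset ℝ hne)
    obtain ⟨h, hh⟩ := int_lift S hηc hηs (w := fun z => fderiv ℝ η z w)
      ((hη1.continuous_fderiv one_ne_zero).clm_apply continuous_const).continuousOn
      (fun z hz => by rw [hoffd z hz]; rfl)
    have h1 := hfun h
    have h2 : ∀ k, ∫ x, F k x * h x ∂μ =
        -∫ z in D.T p, inner ℝ (cg D p (F k) z) ((η z : ℝ) • w) := by
      intro k
      have hFc : Continuous (F k) := (hgr (F k) (hf k).1).1
      rw [hh (F k) hFc.aestronglyMeasurable, ibp S (hf k).1 hη hηc hηs w]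
      congr 1
      have h3 : ∫ z, inner ℝ (cg D p (F k) z) w * η z =
          ∫ z in D.T p, inner ℝ (cg D p (F k) z) w * η z := by
        refine (setIntegral_eq_integral_of_forall_compl_eq_zero fun z hz => ?_).symm
        rw [image_eq_zero_of_notMem_tsupport fun h => hz (hηs h), mul_zero]
      rw [h3]
      refine integral_congr_ae (Eventually.of_forall fun z => ?_)
      simp only [inner_smul_right]
      ring
    simp only [h2] at h1
    have hX : MemLp (fun z => (η z : ℝ) • w) 2 (volume.restrict (D.T p)) := by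
      have h3 : Continuous fun z => (η z : ℝ) • w := hη.continuous.smul continuous_const
      have h4 : HasCompactSupport fun z => (η z : ℝ) • w := hηc.smul_right
      exact (h3.memLp_of_hasCompactSupport h4).restrict _
    have h3 := (hpair _ hX).neg
    have h4 := tendsto_nhds_unique h1 h3
    rw [hh _ hivm] at h4
    rw [h4]
    congr 1
    have h5 : ∫ z, inner ℝ (g z) w * η z = ∫ z in D.T p, inner ℝ (g z) w * η z := by
      refine (setIntegral_eq_integral_of_forall_compl_eq_zero fun z hz => ?_).symm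
      rw [image_eq_zero_of_notMem_tsupport fun h => hz (hηs h), mul_zero]
    rw [h5]
    refine integral_congr_ae (Eventually.of_forall fun z => ?_)
    simp only [inner_smul_right]
    ring
  · -- the weak Laplacian
    intro η hη hηc hηs
    have hη1 : ContDiff ℝ 1 η := hη.of_le (by exact_mod_cast le_top)
    have hoffd : ∀ z, z ∉ tsupport η → fderiv ℝ η z = 0 := fun z hz => by
      by_contra hne
      exact hz (support_fderiv_subset ℝ hne)
    obtain ⟨Y, hY1, hY2, hY3⟩ := lift_K S hηc hηs hη1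
      (fun z hz => image_eq_zero_of_notMem_tsupport hz)
    obtain ⟨y, hyH, hy1, hy2⟩ := hden1 Y hY1
    obtain ⟨X, hX⟩ : ∃ X : ℂ → ℂ, X = fun z => ⟨fderiv ℝ η z 1, fderiv ℝ η z Complex.I⟩ := ⟨_, rfl⟩
    have hXc : Continuous X := by
      have h3 : X = fun z => Complex.equivRealProdCLM.symm (fderiv ℝ η z 1,
          fderiv ℝ η z Complex.I) := by
        rw [hX]
        funext z
        apply Complex.ext <;> simp
      rw [h3]
      exact Complex.equivRealProdCLM.symm.continuous.comp
        (((hη1.continuous_fderiv one_ne_zero).clm_apply continuous_const).prodMk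
          ((hη1.continuous_fderiv one_ne_zero).clm_apply continuous_const))
    have hX0 : ∀ z, z ∉ tsupport η → X z = 0 := by
      intro z hz
      rw [hX]
      simp only [hoffd z hz, zero_apply]
      rfl
    have hXs : HasCompactSupport X := hηc.mono' fun z hz => by
      by_contra hcon
      exact hz (hX0 z hcon)
    have hXm : MemLp X 2 (volume.restrict (D.T p)) := (hXc.memLp_of_hasCompactSupport hXs).restrict _
    have hin : ∀ (c z : ℂ), inner ℝ c (X z) = fderiv ℝ η z c := by
      intro c z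
      have h4 : c = c.re • (1 : ℂ) + c.im • Complex.I := by
        apply Complex.ext <;> simp
      conv_rhs => rw [h4]
      rw [map_add, map_smul, map_smul, Complex.inner, hX]
      simp only [smul_eq_mul, Complex.mul_re, Complex.conj_re, Complex.conj_im]
      ring
    have h1 := hpair X hXm
    have h2 : ∀ k, ∫ z in D.T p, inner ℝ (cg D p (F k) z) (X z) = inner ℝ (f k).snd y.snd := by
      intro k
      have h3 := dir_K S hηc hηs (fun z hz => hc z (hηs hz)) hY1 hY2 hY3 (hf k).1
        (g := fun _ => (1 : ℝ)) aestronglyMeasurable_const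
      rw [L2.inner_def]
      have h4 : ∫ x, inner ℝ ((f k).snd x) (y.snd x) ∂μ =
          ∫ x, (1 : ℝ) * inner ℝ (D.gr Y x) (D.gr (F k) x) ∂μ := by
        refine integral_congr_ae ?_
        filter_upwards [(hf k).2.2.2, hy2] with x h5 h6
        rw [h5, h6, one_mul, real_inner_comm]
      rw [h4, h3]
      have h5 : ∫ z in D.T p, inner ℝ (cg D p (F k) z) (X z) =
          ∫ z in tsupport η, inner ℝ (cg D p (F k) z) (X z) := by
        refine (setIntegral_eq_of_subset_of_forall_diff_eq_zero hTm hηs fun z hz => ?_)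
        rw [hX0 z hz.2, inner_zero_right]
      rw [h5]
      refine setIntegral_congr_fun (isClosed_tsupport η).measurableSet fun z hz => ?_
      rw [hX, Complex.inner, one_mul]
      simp only [cg, Complex.mul_re, Complex.conj_re, Complex.conj_im]
      ring
    simp only [h2] at h1
    have h3 : Tendsto (fun k => inner ℝ (f k).snd y.snd) atTop (𝓝 (inner ℝ v.1.snd y.snd)) :=
      hsnd.inner tendsto_const_nhds
    have h4 := tendsto_nhds_unique h1 h3
    have h5 : ∫ z, fderiv ℝ η z (g z) = ∫ z in D.T p, inner ℝ (g z) (X z) := by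
      have h6 : ∫ z, fderiv ℝ η z (g z) = ∫ z in D.T p, fderiv ℝ η z (g z) := by
        refine (setIntegral_eq_integral_of_forall_compl_eq_zero fun z hz => ?_).symm
        rw [hoffd z fun h => hz (hηs h)]
        rfl
      rw [h6]
      refine integral_congr_ae (Eventually.of_forall fun z => ?_)
      exact (hin (g z) z).symm
    rw [h5, h4]
    have h6 := hv ⟨y, hyH⟩
    rw [ha, hB] at h6
    rw [h6, ← integral_const_mul]
    have h7 : ∫ x, E * (Real.exp (φ x) * ((i v : M → ℝ) x * (i ⟨y, hyH⟩ : M → ℝ) x)) ∂μ =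
        ∫ x, E * (Real.exp (φ x) * ((i v : M → ℝ) x * Y x)) ∂μ := by
      refine integral_congr_ae ?_
      have h8 : (i ⟨y, hyH⟩ : M → ℝ) =ᵐ[μ] Y := by
        rw [hi]
        exact hy1
      filter_upwards [h8] with x hx
      rw [hx]
    rw [h7]
    have hYc : Continuous Y := (hgr Y hY1).1
    have h9 := int_KK S hηc hηs (g := fun x => E * (Real.exp (φ x) * ((i v : M → ℝ) x * Y x)))
      (((Real.continuous_exp.comp φ.continuous).aestronglyMeasurable.mul
        (hivm.mul hYc.aestronglyMeasurable)).const_mul E) (fun x hx => by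
        rw [hY3 x hx, mul_zero, mul_zero, mul_zero])
    rw [h9]
    have h10 : ∫ z, E * (Real.exp (φ (D.ψ p z)) * |(D.A p z).det|) * (i v : M → ℝ) (D.ψ p z) * η z =
        ∫ z in tsupport η, E * (Real.exp (φ (D.ψ p z)) * |(D.A p z).det|) *
          (i v : M → ℝ) (D.ψ p z) * η z := by
      refine (setIntegral_eq_integral_of_forall_compl_eq_zero fun z hz => ?_).symm
      rw [image_eq_zero_of_notMem_tsupport hz, mul_zero]
    rw [h10]
    refine setIntegral_congr_fun (isClosed_tsupport η).measurableSet fun z hz => ?_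
    rw [hY2 z (hηs hz)]
    ring

end Pool.Agent.H23.LR
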