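import Pool.Agent.H23.LR.Cpt

/-!
# Level repulsion: cones
-/

set_option autoImplicit false
set_option linter.unusedSectionVars false

open Set Filter Topology MeasureTheory
open Pool.Agent.Y262.QE Pool.Agent.Y264.QR Q101.QG
open Pool.Agent.Q233 Pool.Agent.Q233.GLV

noncomputable section

namespace Pool.Agent.H23.LR

lemma angle (D O : ℝ) : ∃ x y : ℝ, x ^ 2 + y ^ 2 = 1 ∧
    (x ^ 2 - y ^ 2) * D + 2 * (x * y) * O = ‖(⟨D, O⟩ : ℂ)‖ := by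
  obtain ⟨z, hz⟩ : ∃ z : ℂ, z = ⟨D, O⟩ := ⟨_, rfl⟩
  obtain ⟨t, ht⟩ : ∃ t, t = Complex.arg z / 2 := ⟨_, rfl⟩
  refine ⟨Real.cos t, Real.sin t, Real.cos_sq_add_sin_sq t, ?_⟩
  have h1 := Complex.norm_mul_cos_arg z
  have h2 := Complex.norm_mul_sin_arg z
  have h3 : Complex.arg z = 2 * t := by rw [ht]; ring
  rw [h3, Real.cos_two_mul'] at h1
  rw [h3, Real.sin_two_mul] at h2
  have h4 := Real.cos_sq_add_sin_sq t
  rw [← hz]
  have hD : D = z.re := by rw [hz]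
  have hO : O = z.im := by rw [hz]
  rw [hD, hO, ← h1, ← h2]
  have h5 : (Real.cos t ^ 2 - Real.sin t ^ 2) * (‖z‖ * (Real.cos t ^ 2 - Real.sin t ^ 2)) +
      2 * (Real.cos t * Real.sin t) * (‖z‖ * (2 * Real.sin t * Real.cos t)) =
      ‖z‖ * (Real.cos t ^ 2 + Real.sin t ^ 2) ^ 2 := by ring
  rw [h5, h4]
  ring

/-- a linear map of the plane with a large determinant -/
lemma cone_lin {D₁ D₂ O₁ O₂ Y c : ℝ} (w : ℂ) (hc : 0 < c) (hY : 0 ≤ Y) (h1 : |D₁| ≤ Y)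
    (h2 : |D₂| ≤ Y) (h3 : |O₁| ≤ Y) (h4 : |O₂| ≤ Y) (h : c ≤ |D₁ * O₂ - D₂ * O₁|) :
    c * ‖w‖ ≤ 2 * Y * ‖(⟨w.re * D₁ + w.im * D₂, w.re * O₁ + w.im * O₂⟩ : ℂ)‖ := by
  obtain ⟨T, hT⟩ : ∃ T : ℂ, T = ⟨w.re * D₁ + w.im * D₂, w.re * O₁ + w.im * O₂⟩ := ⟨_, rfl⟩
  have hT1 : T.re = w.re * D₁ + w.im * D₂ := by rw [hT]
  have hT2 : T.im = w.re * O₁ + w.im * O₂ := by rw [hT]
  rw [← hT]
  have hsq : ∀ X : ℝ, |X| ≤ Y → X ^ 2 ≤ Y ^ 2 := fun X hX => by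
    rw [← sq_abs X]
    exact pow_le_pow_left₀ (abs_nonneg _) hX 2
  have e1 : ‖w‖ ^ 2 = w.re ^ 2 + w.im ^ 2 := by
    rw [Complex.sq_norm, Complex.normSq_apply]
    ring
  have e2 : ‖T‖ ^ 2 = T.re ^ 2 + T.im ^ 2 := by
    rw [Complex.sq_norm, Complex.normSq_apply]
    ring
  have h5 : c ^ 2 ≤ (D₁ * O₂ - D₂ * O₁) ^ 2 := by
    rw [← sq_abs (D₁ * O₂ - D₂ * O₁)]
    exact pow_le_pow_left₀ hc.le h 2
  have h6 : (c * ‖w‖) ^ 2 ≤ (2 * Y * ‖T‖) ^ 2 := by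
    calc (c * ‖w‖) ^ 2 = c ^ 2 * (w.re ^ 2 + w.im ^ 2) := by rw [mul_pow, e1]
      _ ≤ (D₁ * O₂ - D₂ * O₁) ^ 2 * (w.re ^ 2 + w.im ^ 2) :=
          mul_le_mul_of_nonneg_right h5 (by positivity)
      _ = (O₂ * T.re - D₂ * T.im) ^ 2 + (D₁ * T.im - O₁ * T.re) ^ 2 := by
          rw [hT1, hT2]
          ring
      _ ≤ (O₂ ^ 2 + D₂ ^ 2) * (T.re ^ 2 + T.im ^ 2) + (D₁ ^ 2 + O₁ ^ 2) * (T.re ^ 2 + T.im ^ 2) := by
          nlinarith [sq_nonneg (O₂ * T.im + D₂ * T.re), sq_nonneg (D₁ * T.re + O₁ * T.im)]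
      _ = (O₂ ^ 2 + D₂ ^ 2 + (D₁ ^ 2 + O₁ ^ 2)) * ‖T‖ ^ 2 := by
          rw [e2]
          ring
      _ ≤ (Y ^ 2 + Y ^ 2 + (Y ^ 2 + Y ^ 2)) * ‖T‖ ^ 2 := by
          refine mul_le_mul_of_nonneg_right ?_ (sq_nonneg _)
          linarith [hsq _ h1, hsq _ h2, hsq _ h3, hsq _ h4]
      _ = (2 * Y * ‖T‖) ^ 2 := by ring
  exact abs_le_of_sq_le_sq' h6 (by positivity) |>.2

section forms

variable {H : Type} [NormedAddCommGroup H] [InnerProductSpace ℝ H]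
  {a b : H →L[ℝ] H →L[ℝ] ℝ} {E : ℕ → ℝ} {q : ℕ} {u : ℕ → H} {m : ℕ}

/-- half of the difference of the diagonal elements -/
def dd (k : H →L[ℝ] H →L[ℝ] ℝ) (E : ℕ → ℝ) (u : ℕ → H) (q : ℕ) : ℝ :=
  (k (nv E u q) (nv E u q) - k (nv E u (q + 1)) (nv E u (q + 1))) / 2

/-- the off-diagonal element -/
def oo (k : H →L[ℝ] H →L[ℝ] ℝ) (E : ℕ → ℝ) (u : ℕ → H) (q : ℕ) : ℝ :=
  k (nv E u q) (nv E u (q + 1))

/-- the linear part -/
def l1 (k : H →L[ℝ] H →L[ℝ] ℝ) (E : ℕ → ℝ) (u : ℕ → H) (m q : ℕ) : ℝ :=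
  ∑ j ∈ Finset.Ico m q, k (nv E u j) (nv E u j) +
    (k (nv E u q) (nv E u q) + k (nv E u (q + 1)) (nv E u (q + 1))) / 2

/-- the linear part without rotation -/
def l0 (k : H →L[ℝ] H →L[ℝ] ℝ) (E : ℕ → ℝ) (u : ℕ → H) (m q : ℕ) : ℝ :=
  ∑ j ∈ Finset.Ico m q, k (nv E u j) (nv E u j) + k (nv E u q) (nv E u q)

lemma dk_angle {k : H →L[ℝ] H →L[ℝ] ℝ} {x y : ℝ} (hxy : x ^ 2 + y ^ 2 = 1) :
    dk k E u m q x y = l1 k E u m q + ((x ^ 2 - y ^ 2) * dd k E u q + 2 * (x * y) * oo k E u q) := by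
  unfold dk l1 dd oo
  linear_combination ((k (nv E u q) (nv E u q) + k (nv E u (q + 1)) (nv E u (q + 1))) / 2) * hxy

lemma dk_zero {k : H →L[ℝ] H →L[ℝ] ℝ} : dk k E u m q 1 0 = l0 k E u m q := by
  unfold dk l0
  ring

/-- the off-diagonal elements are bounded by the diagonal ones -/
lemma pol_bd {k : H →L[ℝ] H →L[ℝ] ℝ} (sk : ∀ u v, k u v = k v u) {s B : ℝ}
    (hs : 0 ≤ s) (hk : ∀ v, |k v v| ≤ s * b v v) {X Y : H} (hX : b X X ≤ B) (hY : b Y Y ≤ B) :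
    |k X Y| ≤ s * B := by
  have e1 : k X Y = (k (X + Y) (X + Y) - k (X - Y) (X - Y)) / 4 := by
    simp only [map_add, map_sub, add_apply, sub_apply]
    rw [sk Y X]
    ring
  have e2 : b (X + Y) (X + Y) + b (X - Y) (X - Y) = 2 * (b X X + b Y Y) := by
    simp only [map_add, map_sub, add_apply, sub_apply]
    ring
  rw [e1, abs_div, abs_of_pos (show (0 : ℝ) < 4 by norm_num), div_le_iff₀ (by norm_num)]
  refine (abs_sub _ _).trans ?_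
  have h2 := hk (X + Y)
  have h3 := hk (X - Y)
  calc |k (X + Y) (X + Y)| + |k (X - Y) (X - Y)| ≤
      s * (b (X + Y) (X + Y) + b (X - Y) (X - Y)) := by linarith
    _ = s * (2 * (b X X + b Y Y)) := by rw [e2]
    _ ≤ s * (2 * (B + B)) := by
        refine mul_le_mul_of_nonneg_left ?_ hs
        linarith
    _ = s * B * 4 := by ring

end forms

variable {M : Type} [MetricSpace M] [CompactSpace M] [MeasurableSpace M] [BorelSpace M]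
  {μ : Measure M} [IsFiniteMeasure μ] {H : Type} [NormedAddCommGroup H] [InnerProductSpace ℝ H]
  {i : H →L[ℝ] Lp ℝ 2 μ} {a : H →L[ℝ] H →L[ℝ] ℝ} {b : C(M, ℝ) → H →L[ℝ] H →L[ℝ] ℝ} {m q : ℕ}

/-- **the subgradient and the cone at a conformal factor** -/
theorem pt2 [CompleteSpace H] (hS : Sf μ i a) (hB : IsB μ i b)
    (hm0 : ∀ j, j < m → ∀ φ, Ev a (b φ) j = 0) (hmp : ∀ j, m ≤ j → ∀ φ, 0 < Ev a (b φ) j)
    (hmq : m ≤ q) (R : ℝ) :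
    ∃ C > 0, ∃ B > 0, ∀ φ : C(M, ℝ), ‖φ‖ ≤ R → ∀ u, Tp a b q φ u →
      (∀ h : C(M, ℝ), ∀ j l, m ≤ j → j < q + 2 → m ≤ l → l < q + 2 →
        |kf b (h * ex φ) (nv (fun j => Ev a (b φ) j) u j) (nv (fun j => Ev a (b φ) j) u l)| ≤
          ‖h‖ * B) ∧
      ∀ h : C(M, ℝ), ‖h‖ ≤ 1 / 2 →
      Sm a b m q φ + l0 (kf b (h * ex φ)) (fun j => Ev a (b φ) j) u m q - C * ‖h‖ ^ 2 ≤
        Sm a b m q (φ + h) ∧
      Sm a b m q φ + l1 (kf b (h * ex φ)) (fun j => Ev a (b φ) j) u m q +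
        ‖(⟨dd (kf b (h * ex φ)) (fun j => Ev a (b φ) j) u q,
          oo (kf b (h * ex φ)) (fun j => Ev a (b φ) j) u q⟩ : ℂ)‖ -
        (iv a b q φ - iv a b (q + 1) φ) - C * ‖h‖ ^ 2 ≤ Sm a b m q (φ + h) := by
  obtain ⟨hF, hcmp, hkap⟩ := forms μ i a b hS hB
  obtain ⟨hnn, hmono, -, -, -⟩ := tLip M μ H a b hF hcmp
  obtain ⟨B, hB0, Z, hZ0, hBZ⟩ := ev_bds μ hF hcmp hmp q R
  obtain ⟨C, hC⟩ : ∃ C, C = (q + 1 : ℝ) * (m * (B + 2) ^ 2) + 1 := ⟨_, rfl⟩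
  refine ⟨C, by rw [hC]; positivity, B, hB0, ?_⟩
  intro φ hφ u hu
  obtain ⟨hB1, hZ1⟩ := hBZ φ hφ
  have hposE : ∀ j, m ≤ j → j < q + 2 → 0 < Ev a (b φ) j := fun j hj _ => hmp j hj φ
  constructor
  · intro h j l hj hj' hl hl'
    refine pol_bd (b := b φ) (fun u v => kf_symm hB _ u v) (norm_nonneg h) (fun v => ?_) ?_ ?_
    · obtain ⟨k, -, h2⟩ := hkap h
      rw [← kap_kf hB, ← (h2 φ v).1]
      exact (h2 φ v).2
    · rw [nv_b hu hposE hj hj' hj', if_pos rfl]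
      exact hB1 j hj
    · rw [nv_b hu hposE hl hl' hl', if_pos rfl]
      exact hB1 l hl
  intro h hh
  have hτh : |(1 : ℝ)| * ‖h‖ ≤ 1 / 2 := by rwa [abs_one, one_mul]
  obtain ⟨n1, n2⟩ := form_near hS hB (φ := φ) hτh
  rw [one_smul, abs_one, one_mul] at n1
  rw [one_smul] at n2
  obtain ⟨e', E', hE'⟩ := tSp H a (b (φ + h)) (hF _)
  have hm' := Pool.Agent.Y592.QE.mm H a _ (hF (φ + h)) e' E' hE'
  have hlow : ∀ v, b φ v v + 1 * kf b (h * ex φ) v v ≤ b (φ + h) v v := by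
    intro v
    have := low hS hB φ h 1 v
    rwa [one_smul] at this
  have main : ∀ x y : ℝ, x ^ 2 + y ^ 2 = 1 →
      Sm a b m q φ - y ^ 2 * (iv a b q φ - iv a b (q + 1) φ) +
        dk (kf b (h * ex φ)) (fun j => Ev a (b φ) j) u m q x y - C * ‖h‖ ^ 2 ≤
        Sm a b m q (φ + h) := by
    intro x y hxy
    have h1 := one_side (a := a) (b := b φ) (E := fun j => Ev a (b φ) j) (q := q) (u := u) (m := m)
      (hF φ).sa (hF φ).na hu hposE hmq (b' := b (φ + h)) (k := kf b (h * ex φ)) (hF _).sb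
      (fun u v => kf_symm hB _ u v) hE'
      (fun j hj => by rw [← hm' j]; exact hm0 j hj _) (fun j hj => by rw [← hm' j]; exact hmp j hj _)
      (τ := 1) (η := ‖h‖) (B := B) (norm_nonneg _) hlow n1 n2 (fun j hj _ => hB1 j hj) hxy
      (hF φ).nb
    have h3 : (∑ j ∈ Finset.Ico m (q + 1), (E' j)⁻¹) = Sm a b m q (φ + h) := by
      unfold Sm iv
      exact Finset.sum_congr rfl fun j _ => by rw [hm' j]
    rw [h3, one_mul] at h1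
    have h4 : (q + 1 : ℝ) * (m * (‖h‖ * (B + 2)) ^ 2) ≤ C * ‖h‖ ^ 2 := by
      rw [hC]
      nlinarith [sq_nonneg ‖h‖]
    have h5 : ∑ j ∈ Finset.Ico m (q + 1), (Ev a (b φ) j)⁻¹ = Sm a b m q φ := rfl
    rw [h5] at h1
    have h6 : iv a b q φ - iv a b (q + 1) φ = (Ev a (b φ) q)⁻¹ - (Ev a (b φ) (q + 1))⁻¹ := rfl
    rw [h6]
    linarith
  constructor
  · have h1 := main 1 0 (by norm_num)
    rw [dk_zero] at h1
    linarith
  · obtain ⟨x, y, hxy, hD⟩ := angle (dd (kf b (h * ex φ)) (fun j => Ev a (b φ) j) u q)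
      (oo (kf b (h * ex φ)) (fun j => Ev a (b φ) j) u q)
    have h1 := main x y hxy
    rw [dk_angle hxy, hD] at h1
    have hδ : 0 ≤ iv a b q φ - iv a b (q + 1) φ := by
      rw [sub_nonneg]
      exact inv_anti₀ (hmp q hmq φ) (hmono φ q (q + 1) (by omega))
    have h2 : y ^ 2 ≤ 1 := by nlinarith [sq_nonneg x]
    nlinarith

end Pool.Agent.H23.LR
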