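import Pool.Agent.H23.LR.Top

/-!
# Level repulsion: consequences
-/

set_option autoImplicit false
set_option linter.unusedSectionVars false

open Set Filter Topology MeasureTheory
open scoped ENNReal
open Pool.Agent.Y262.QE Pool.Agent.Y264.QR Pool.Agent.Y319.QR Q101.QG
open Pool.Agent.Q233 Pool.Agent.Q233.GLV

noncomputable section

namespace Pool.Agent.H23.LR

/-- small values are rare if the inverse is integrable -/
theorem small_gap {E : Type} [MeasurableSpace E] {P : Measure E} {K : Set E} (hK : MeasurableSet K)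
    {g : E → ℝ} (hg : Measurable g) (h : ∫⁻ φ in K, (ENNReal.ofReal (g φ))⁻¹ ∂P < ⊤) :
    Tendsto (fun ε : ℝ => P (K ∩ {φ | g φ < ε}) / ENNReal.ofReal ε) (𝓝[>] 0) (𝓝 0) := by
  have hA : ∀ ε : ℝ, MeasurableSet (K ∩ {φ | g φ < ε}) := fun ε =>
    hK.inter (measurableSet_lt hg measurable_const)
  have h1 : ∀ ε : ℝ, 0 < ε → P (K ∩ {φ | g φ < ε}) / ENNReal.ofReal ε ≤
      ∫⁻ φ in K ∩ {φ | g φ < ε}, (ENNReal.ofReal (g φ))⁻¹ ∂P := by
    intro ε hε
    have h2 : ∫⁻ φ in K ∩ {φ | g φ < ε}, (ENNReal.ofReal ε)⁻¹ ∂P ≤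
        ∫⁻ φ in K ∩ {φ | g φ < ε}, (ENNReal.ofReal (g φ))⁻¹ ∂P := by
      refine setLIntegral_mono' (hA ε) fun φ hφ => ?_
      exact ENNReal.inv_le_inv.2 (ENNReal.ofReal_le_ofReal (le_of_lt hφ.2))
    rwa [setLIntegral_const, mul_comm, ← div_eq_mul_inv] at h2
  have h2 : ∀ ε : ℝ, ∫⁻ φ in K ∩ {φ | g φ < ε}, (ENNReal.ofReal (g φ))⁻¹ ∂P =
      ∫⁻ φ in {φ | g φ < ε}, (ENNReal.ofReal (g φ))⁻¹ ∂(P.restrict K) := by
    intro ε
    rw [Measure.restrict_restrict (measurableSet_lt hg measurable_const), inter_comm]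
  have h3 : Tendsto (fun ε : ℝ => (P.restrict K) {φ | g φ < ε}) (𝓝[>] 0) (𝓝 0) := by
    have h4 : ∀ ε : ℝ, 0 < ε → (P.restrict K) {φ | g φ < ε} ≤
        ENNReal.ofReal ε * ∫⁻ φ in K, (ENNReal.ofReal (g φ))⁻¹ ∂P := by
      intro ε hε
      rw [Measure.restrict_apply (measurableSet_lt hg measurable_const), inter_comm]
      have h5 := (h1 ε hε).trans (lintegral_mono_set inter_subset_left)
      rwa [ENNReal.div_le_iff_le_mul (Or.inl (ENNReal.ofReal_pos.2 hε).ne')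
        (Or.inl ENNReal.ofReal_ne_top), mul_comm] at h5
    have h5 : Tendsto (fun ε : ℝ => ENNReal.ofReal ε * ∫⁻ φ in K, (ENNReal.ofReal (g φ))⁻¹ ∂P)
        (𝓝[>] 0) (𝓝 0) := by
      have h6 : Tendsto (fun ε : ℝ => ENNReal.ofReal ε) (𝓝[>] 0) (𝓝 0) := by
        have := (ENNReal.continuous_ofReal.tendsto (0 : ℝ)).mono_left
          (nhdsWithin_le_nhds (s := Ioi (0 : ℝ)))
        rwa [ENNReal.ofReal_zero] at this
      have h7 := ENNReal.Tendsto.mul_const h6 (Or.inr h.ne)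
      rwa [zero_mul] at h7
    refine tendsto_of_tendsto_of_tendsto_of_le_of_le' tendsto_const_nhds h5
      (Eventually.of_forall fun _ => zero_le) ?_
    filter_upwards [self_mem_nhdsWithin] with ε hε
    exact h4 ε hε
  have h4 := tendsto_setLIntegral_zero h.ne h3
  refine tendsto_of_tendsto_of_tendsto_of_le_of_le' tendsto_const_nhds h4
    (Eventually.of_forall fun _ => zero_le) ?_
  filter_upwards [self_mem_nhdsWithin] with ε hε
  rw [← h2]
  exact h1 ε hε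

variable {M : Type} [MetricSpace M] [CompactSpace M] [MeasurableSpace M] [BorelSpace M]
  (μ : Measure M) (D : Data M) [Nonempty M]

/-- the levels are continuous functions of the conformal factor -/
theorem lev_c (hD : D.IsSurf μ) (x : C(M, ℝ) → ℕ → ℝ)
    (hx : ∀ φ, ∃ (u : ℕ → M → ℝ) (lam : ℕ → ℝ),
      EigBasis (D.conf fun x => Real.exp (φ x)) (wm μ fun x => Real.exp (φ x)) u lam ∧
        ∀ j, x φ j = (wm μ fun y => Real.exp (φ y)).real univ * lam j / (4 * Real.pi)) (j : ℕ) :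
    Continuous fun φ => x φ j := by
  obtain ⟨hf, hcs, i, a, b, hSf, hi, ha, hB, hpos, hEv⟩ := setup μ D hD
  have hxE : ∀ φ j, x φ j = (∫ x, Real.exp (φ x) ∂μ) * Ev a (b φ) j / (4 * Real.pi) := by
    intro φ j
    obtain ⟨u, lam, hu, hl⟩ := hx φ
    rw [hl, hEv φ u lam hu]
  obtain ⟨hF, hcmp, -⟩ := forms μ i a b hSf hB
  obtain ⟨-, -, -, hcont, -⟩ := tLip M μ _ a b hF hcmp
  simp only [hxE]
  exact (((Pool.Agent.Y689.QR.int_cont μ).comp Pool.Agent.Y689.QR.exp_cont).mul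
    (hcont j)).div_const _

end Pool.Agent.H23.LR
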