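import Pool.Agent.H23.LR.Int

/-!
# Level repulsion: compactness
-/

set_option autoImplicit false
set_option linter.unusedSectionVars false

open Set Filter Topology MeasureTheory
open Pool.Agent.Y262.QE Pool.Agent.Y264.QR Q101.QG
open Pool.Agent.Q233 Pool.Agent.Q233.GLV

noncomputable section

namespace Pool.Agent.H23.LR

variable {M : Type} [MetricSpace M] [CompactSpace M] [MeasurableSpace M] [BorelSpace M]
  {μ : Measure M} [IsFiniteMeasure μ] {H : Type} [NormedAddCommGroup H] [InnerProductSpace ℝ H]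
  {i : H →L[ℝ] Lp ℝ 2 μ} {a : H →L[ℝ] H →L[ℝ] ℝ} {b : C(M, ℝ) → H →L[ℝ] H →L[ℝ] ℝ} {m q : ℕ}

lemma b_zero (hB : IsB μ i b) (v : H) : b 0 v v = ‖i v‖ ^ 2 := by
  rw [hB, ← real_inner_self_eq_norm_sq, L2.inner_def]
  refine integral_congr_ae (Eventually.of_forall fun x => ?_)
  simp only [ContinuousMap.zero_apply, Real.exp_zero, one_mul, RCLike.inner_apply, conj_trivial]

lemma b_le (hB : IsB μ i b) (φ : C(M, ℝ)) (x y : H) : |b φ x y| ≤ ‖ex φ‖ * ‖i x‖ * ‖i y‖ := by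
  rw [← kf_ex hB]
  exact kf_bdi hB (norm_nonneg _) (fun z => (ex φ).norm_coe_le_norm z) x y

lemma bil_tend (B : H →L[ℝ] H →L[ℝ] ℝ) {x y : ℕ → H} {u v : H} (hx : Tendsto x atTop (𝓝 u))
    (hy : Tendsto y atTop (𝓝 v)) : Tendsto (fun n => B (x n) (y n)) atTop (𝓝 (B u v)) :=
  (B.continuous₂.tendsto (u, v)).comp (hx.prodMk_nhds hy)

/-- the form of a function depends continuously on everything -/
lemma kf_tend (hS : Sf μ i a) (hB : IsB μ i b) {f : ℕ → C(M, ℝ)} {g : C(M, ℝ)} {x y : ℕ → H}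
    {u v : H} (hf : Tendsto f atTop (𝓝 g)) (hx : Tendsto x atTop (𝓝 u))
    (hy : Tendsto y atTop (𝓝 v)) :
    Tendsto (fun n => kf b (f n) (x n) (y n)) atTop (𝓝 (kf b g u v)) := by
  have h1 : Tendsto (fun n => kf b g (x n) (y n)) atTop (𝓝 (kf b g u v)) :=
    bil_tend (kf b g) hx hy
  have h2 : Tendsto (fun n => kf b (f n) (x n) (y n) - kf b g (x n) (y n)) atTop (𝓝 0) := by
    have h3 := ((tendsto_iff_norm_sub_tendsto_zero.1 hf).mul hx.norm).mul hy.norm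
    rw [zero_mul, zero_mul] at h3
    have h4 : ∀ n, ‖kf b (f n) (x n) (y n) - kf b g (x n) (y n)‖ ≤
        ‖f n - g‖ * ‖x n‖ * ‖y n‖ := by
      intro n
      rw [← kf_sub hB, Real.norm_eq_abs]
      exact kf_bd' hS hB _ _ _
    exact squeeze_zero_norm h4 h3
  have h3 := h2.add h1
  rw [zero_add] at h3
  exact h3.congr fun n => by ring

lemma ex_tend {f : ℕ → C(M, ℝ)} {g : C(M, ℝ)} (hf : Tendsto f atTop (𝓝 g)) :
    Tendsto (fun n => ex (f n)) atTop (𝓝 (ex g)) := by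
  have hexc : Continuous fun ψ : C(M, ℝ) => ex ψ := Pool.Agent.Y689.QR.exp_cont
  exact (hexc.tendsto g).comp hf

/-- **compactness of the eigenvectors** -/
theorem cl [CompleteSpace H] (hS : Sf μ i a) (hB : IsB μ i b) {φs : ℕ → C(M, ℝ)} {φ : C(M, ℝ)}
    (hφ : Tendsto φs atTop (𝓝 φ)) {us : ℕ → ℕ → H} (hu : ∀ n, Tp a b q (φs n) (us n)) :
    ∃ (s : ℕ → ℕ) (u : ℕ → H), StrictMono s ∧ Tp a b q φ u ∧
      ∀ j < q + 2, Tendsto (fun n => us (s n) j) atTop (𝓝 (u j)) := by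
  obtain ⟨hF, hcmp, -⟩ := forms μ i a b hS hB
  obtain ⟨hnn, hmono, hexp, hcont, -⟩ := tLip M μ H a b hF hcmp
  -- the bounds
  obtain ⟨R, hR⟩ : ∃ R : ℝ, ∀ n, ‖φs n‖ ≤ R := by
    obtain ⟨R, hR⟩ := hφ.norm.bddAbove_range
    exact ⟨R, fun n => hR ⟨n, rfl⟩⟩
  obtain ⟨X, hX⟩ : ∃ X : ℝ, ∀ n, ‖ex (φs n)‖ ≤ X := by
    obtain ⟨R, hR⟩ := (ex_tend hφ).norm.bddAbove_range
    exact ⟨R, fun n => hR ⟨n, rfl⟩⟩
  have hX0 : 0 ≤ X := (norm_nonneg _).trans (hX 0)
  obtain ⟨Z, hZ⟩ : ∃ Z, Z = Real.exp R * Ev a (b 0) (q + 1) := ⟨_, rfl⟩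
  have hZ1 : ∀ n, ∀ j < q + 2, Ev a (b (φs n)) j ≤ Z := by
    intro n j hj
    have h1 := hexp (φs n) 0 j
    rw [sub_zero] at h1
    rw [hZ]
    refine h1.trans ?_
    exact mul_le_mul (Real.exp_le_exp.2 (hR n)) (hmono 0 j (q + 1) (by omega)) (hnn 0 j)
      (Real.exp_pos _).le
  have hZ0 : 0 ≤ Z := (hnn (φs 0) 0).trans (hZ1 0 0 (by omega))
  have hi : ∀ n, ∀ j < q + 2, ‖i (us n j)‖ ^ 2 ≤ Real.exp R := by
    intro n j hj
    have h1 := hcmp 0 (φs n) (us n j)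
    rw [zero_sub, norm_neg, b_zero hB, (hu n).orth j j hj hj, if_pos rfl, mul_one] at h1
    exact h1.trans (Real.exp_le_exp.2 (hR n))
  have hbd : ∀ n, ∀ j < q + 2, ‖us n j‖ ^ 2 ≤ Z + Real.exp R := by
    intro n j hj
    rw [hS.nm, (hu n).eig j hj, (hu n).orth j j hj hj, if_pos rfl, mul_one]
    exact add_le_add (hZ1 n j hj) (hi n j hj)
  obtain ⟨Y, hY⟩ : ∃ Y, Y = Real.sqrt (Z + Real.exp R) := ⟨_, rfl⟩
  have hY0 : 0 ≤ Y := by rw [hY]; exact Real.sqrt_nonneg _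
  have hbY : ∀ n, ∀ j < q + 2, ‖us n j‖ ≤ Y := by
    intro n j hj
    rw [hY]
    exact Real.le_sqrt_of_sq_le (hbd n j hj)
  have hiY : ∀ n, ∀ j < q + 2, ‖i (us n j)‖ ≤ Y := fun n j hj => (i_le hS _).trans (hbY n j hj)
  -- the compact operator
  obtain ⟨T, hT1, -, hT2⟩ := Pool.Agent.Y618.QE.cpt H (b 0) (hF 0).sb (hF 0).nb (hF 0).cp
  have hK : IsCompact (closure (T '' Metric.closedBall 0 Y)) :=
    hT1.isCompact_closure_image_closedBall Y
  have hmem' : ∀ n, ∀ j < q + 2, T (us n j) ∈ closure (T '' Metric.closedBall 0 Y) := by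
    intro n j hj
    exact subset_closure (mem_image_of_mem T (mem_closedBall_zero_iff.2 (hbY n j hj)))
  have hmem : ∀ n, (fun j : Fin (q + 2) => T (us n j)) ∈
      Set.pi (univ : Set (Fin (q + 2))) fun _ => closure (T '' Metric.closedBall 0 Y) :=
    fun n j _ => hmem' n j j.2
  obtain ⟨w, -, s, hs, hw⟩ := (isCompact_univ_pi fun _ => hK).tendsto_subseq hmem
  have hwj : ∀ j : Fin (q + 2), Tendsto (fun n => T (us (s n) j)) atTop (𝓝 (w j)) := fun j =>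
    (tendsto_pi_nhds.1 hw j)
  -- the vectors form Cauchy sequences
  have hcau : ∀ j < q + 2, CauchySeq fun n => us (s n) j := by
    intro j hj
    have hTc : CauchySeq fun n => T (us (s n) j) := (hwj ⟨j, hj⟩).cauchySeq
    have hest : ∀ n l, ‖us (s n) j - us (s l) j‖ ^ 2 ≤
        2 * (Z * (X * Y)) * ‖i (us (s n) j - us (s l) j)‖ + ‖i (us (s n) j - us (s l) j)‖ ^ 2 := by
      intro n l
      obtain ⟨d, hd⟩ : ∃ d, d = us (s n) j - us (s l) j := ⟨_, rfl⟩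
      rw [← hd, hS.nm]
      have h1 : a d d = Ev a (b (φs (s n))) j * b (φs (s n)) (us (s n) j) d -
          Ev a (b (φs (s l))) j * b (φs (s l)) (us (s l) j) d := by
        have h11 : a d = a (us (s n) j) - a (us (s l) j) := by rw [hd, map_sub]
        rw [← (hu (s n)).eig j hj, ← (hu (s l)).eig j hj, h11]
        rfl
      have h2 : ∀ n, |Ev a (b (φs n)) j * b (φs n) (us n j) d| ≤ Z * (X * Y) * ‖i d‖ := by
        intro n
        rw [abs_mul, abs_of_nonneg (hnn _ _)]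
        have h3 := b_le hB (φs n) (us n j) d
        have h4 : ‖ex (φs n)‖ * ‖i (us n j)‖ * ‖i d‖ ≤ X * Y * ‖i d‖ :=
          mul_le_mul_of_nonneg_right (mul_le_mul (hX n) (hiY n j hj) (norm_nonneg _) hX0)
            (norm_nonneg _)
        calc Ev a (b (φs n)) j * |b (φs n) (us n j) d| ≤ Z * (X * Y * ‖i d‖) :=
              mul_le_mul (hZ1 n j hj) (h3.trans h4) (abs_nonneg _) hZ0
          _ = _ := by ring
      have h3 := (abs_le.1 (h2 (s n))).2
      have h4 := (abs_le.1 (h2 (s l))).1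
      rw [h1]
      linarith
    have hi2 : ∀ n l, ‖i (us (s n) j - us (s l) j)‖ ^ 2 ≤
        ‖T (us (s n) j) - T (us (s l) j)‖ * (2 * Y) := by
      intro n l
      rw [← b_zero hB, ← hT2, map_sub]
      refine (le_abs_self _).trans ((abs_real_inner_le_norm _ _).trans ?_)
      refine mul_le_mul_of_nonneg_left ?_ (norm_nonneg _)
      refine (norm_sub_le _ _).trans ?_
      linarith [hbY (s n) j hj, hbY (s l) j hj]
    rw [Metric.cauchySeq_iff'] at hTc ⊢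
    intro ε hε
    -- a modulus
    obtain ⟨Q, hQ⟩ : ∃ Q, Q = 2 * (Z * (X * Y)) + 1 := ⟨_, rfl⟩
    have hQ1 : 1 ≤ Q := by
      rw [hQ]
      have : 0 ≤ 2 * (Z * (X * Y)) := by positivity
      linarith
    obtain ⟨η, hη⟩ : ∃ η, η = min 1 (ε ^ 2 / (4 * Q)) := ⟨_, rfl⟩
    have hη0 : 0 < η := by rw [hη]; positivity
    have hη1 : η ≤ 1 := by rw [hη]; exact min_le_left _ _
    have hη2 : η * (4 * Q) ≤ ε ^ 2 := by
      have h1 : η ≤ ε ^ 2 / (4 * Q) := by rw [hη]; exact min_le_right _ _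
      rwa [le_div_iff₀ (by positivity)] at h1
    obtain ⟨N, hN⟩ := hTc (η ^ 2 / (2 * Y + 1)) (by positivity)
    refine ⟨N, fun n hn => ?_⟩
    have h1 := hN n hn
    rw [dist_eq_norm] at h1 ⊢
    have h2 := hi2 n N
    have h3 : ‖i (us (s n) j - us (s N) j)‖ ^ 2 ≤ η ^ 2 := by
      refine h2.trans ?_
      calc ‖T (us (s n) j) - T (us (s N) j)‖ * (2 * Y) ≤ η ^ 2 / (2 * Y + 1) * (2 * Y) :=
            mul_le_mul_of_nonneg_right h1.le (by positivity)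
        _ ≤ η ^ 2 := by
            rw [div_mul_eq_mul_div, div_le_iff₀ (by positivity)]
            nlinarith [sq_nonneg η]
    have h4 : ‖i (us (s n) j - us (s N) j)‖ ≤ η := abs_le_of_sq_le_sq' h3 hη0.le |>.2
    have h5 := hest n N
    have h6 : ‖us (s n) j - us (s N) j‖ ^ 2 ≤ Q * η := by
      have h7 : 2 * (Z * (X * Y)) * ‖i (us (s n) j - us (s N) j)‖ ≤ 2 * (Z * (X * Y)) * η :=
        mul_le_mul_of_nonneg_left h4 (by positivity)
      have h8 : η ^ 2 ≤ η := by nlinarith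
      rw [hQ]
      linarith
    have h7 : ‖us (s n) j - us (s N) j‖ ^ 2 < ε ^ 2 := by nlinarith
    exact lt_of_pow_lt_pow_left₀ 2 hε.le h7
  have hlim : ∀ j, ∃ u, j < q + 2 → Tendsto (fun n => us (s n) j) atTop (𝓝 u) := by
    intro j
    by_cases hj : j < q + 2
    · obtain ⟨u, h⟩ := cauchySeq_tendsto_of_complete (hcau j hj)
      exact ⟨u, fun _ => h⟩
    · exact ⟨0, fun h => absurd h hj⟩
  choose u hul using hlim
  have hφs : Tendsto (fun n => φs (s n)) atTop (𝓝 φ) := hφ.comp hs.tendsto_atTop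
  have hexs := ex_tend hφs
  refine ⟨s, u, hs, ⟨fun k l hk hl => ?_, fun j hj v => ?_⟩, fun j hj => hul j hj⟩
  · have h1 := kf_tend hS hB hexs (hul k hk) (hul l hl)
    have h2 : ∀ n, kf b (ex (φs (s n))) (us (s n) k) (us (s n) l) = if k = l then 1 else 0 := by
      intro n
      rw [kf_ex hB]
      exact (hu (s n)).orth k l hk hl
    simp only [h2] at h1
    rw [← kf_ex hB]
    exact tendsto_nhds_unique h1 tendsto_const_nhds
  · have h1 := (kf_tend hS hB hexs (hul j hj) (tendsto_const_nhds (x := v)))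
    have h2 : Tendsto (fun n => Ev a (b (φs (s n))) j) atTop (𝓝 (Ev a (b φ) j)) :=
      ((hcont j).tendsto φ).comp hφs
    have h3 := h2.mul h1
    have h4 : Tendsto (fun n => a (us (s n) j) v) atTop (𝓝 (a (u j) v)) :=
      ((a.flip v).continuous.tendsto (u j)).comp (hul j hj)
    rw [kf_ex hB] at h3
    refine tendsto_nhds_unique h4 (h3.congr fun n => ?_)
    rw [kf_ex hB, (hu (s n)).eig j hj]

/-- the conformal factors with a large off-diagonal element in the direction `h` -/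
def Fc (i : H →L[ℝ] Lp ℝ 2 μ) (a : H →L[ℝ] H →L[ℝ] ℝ) (b : C(M, ℝ) → H →L[ℝ] H →L[ℝ] ℝ) (q : ℕ)
    (h : C(M, ℝ)) (c : ℝ) : Set C(M, ℝ) :=
  {φ | ∃ u, Tp a b q φ u ∧ c ≤ |od i h φ q u|}

lemma od_tend (hS : Sf μ i a) (hB : IsB μ i b) {φs : ℕ → C(M, ℝ)} {φ : C(M, ℝ)}
    (hφ : Tendsto φs atTop (𝓝 φ)) {us : ℕ → ℕ → H} {u : ℕ → H}
    (hu : ∀ j < q + 2, Tendsto (fun n => us n j) atTop (𝓝 (u j))) (h : C(M, ℝ)) :
    Tendsto (fun n => od i h (φs n) q (us n)) atTop (𝓝 (od i h φ q u)) := by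
  have h1 := kf_tend (b := b) hS hB ((ex_tend hφ).const_mul h) (hu q (by omega))
    (hu (q + 1) (by omega))
  rw [od_kf hB] at h1
  exact h1.congr fun n => od_kf hB _ _ _ _

lemma fc_closed [CompleteSpace H] (hS : Sf μ i a) (hB : IsB μ i b) (h : C(M, ℝ)) (c : ℝ) :
    IsClosed (Fc i a b q h c) := by
  refine isSeqClosed_iff_isClosed.1 fun φs φ hmem hφ => ?_
  choose us hus hc using hmem
  obtain ⟨s, u, hs, hu, hlim⟩ := cl hS hB hφ hus
  refine ⟨u, hu, ?_⟩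
  have h1 := (od_tend hS hB (hφ.comp hs.tendsto_atTop) hlim h).abs
  exact ge_of_tendsto' h1 fun n => hc (s n)

/-- **the covering of a compact set** -/
theorem cover [CompleteSpace H] (hS : Sf μ i a) (hB : IsB μ i b)
    (hmp : ∀ j, m ≤ j → ∀ φ, 0 < Ev a (b φ) j) (hmq : m ≤ q) (hs : ℕ → C(M, ℝ))
    (hne : ∀ φ u, Tp a b q φ u → Ev a (b φ) q = Ev a (b φ) (q + 1) → ∃ n, od i (hs n) φ q u ≠ 0)
    {K : Set C(M, ℝ)} (hK : IsCompact K) :
    ∃ (N : ℕ) (c : ℝ), 0 < c ∧ ∀ φ ∈ K, iv a b q φ - iv a b (q + 1) φ ≤ c →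
      ∃ n < N, φ ∈ Fc i a b q (hs n) c := by
  obtain ⟨hF, hcmp, -⟩ := forms μ i a b hS hB
  by_contra hcon
  push Not at hcon
  have h1 : ∀ n : ℕ, ∃ φ ∈ K, iv a b q φ - iv a b (q + 1) φ ≤ 1 / ((n : ℝ) + 1) ∧
      ∀ l < n, φ ∉ Fc i a b q (hs l) (1 / ((n : ℝ) + 1)) :=
    fun n => hcon n (1 / ((n : ℝ) + 1)) (by positivity)
  choose φs hφK hφδ hφF using h1
  obtain ⟨φ, hφ, s, hs1, hs2⟩ := hK.tendsto_subseq hφK
  choose us hus using fun n => tp_ex hF q (φs (s n))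
  obtain ⟨s', u, hs3, hu, hlim⟩ := cl hS hB hs2 hus
  have hφl : Tendsto (fun n => φs (s (s' n))) atTop (𝓝 φ) := hs2.comp hs3.tendsto_atTop
  have hinf : Tendsto (fun n : ℕ => 1 / (((s (s' n) : ℕ) : ℝ) + 1)) atTop (𝓝 0) :=
    tendsto_one_div_add_atTop_nhds_zero_nat.comp (hs1.tendsto_atTop.comp hs3.tendsto_atTop)
  have hiv : iv a b q φ - iv a b (q + 1) φ ≤ 0 := by
    have h2 : Tendsto (fun n => iv a b q (φs (s (s' n))) - iv a b (q + 1) (φs (s (s' n)))) atTop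
        (𝓝 (iv a b q φ - iv a b (q + 1) φ)) :=
      (((iv_cont hF μ hcmp hmp hmq).tendsto φ).comp hφl).sub
        (((iv_cont hF μ hcmp hmp (by omega : m ≤ q + 1)).tendsto φ).comp hφl)
    exact le_of_tendsto_of_tendsto' h2 hinf fun n => hφδ _
  have heq : Ev a (b φ) q = Ev a (b φ) (q + 1) := by
    obtain ⟨hnn, hmono, -, -, -⟩ := tLip M μ H a b hF hcmp
    refine le_antisymm (hmono φ q (q + 1) (by omega)) ?_
    have h3 : (Ev a (b φ) q)⁻¹ ≤ (Ev a (b φ) (q + 1))⁻¹ := by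
      have : iv a b q φ ≤ iv a b (q + 1) φ := by linarith
      exact this
    exact (inv_le_inv₀ (hmp q hmq φ) (hmp (q + 1) (by omega) φ)).1 h3
  obtain ⟨l, hl⟩ := hne φ u hu heq
  have h2 := (od_tend (i := i) (a := a) (b := b) (q := q) hS hB hφl hlim (hs l)).abs
  have h3 : |od i (hs l) φ q u| ≤ 0 := by
    refine le_of_tendsto_of_tendsto h2 hinf ?_
    have h4 : ∀ᶠ n in atTop, l < s (s' n) :=
      (hs1.tendsto_atTop.comp hs3.tendsto_atTop).eventually (eventually_gt_atTop l)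
    filter_upwards [h4] with n hn
    by_contra hlt
    push Not at hlt
    exact hφF (s (s' n)) l hn ⟨_, hus (s' n), hlt.le⟩
  exact hl (abs_nonpos_iff.1 h3)

end Pool.Agent.H23.LR
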