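import Pool.Agent.H23.LR.Cov2

/-!
# Level repulsion: crossings
-/

set_option autoImplicit false
set_option linter.unusedSectionVars false

open Set Filter Topology MeasureTheory
open scoped ENNReal
open Pool.Agent.Y262.QE Pool.Agent.Y264.QR Q101.QG
open Pool.Agent.Q233 Pool.Agent.Q233.GLV

noncomputable section

namespace Pool.Agent.H23.LR

variable {M : Type} [MetricSpace M] [CompactSpace M] [MeasurableSpace M] [BorelSpace M]
  {μ : Measure M} [IsFiniteMeasure μ] {H : Type} [NormedAddCommGroup H] [InnerProductSpace ℝ H]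
  {i : H →L[ℝ] Lp ℝ 2 μ} {a : H →L[ℝ] H →L[ℝ] ℝ} {b : C(M, ℝ) → H →L[ℝ] H →L[ℝ] ℝ} {m q : ℕ}

/-- the difference of the inverse eigenvalues -/
def dl (a : H →L[ℝ] H →L[ℝ] ℝ) (b : C(M, ℝ) → H →L[ℝ] H →L[ℝ] ℝ) (q : ℕ) (φ : C(M, ℝ)) : ℝ :=
  iv a b q φ - iv a b (q + 1) φ

/-- the derivative of the inverse of a simple eigenvalue -/
lemma iv_der [CompleteSpace H] (hS : Sf μ i a) (hB : IsB μ i b)
    (hmp : ∀ j, m ≤ j → ∀ φ, 0 < Ev a (b φ) j) {j : ℕ} (hj : m ≤ j) {φ : C(M, ℝ)}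
    (hs : Sim a b φ j) {e : ℕ → H} {E : ℕ → ℝ} (hE : Eg a (b φ) e E) (g : C(M, ℝ))
    {t : ℕ → ℝ} (ht : Tendsto t atTop (𝓝 0)) (ht0 : ∀ n, 0 < t n) :
    Tendsto (fun n => (iv a b j (φ + t n • g) - iv a b j φ) / t n) atTop
      (𝓝 (kf b (g * ex φ) (nv (fun j => Ev a (b φ) j) e j) (nv (fun j => Ev a (b φ) j) e j))) := by
  obtain ⟨hF, hcmp, -⟩ := forms μ i a b hS hB
  obtain ⟨-, -, -, hcont, -⟩ := tLip M μ H a b hF hcmp
  have hmm := Pool.Agent.Y592.QE.mm H a (b φ) (hF φ) e E hE j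
  have hpos := hmp j hj φ
  have htg : Tendsto (fun n => φ + t n • g) atTop (𝓝 φ) := by
    have h1 : Tendsto (fun n => φ + t n • g) atTop (𝓝 (φ + (0 : ℝ) • g)) :=
      tendsto_const_nhds.add (ht.smul_const g)
    rwa [zero_smul, add_zero] at h1
  obtain ⟨κ, hκ⟩ : ∃ κ, κ = kf b (g * ex φ) (e j) (e j) := ⟨_, rfl⟩
  have hEv : Tendsto (fun n => Ev a (b (φ + t n • g)) j) atTop (𝓝 (Ev a (b φ) j)) :=
    ((hcont j).tendsto φ).comp htg
  -- the derivative of the eigenvalue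
  have h1 : Tendsto (fun n => (Ev a (b (φ + t n • g)) j - Ev a (b φ) j) / t n) atTop
      (𝓝 (-(Ev a (b φ) j * κ))) := by
    rw [Metric.tendsto_atTop]
    intro ε hε
    have h2 := strict_seq hS hB hE hs htg (tendsto_const_nhds (x := φ))
      (show 0 < ε / (2 * (‖g‖ + 1)) by positivity)
    obtain ⟨N, hN⟩ := eventually_atTop.1 h2
    refine ⟨N, fun n hn => ?_⟩
    have h3 := hN n hn
    have e1 : φ + t n • g - φ = t n • g := by abel
    have e2 : kap μ i (t n • g) φ (e j) = t n * κ := by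
      rw [kap_kf hB, hκ]
      have h4 := kf_lin hB (g * ex φ) 0 (t n) 0 (e j) (e j)
      rw [zero_mul, add_zero, smul_zero, add_zero] at h4
      rw [smul_mul_assoc, h4]
    rw [e1, e2, norm_smul, Real.norm_eq_abs, abs_of_pos (ht0 n)] at h3
    rw [Real.dist_eq]
    have e3 : (Ev a (b (φ + t n • g)) j - Ev a (b φ) j) / t n - -(Ev a (b φ) j * κ) =
        (Ev a (b (φ + t n • g)) j - Ev a (b φ) j + E j * (t n * κ)) / t n := by
      rw [hmm]
      have := (ht0 n).ne'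
      field_simp
      ring
    rw [e3, abs_div, abs_of_pos (ht0 n), div_lt_iff₀ (ht0 n)]
    refine h3.trans_lt ?_
    rw [div_mul_eq_mul_div, div_lt_iff₀ (by positivity)]
    have h5 := ht0 n
    have h6 := norm_nonneg g
    have h7 : 0 < ε * t n := by positivity
    nlinarith
  have h2 : Tendsto (fun n => -((Ev a (b (φ + t n • g)) j - Ev a (b φ) j) / t n) *
      ((Ev a (b (φ + t n • g)) j)⁻¹ * (Ev a (b φ) j)⁻¹)) atTop
      (𝓝 (-(-(Ev a (b φ) j * κ)) * ((Ev a (b φ) j)⁻¹ * (Ev a (b φ) j)⁻¹))) :=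
    h1.neg.mul ((hEv.inv₀ hpos.ne').mul tendsto_const_nhds)
  have e4 : -(-(Ev a (b φ) j * κ)) * ((Ev a (b φ) j)⁻¹ * (Ev a (b φ) j)⁻¹) =
      kf b (g * ex φ) (nv (fun j => Ev a (b φ) j) e j) (nv (fun j => Ev a (b φ) j) e j) := by
    have h5 : (Real.sqrt (Ev a (b φ) j))⁻¹ * (Real.sqrt (Ev a (b φ) j))⁻¹ =
        (Ev a (b φ) j)⁻¹ := by
      rw [← mul_inv, Real.mul_self_sqrt hpos.le]
    rw [kf_nv, ← hκ]
    have h6 : (Real.sqrt (Ev a (b φ) j))⁻¹ * ((Real.sqrt (Ev a (b φ) j))⁻¹ * κ) =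
        ((Real.sqrt (Ev a (b φ) j))⁻¹ * (Real.sqrt (Ev a (b φ) j))⁻¹) * κ := by ring
    rw [h6, h5]
    field_simp
  rw [e4] at h2
  refine h2.congr fun n => ?_
  have h3 := (hmp j hj (φ + t n • g)).ne'
  have h4 := (ht0 n).ne'
  have h5 := hpos.ne'
  unfold iv
  field_simp
  ring

/-- **crossings**: near a transversal double eigenvalue every plane of conformal factors contains a
point with a double eigenvalue -/
theorem crossing [CompleteSpace H] (hS : Sf μ i a) (hB : IsB μ i b)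
    (hm0 : ∀ j, j < m → ∀ φ, Ev a (b φ) j = 0) (hmp : ∀ j, m ≤ j → ∀ φ, 0 < Ev a (b φ) j)
    (hmq : m ≤ q) (h k : C(M, ℝ)) {U : Set C(M, ℝ)}
    {c R : ℝ} (hc : 0 < c) (hUR : ∀ φ ∈ U, ‖φ‖ ≤ R)
    (hdet : ∀ φ ∈ U, ∀ u, Tp a b q φ u → c ≤ |dt a b q h k φ u|)
    (hlo : ∀ φ ∈ U, ∀ l < q, Ev a (b φ) l < Ev a (b φ) q)
    (hhi : ∀ φ ∈ U, ∀ l > q + 1, Ev a (b φ) (q + 1) < Ev a (b φ) l) :
    ∃ c' > 0, ∀ ψ r, 0 < r → (∀ z ∈ Metric.closedBall (0 : ℂ) r, ψ + pl h k z ∈ U) →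
      dl a b q ψ < c' * r → ∃ z : ℂ, c' * ‖z‖ ≤ dl a b q ψ ∧ dl a b q (ψ + pl h k z) = 0 := by
  obtain ⟨hF, hcmp, -⟩ := forms μ i a b hS hB
  obtain ⟨hnn, hmono, -, hcont, -⟩ := tLip M μ H a b hF hcmp
  obtain ⟨C, hC0, B, hB0, hpt⟩ := pt2 hS hB hm0 hmp hmq R
  obtain ⟨Y, hY⟩ : ∃ Y, Y = (‖h‖ + ‖k‖) * B := ⟨_, rfl⟩
  have hY0 : 0 ≤ Y := by rw [hY]; positivity
  have hδ0 : ∀ φ, 0 ≤ dl a b q φ := by
    intro φ
    unfold dl
    rw [sub_nonneg]
    exact inv_anti₀ (hmp q hmq φ) (hmono φ q (q + 1) (by omega))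
  refine ⟨c / (2 * (Y + 1)), by positivity, fun ψ r hr hU hψ => ?_⟩
  obtain ⟨c', hc'⟩ : ∃ c', c' = c / (2 * (Y + 1)) := ⟨_, rfl⟩
  have hc'0 : 0 < c' := by rw [hc']; positivity
  rw [← hc'] at hψ ⊢
  obtain ⟨f, hf⟩ : ∃ f : ℂ → ℝ, f = fun z => dl a b q (ψ + pl h k z) + c' * ‖z‖ := ⟨_, rfl⟩
  have hfc : Continuous f := by
    rw [hf]
    unfold dl
    have h1 : Continuous fun z : ℂ => ψ + pl h k z := continuous_const.add (pl_cont h k)
    exact (((iv_cont hF μ hcmp hmp hmq).comp h1).sub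
      ((iv_cont hF μ hcmp hmp (by omega : m ≤ q + 1)).comp h1)).add
      (continuous_const.mul continuous_norm)
  obtain ⟨z, hz, hmin⟩ := (isCompact_closedBall (0 : ℂ) r).exists_isMinOn
    ⟨0, Metric.mem_closedBall_self hr.le⟩ hfc.continuousOn
  have hf0 : f 0 = dl a b q ψ := by
    rw [hf]
    simp [pl]
  have h1 : f z ≤ dl a b q ψ := by
    rw [← hf0]
    exact hmin (Metric.mem_closedBall_self hr.le)
  have h2 : dl a b q (ψ + pl h k z) + c' * ‖z‖ ≤ dl a b q ψ := by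
    rw [hf] at h1
    exact h1
  have h3 := hδ0 (ψ + pl h k z)
  refine ⟨z, by linarith, ?_⟩
  by_contra hne
  have hpos : 0 < dl a b q (ψ + pl h k z) := lt_of_le_of_ne h3 (Ne.symm hne)
  have hzr : ‖z‖ < r := by
    have : c' * ‖z‖ < c' * r := by linarith
    exact lt_of_mul_lt_mul_left this hc'0.le
  obtain ⟨φ, hφ⟩ : ∃ φ, φ = ψ + pl h k z := ⟨_, rfl⟩
  rw [← hφ] at hpos
  have hφU : φ ∈ U := by
    rw [hφ]
    exact hU z hz
  have hlt : Ev a (b φ) q < Ev a (b φ) (q + 1) := by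
    refine lt_of_le_of_ne (hmono φ q (q + 1) (by omega)) fun heq => ?_
    unfold dl iv at hpos
    rw [heq, sub_self] at hpos
    exact lt_irrefl _ hpos
  have hsq : Sim a b φ q := by
    intro l hl
    rcases lt_trichotomy l q with h | h | h
    · exact (hlo φ hφU l h).ne
    · exact absurd h hl
    · exact (hlt.trans_le (hmono φ _ _ (by omega))).ne'
  have hsq1 : Sim a b φ (q + 1) := by
    intro l hl
    rcases lt_trichotomy l (q + 1) with h | h | h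
    · exact ((hmono φ l q (by omega)).trans_lt hlt).ne
    · exact absurd h hl
    · exact (hhi φ hφU l h).ne'
  obtain ⟨e, E, hE⟩ := tSp H a (b φ) (hF φ)
  have hu : Tp a b q φ e := ⟨fun i j _ _ => hE.orth i j, fun j _ v => by
    rw [hE.eig j v, Pool.Agent.Y592.QE.mm H a (b φ) (hF φ) e E hE j]⟩
  obtain ⟨hkb, -⟩ := hpt φ (hUR φ hφU) e hu
  have hk1 : |oo (kf b (h * ex φ)) (fun j => Ev a (b φ) j) e q| ≤ Y := by
    refine (hkb h q (q + 1) hmq (by omega) (by omega) (by omega)).trans ?_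
    rw [hY]
    exact mul_le_mul_of_nonneg_right (by linarith [norm_nonneg k]) hB0.le
  have hk2 : |oo (kf b (k * ex φ)) (fun j => Ev a (b φ) j) e q| ≤ Y := by
    refine (hkb k q (q + 1) hmq (by omega) (by omega) (by omega)).trans ?_
    rw [hY]
    exact mul_le_mul_of_nonneg_right (by linarith [norm_nonneg h]) hB0.le
  have hd := hdet φ hφU e hu
  obtain ⟨d₁, hd₁⟩ : ∃ d, d = dd (kf b (h * ex φ)) (fun j => Ev a (b φ) j) e q := ⟨_, rfl⟩
  obtain ⟨d₂, hd₂⟩ : ∃ d, d = dd (kf b (k * ex φ)) (fun j => Ev a (b φ) j) e q := ⟨_, rfl⟩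
  unfold dt at hd
  rw [← hd₁, ← hd₂] at hd
  obtain ⟨W, hW⟩ : ∃ W : ℂ, W = ⟨d₁, d₂⟩ := ⟨_, rfl⟩
  have hWre : W.re = d₁ := by rw [hW]
  have hWim : W.im = d₂ := by rw [hW]
  have hD : c ≤ 2 * ‖W‖ * Y := by
    refine hd.trans ((abs_sub _ _).trans ?_)
    rw [abs_mul, abs_mul]
    have h4 : |d₁| ≤ ‖W‖ := by rw [← hWre]; exact Complex.abs_re_le_norm W
    have h5 : |d₂| ≤ ‖W‖ := by rw [← hWim]; exact Complex.abs_im_le_norm W
    have h6 := mul_le_mul h4 hk2 (abs_nonneg _) (norm_nonneg W)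
    have h7 := mul_le_mul h5 hk1 (abs_nonneg _) (norm_nonneg W)
    linarith
  have hW0 : 0 < ‖W‖ := by
    by_contra hcon
    have h4 : ‖W‖ = 0 := le_antisymm (not_lt.1 hcon) (norm_nonneg _)
    rw [h4] at hD
    linarith
  have hWc : c' ≤ ‖W‖ := by
    rw [hc', div_le_iff₀ (by positivity)]
    nlinarith
  -- the direction of steepest descent
  obtain ⟨w, hw⟩ : ∃ w : ℂ, w = (-(‖W‖)⁻¹) • W := ⟨_, rfl⟩
  have hwn : ‖w‖ = 1 := by
    rw [hw, norm_smul, Real.norm_eq_abs, abs_neg, abs_of_pos (inv_pos.2 hW0),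
      inv_mul_cancel₀ hW0.ne']
  have hdw : dd (kf b (pl h k w * ex φ)) (fun j => Ev a (b φ) j) e q = -‖W‖ := by
    rw [dd_pl hB, ← hd₁, ← hd₂, hw, Complex.smul_re, Complex.smul_im, smul_eq_mul, smul_eq_mul,
      hWre, hWim]
    have h4 : d₁ ^ 2 + d₂ ^ 2 = ‖W‖ ^ 2 := by
      rw [Complex.sq_norm, Complex.normSq_apply, hWre, hWim]
      ring
    have h5 : -‖W‖⁻¹ * d₁ * d₁ + -‖W‖⁻¹ * d₂ * d₂ = -(‖W‖⁻¹ * (d₁ ^ 2 + d₂ ^ 2)) := by ring
    rw [h5, h4]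
    field_simp
  obtain ⟨s, hs⟩ : ∃ s, s = r - ‖z‖ := ⟨_, rfl⟩
  have hs0 : 0 < s := by rw [hs]; linarith
  obtain ⟨t, ht⟩ : ∃ t : ℕ → ℝ, t = fun n : ℕ => s * (1 / ((n : ℝ) + 1)) := ⟨_, rfl⟩
  have htt : Tendsto t atTop (𝓝 0) := by
    rw [ht]
    have := (tendsto_one_div_add_atTop_nhds_zero_nat (𝕜 := ℝ)).const_mul s
    rwa [mul_zero] at this
  have ht0 : ∀ n, 0 < t n := by
    intro n
    rw [ht]
    positivity
  have hts : ∀ n, t n ≤ s := by
    intro n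
    rw [ht]
    have h4 : 1 / ((n : ℝ) + 1) ≤ 1 := by
      rw [div_le_one (by positivity)]
      linarith [Nat.cast_nonneg (α := ℝ) n]
    simp only
    nlinarith
  have hq1 := iv_der hS hB hmp hmq hsq hE (pl h k w) htt ht0
  have hq2 := iv_der hS hB hmp (by omega : m ≤ q + 1) hsq1 hE (pl h k w) htt ht0
  have hlim := hq1.sub hq2
  have e5 : kf b (pl h k w * ex φ) (nv (fun j => Ev a (b φ) j) e q)
        (nv (fun j => Ev a (b φ) j) e q) -
      kf b (pl h k w * ex φ) (nv (fun j => Ev a (b φ) j) e (q + 1))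
        (nv (fun j => Ev a (b φ) j) e (q + 1)) = -(2 * ‖W‖) := by
    have h4 := hdw
    unfold dd at h4
    linarith
  rw [e5] at hlim
  have hge : -c' ≤ -(2 * ‖W‖) := by
    refine ge_of_tendsto' hlim fun n => ?_
    have h4 : z + (t n : ℝ) • w ∈ Metric.closedBall (0 : ℂ) r := by
      rw [mem_closedBall_zero_iff]
      refine (norm_add_le _ _).trans ?_
      rw [norm_smul, hwn, mul_one, Real.norm_eq_abs, abs_of_pos (ht0 n)]
      have := hts n
      linarith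
    have h5 : f z ≤ f (z + (t n : ℝ) • w) := hmin h4
    rw [hf] at h5
    simp only at h5
    have e6 : ψ + pl h k (z + (t n : ℝ) • w) = φ + t n • pl h k w := by
      rw [hφ]
      unfold pl
      simp only [Complex.add_re, Complex.add_im, Complex.smul_re, Complex.smul_im, smul_eq_mul,
        add_smul, mul_smul, smul_add]
      abel
    rw [e6, ← hφ] at h5
    have h6 : ‖z + (t n : ℝ) • w‖ ≤ ‖z‖ + t n := by
      refine (norm_add_le _ _).trans ?_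
      rw [norm_smul, hwn, mul_one, Real.norm_eq_abs, abs_of_pos (ht0 n)]
    have h7 : c' * ‖z + (t n : ℝ) • w‖ ≤ c' * (‖z‖ + t n) := mul_le_mul_of_nonneg_left h6 hc'0.le
    rw [← sub_div, le_div_iff₀ (ht0 n)]
    unfold dl at h5
    linarith
  linarith

end Pool.Agent.H23.LR
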