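import Mathlib

/-!
# Level repulsion: the pair correlation measure
-/

set_option autoImplicit false

open Set Filter Topology MeasureTheory
open scoped ENNReal

noncomputable section

namespace Pool.Agent.H23.LR

/-- the pairs of different indices with positive levels at most `T` -/
abbrev Prs (T : ℝ) (x : ℕ → ℝ) : Type :=
  {p : ℕ × ℕ // p.1 ≠ p.2 ∧ (0 < x p.1 ∧ x p.1 ≤ T) ∧ (0 < x p.2 ∧ x p.2 ≤ T)}

lemma pc_le {T : ℝ} {x : ℕ → ℝ} (hm : Monotone x) {N : ℕ} (hN : ∀ j, x j ≤ T → j < N) (ε : ℝ) :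
    (Measure.sum fun p : Prs T x => Measure.dirac (x p.1.1 - x p.1.2)) (Icc (-ε) ε) ≤
      ∑ p ∈ Finset.range N ×ˢ Finset.range N,
        (if 0 < x (min p.1 p.2) ∧ x (min p.1 p.2 + 1) - x (min p.1 p.2) ≤ ε then 1 else 0 : ℝ≥0∞) := by
  rw [Measure.sum_apply _ measurableSet_Icc]
  obtain ⟨g, hg⟩ : ∃ g : ℕ × ℕ → ℝ≥0∞, g = fun p => if p ∈ Finset.range N ×ˢ Finset.range N then
      (if 0 < x (min p.1 p.2) ∧ x (min p.1 p.2 + 1) - x (min p.1 p.2) ≤ ε then 1 else 0 : ℝ≥0∞)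
      else 0 := ⟨_, rfl⟩
  have h1 : ∀ p : Prs T x, (Measure.dirac (x p.1.1 - x p.1.2)) (Icc (-ε) ε) ≤ g p.1 := by
    rintro ⟨⟨j, k⟩, hne, ⟨hj, hjT⟩, hk, hkT⟩
    simp only
    rw [Measure.dirac_apply' _ measurableSet_Icc]
    by_cases hmem : x j - x k ∈ Icc (-ε) ε
    · rw [indicator_of_mem hmem, hg]
      simp only [Finset.mem_product, Finset.mem_range, Pi.one_apply]
      rw [if_pos ⟨hN j hjT, hN k hkT⟩, if_pos]
      rcases lt_or_gt_of_ne (show j ≠ k from hne) with h | h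
      · rw [min_eq_left h.le]
        refine ⟨hj, ?_⟩
        have := hm (Nat.succ_le_of_lt h)
        rw [Nat.succ_eq_add_one] at this
        linarith [hmem.1]
      · rw [min_eq_right h.le]
        refine ⟨hk, ?_⟩
        have := hm (Nat.succ_le_of_lt h)
        rw [Nat.succ_eq_add_one] at this
        linarith [hmem.2]
    · rw [indicator_of_notMem hmem]
      exact zero_le
  refine (ENNReal.tsum_le_tsum h1).trans ?_
  refine (ENNReal.tsum_comp_le_tsum_of_injective Subtype.val_injective g).trans ?_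
  rw [tsum_eq_sum (s := Finset.range N ×ˢ Finset.range N) (fun p hp => by rw [hg]; exact if_neg hp)]
  refine Finset.sum_le_sum fun p hp => ?_
  rw [hg]
  simp only
  rw [if_pos hp]

/-- **the pair correlation measure near zero** -/
theorem pair_corr {E : Type} [MeasurableSpace E] {P : Measure E} {K : Set E} (hK : MeasurableSet K)
    {x : E → ℕ → ℝ} (hx : ∀ j, Measurable fun φ => x φ j) (hm : ∀ φ, Monotone (x φ))
    (h : ∀ q, (∃ φ, 0 < x φ q) → ∃ C : ℝ, ∀ ε > 0,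
      P (K ∩ {φ | x φ (q + 1) - x φ q ≤ ε}) ≤ ENNReal.ofReal (C * ε ^ 2)) {T : ℝ}
    (hN : ∃ N, ∀ φ ∈ K, ∀ j, x φ j ≤ T → j < N) :
    ∃ C : ℝ, ∀ ε > 0, ∫⁻ φ in K, (ENNReal.ofReal T⁻¹ • Measure.sum fun p : Prs T (x φ) =>
      Measure.dirac (x φ p.1.1 - x φ p.1.2)) (Icc (-ε) ε) ∂P ≤ ENNReal.ofReal (C * ε ^ 2) := by
  classical
  obtain ⟨N, hN⟩ := hN
  have h' : ∀ q, ∃ C : ℝ, 0 ≤ C ∧ ∀ ε > 0,
      P (K ∩ {φ | 0 < x φ q ∧ x φ (q + 1) - x φ q ≤ ε}) ≤ ENNReal.ofReal (C * ε ^ 2) := by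
    intro q
    by_cases hq : ∃ φ, 0 < x φ q
    · obtain ⟨C, hC⟩ := h q hq
      refine ⟨max C 0, le_max_right _ _, fun ε hε => ?_⟩
      refine (measure_mono ?_).trans ((hC ε hε).trans (ENNReal.ofReal_le_ofReal ?_))
      · exact inter_subset_inter_right _ fun φ hφ => hφ.2
      · exact mul_le_mul_of_nonneg_right (le_max_left _ _) (sq_nonneg _)
    · refine ⟨0, le_rfl, fun ε hε => ?_⟩
      have h0 : K ∩ {φ | 0 < x φ q ∧ x φ (q + 1) - x φ q ≤ ε} = ∅ := by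
        rw [eq_empty_iff_forall_notMem]
        rintro φ ⟨-, h1, -⟩
        exact hq ⟨φ, h1⟩
      rw [h0, measure_empty]
      exact zero_le
  choose c hc0 hc using h'
  refine ⟨|T⁻¹| * ∑ p ∈ Finset.range N ×ˢ Finset.range N, c (min p.1 p.2), fun ε hε => ?_⟩
  have h1 : ∀ φ ∈ K, (ENNReal.ofReal T⁻¹ • Measure.sum fun p : Prs T (x φ) =>
      Measure.dirac (x φ p.1.1 - x φ p.1.2)) (Icc (-ε) ε) ≤
      ENNReal.ofReal |T⁻¹| * ∑ p ∈ Finset.range N ×ˢ Finset.range N,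
        {φ | 0 < x φ (min p.1 p.2) ∧ x φ (min p.1 p.2 + 1) - x φ (min p.1 p.2) ≤ ε}.indicator
          1 φ := by
    intro φ hφ
    rw [Measure.smul_apply, smul_eq_mul]
    refine mul_le_mul' (ENNReal.ofReal_le_ofReal (le_abs_self _)) ?_
    refine (pc_le (hm φ) (hN φ hφ) ε).trans (le_of_eq ?_)
    refine Finset.sum_congr rfl fun p _ => ?_
    rw [indicator_apply]
    rfl
  have hms : ∀ q : ℕ, MeasurableSet {φ | 0 < x φ q ∧ x φ (q + 1) - x φ q ≤ ε} := fun q =>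
    (measurableSet_lt measurable_const (hx q)).inter
      (measurableSet_le ((hx (q + 1)).sub (hx q)) measurable_const)
  refine (setLIntegral_mono' hK h1).trans ?_
  rw [lintegral_const_mul' _ _ ENNReal.ofReal_ne_top, lintegral_finset_sum _ fun p _ =>
    measurable_one.indicator (hms _), mul_assoc, ENNReal.ofReal_mul (abs_nonneg _)]
  refine mul_le_mul' le_rfl ?_
  rw [Finset.sum_mul, ENNReal.ofReal_sum_of_nonneg fun p _ =>
    mul_nonneg (hc0 _) (sq_nonneg _)]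
  refine Finset.sum_le_sum fun p _ => ?_
  rw [lintegral_indicator_one (hms _), Measure.restrict_apply (hms _), inter_comm]
  exact hc _ ε hε

end Pool.Agent.H23.LR
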