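import Pool.Agent.H23.LR.Sq
import Pool.Agent.H23.LR.Cons
import Pool.Agent.H23.LR.Pair

/-!
# Level repulsion: the number of the levels
-/

set_option autoImplicit false
set_option linter.unusedSectionVars false

open Set Filter Topology MeasureTheory
open scoped ENNReal
open Pool.Agent.Y262.QE Pool.Agent.Y264.QR Pool.Agent.Y319.QR Q101.QG
open Pool.Agent.Q233 Pool.Agent.Q233.GLV

noncomputable section

namespace Pool.Agent.H23.LR

variable {M : Type} [MetricSpace M] [CompactSpace M] [MeasurableSpace M] [BorelSpace M]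
  {μ : Measure M} {D : Data M} [Nonempty M]

/-- the levels below a bound have bounded indices on compact sets of conformal factors -/
theorem few (hD : D.IsSurf μ) (x : C(M, ℝ) → ℕ → ℝ)
    (hx : ∀ φ, ∃ (u : ℕ → M → ℝ) (lam : ℕ → ℝ),
      EigBasis (D.conf fun x => Real.exp (φ x)) (wm μ fun x => Real.exp (φ x)) u lam ∧
        ∀ j, x φ j = (wm μ fun y => Real.exp (φ y)).real univ * lam j / (4 * Real.pi))
    {K : Set C(M, ℝ)} (hK : IsCompact K) (T : ℝ) : ∃ N, ∀ φ ∈ K, ∀ j, x φ j ≤ T → j < N := by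
  obtain ⟨hf, hcs, i, a, b, hSf, hi, ha, hB, hpos, hEv⟩ := setup μ D hD
  have hxE : ∀ φ j, x φ j = (∫ x, Real.exp (φ x) ∂μ) * Ev a (b φ) j / (4 * Real.pi) := by
    intro φ j
    obtain ⟨u, lam, hu, hl⟩ := hx φ
    rw [hl, hEv φ u lam hu]
  obtain ⟨hF, hcmp, -⟩ := forms μ i a b hSf hB
  obtain ⟨hnn, hmono, hexp, -, -⟩ := tLip M μ _ a b hF hcmp
  obtain ⟨R, hR⟩ := hK.isBounded.exists_norm_le
  have hA : Continuous fun φ : C(M, ℝ) => (∫ x, Real.exp (φ x) ∂μ)⁻¹ :=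
    ((Pool.Agent.Y689.QR.int_cont μ).comp Pool.Agent.Y689.QR.exp_cont).inv₀
      fun φ => (hpos φ).ne'
  obtain ⟨Y, hY⟩ := hK.exists_bound_of_continuousOn hA.continuousOn
  obtain ⟨e, E, hE⟩ := tSp _ a (b 0) (hF 0)
  have hm0 := Pool.Agent.Y592.QE.mm _ a (b 0) (hF 0) e E hE
  obtain ⟨Q, hQ⟩ : ∃ Q, Q = Real.exp R * ((|Y| + 1) * (4 * Real.pi * (|T| + 1))) := ⟨_, rfl⟩
  obtain ⟨N, hN⟩ := (hE.tt.eventually (eventually_gt_atTop Q)).exists_forall_of_atTop
  refine ⟨N, fun φ hφ j hj => ?_⟩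
  by_contra hcon
  push Not at hcon
  have h1 := hN j hcon
  rw [← hm0 j] at h1
  have h2 := hexp 0 φ j
  rw [zero_sub, norm_neg] at h2
  have h3 : Real.exp ‖φ‖ * Ev a (b φ) j ≤ Real.exp R * Ev a (b φ) j :=
    mul_le_mul_of_nonneg_right (Real.exp_le_exp.2 (hR φ hφ)) (hnn φ j)
  rw [hxE] at hj
  have h4 : (∫ x, Real.exp (φ x) ∂μ) * Ev a (b φ) j ≤ 4 * Real.pi * (|T| + 1) := by
    rw [div_le_iff₀ (by positivity)] at hj
    have h5 : T * (4 * Real.pi) ≤ (|T| + 1) * (4 * Real.pi) :=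
      mul_le_mul_of_nonneg_right (by linarith [le_abs_self T]) (by positivity)
    linarith
  have h6 := hY φ hφ
  have h7 := hpos φ
  rw [Real.norm_eq_abs, abs_of_pos (inv_pos.2 h7)] at h6
  have h8 : Ev a (b φ) j ≤ (|Y| + 1) * (4 * Real.pi * (|T| + 1)) := by
    have h9 : Ev a (b φ) j = (∫ x, Real.exp (φ x) ∂μ)⁻¹ *
        ((∫ x, Real.exp (φ x) ∂μ) * Ev a (b φ) j) := by
      rw [← mul_assoc, inv_mul_cancel₀ h7.ne', one_mul]
    rw [h9]
    refine mul_le_mul (h6.trans (by linarith [le_abs_self Y])) h4 ?_ (by positivity)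
    exact mul_nonneg h7.le (hnn φ j)
  have h9 : Real.exp R * Ev a (b φ) j ≤ Q := by
    rw [hQ]
    exact mul_le_mul_of_nonneg_left h8 (Real.exp_pos _).le
  linarith

end Pool.Agent.H23.LR
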