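import Pool.Agent.H23.LR.Fin
import Pool.Agent.H23.LR.Low

/-!
# Level repulsion: the lower bound for surfaces
-/

set_option autoImplicit false
set_option linter.unusedSectionVars false

open Set Filter Topology MeasureTheory
open scoped ENNReal
open Pool.Agent.Y262.QE Pool.Agent.Y264.QR Pool.Agent.Y319.QR Q101.QG
open Pool.Agent.Q233 Pool.Agent.Q233.GLV

noncomputable section

namespace Pool.Agent.H23.LR

variable {M : Type} [MetricSpace M] [CompactSpace M] [MeasurableSpace M] [BorelSpace M]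
  {μ : Measure M} {D : Data M} [Nonempty M]

/-- **the lower bound near a double eigenvalue** -/
theorem lr_low (hcont : UC.StCont) (hucp : UC.StUCP) [ConnectedSpace M] (hD : D.IsSurf μ)
    (hiso : ∀ p, ∀ z ∈ D.T p, ∃ c : ℝ, ∀ v, ‖D.A p z v‖ = c * ‖v‖)
    [MeasurableSpace C(M, ℝ)] [BorelSpace C(M, ℝ)] {P : Measure C(M, ℝ)}
    {S : Set C(M, ℝ)} (hS : Dense (Submodule.span ℝ S : Set C(M, ℝ))) {φ₀ : C(M, ℝ)}
    (hP : ∀ h ∈ S, ∀ k ∈ S, LinearIndependent ℝ ![h, k] → UC.LowDir2 P h k φ₀)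
    (x : C(M, ℝ) → ℕ → ℝ)
    (hx : ∀ φ, ∃ (u : ℕ → M → ℝ) (lam : ℕ → ℝ),
      EigBasis (D.conf fun x => Real.exp (φ x)) (wm μ fun x => Real.exp (φ x)) u lam ∧
        ∀ j, x φ j = (wm μ fun y => Real.exp (φ y)).real univ * lam j / (4 * Real.pi))
    {q : ℕ} (hq : 0 < x φ₀ q) (hdbl : ∀ l, x φ₀ l = x φ₀ q ↔ l = q ∨ l = q + 1)
    {V : Set C(M, ℝ)} (hV : V ∈ 𝓝 φ₀) (hVm : MeasurableSet V) :
    ∃ c > 0, ∀ ε, 0 < ε → ε ≤ 1 →
      ENNReal.ofReal (c * ε ^ 2) ≤ P (V ∩ {φ | x φ (q + 1) - x φ q ≤ ε}) := by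
  obtain ⟨hf, hcs, i, a, b, hSf, hi, ha, hB, hpos, hEv⟩ := setup μ D hD
  have hxE : ∀ φ j, x φ j = (∫ x, Real.exp (φ x) ∂μ) * Ev a (b φ) j / (4 * Real.pi) := by
    intro φ j
    obtain ⟨u, lam, hu, hl⟩ := hx φ
    rw [hl, hEv φ u lam hu]
  obtain ⟨hF, hcmp, -⟩ := forms μ i a b hSf hB
  obtain ⟨hnn, hmono, -, hcont', -⟩ := tLip M μ _ a b hF hcmp
  have hpi : 0 < 4 * Real.pi := by positivity
  have hq' : ∃ φ, 0 < Ev a (b φ) q := by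
    refine ⟨φ₀, ?_⟩
    rw [hxE, div_pos_iff_of_pos_right hpi] at hq
    exact (pos_iff_pos_of_mul_pos hq).1 (hpos φ₀)
  obtain ⟨m, hmq, hm0, hmp⟩ := first_pos hSf hB hq'
  have hns := no_split hcont hucp hD hiso hi ha hB
  -- the basis at `φ₀`
  obtain ⟨e, E, hE⟩ := tSp _ a (b φ₀) (hF φ₀)
  have hmm := Pool.Agent.Y592.QE.mm _ a (b φ₀) (hF φ₀) e E hE
  have hdbl' : ∀ l, E l = E q ↔ l = q ∨ l = q + 1 := by
    intro l
    rw [← hdbl l, ← hmm, ← hmm, hxE, hxE]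
    have h1 := hpos φ₀
    constructor
    · intro h
      rw [h]
    · intro h
      have h2 : (∫ x, Real.exp (φ₀ x) ∂μ) * Ev a (b φ₀) l =
          (∫ x, Real.exp (φ₀ x) ∂μ) * Ev a (b φ₀) q := by
        rwa [div_left_inj' hpi.ne'] at h
      exact mul_left_cancel₀ h1.ne' h2
  have hu : Tp a b q φ₀ e := ⟨fun i j _ _ => hE.orth i j, fun j _ v => by
    rw [hE.eig j v, hmm]⟩
  obtain ⟨hs, hsS, hsd⟩ := ctb_total hS
  obtain ⟨n, l, hne⟩ := dt_ne hSf hB hmp hmq hns hsd φ₀ e hu (by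
    rw [hmm, hmm, (hdbl' (q + 1)).2 (Or.inr rfl)])
  have hind : LinearIndependent ℝ ![hs n, hs l] := by
    by_contra hcon
    exact hne (dt_dep hB hcon φ₀ e)
  -- the neighbourhood
  have hA : Continuous fun φ : C(M, ℝ) => ∫ x, Real.exp (φ x) ∂μ :=
    (Pool.Agent.Y689.QR.int_cont μ).comp Pool.Agent.Y689.QR.exp_cont
  obtain ⟨A₀, hA₀⟩ : ∃ A₀, A₀ = (∫ x, Real.exp (φ₀ x) ∂μ) + 1 := ⟨_, rfl⟩
  have hA₀0 : 0 < A₀ := by rw [hA₀]; linarith [hpos φ₀]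
  obtain ⟨W, hW⟩ : ∃ W : Set C(M, ℝ), W = {φ : C(M, ℝ) | (∫ x, Real.exp (φ x) ∂μ) < A₀} ∩
    {φ : C(M, ℝ) | ‖φ‖ < ‖φ₀‖ + 1} := ⟨_, rfl⟩
  have hWo : IsOpen W := by
    rw [hW]
    exact (isOpen_lt hA continuous_const).inter (isOpen_lt continuous_norm continuous_const)
  have hW0 : φ₀ ∈ W := by
    rw [hW]
    refine ⟨?_, ?_⟩
    · show (∫ x, Real.exp (φ₀ x) ∂μ) < A₀
      rw [hA₀]
      linarith
    · show ‖φ₀‖ < ‖φ₀‖ + 1
      linarith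
  obtain ⟨c, hc, hlow⟩ := prob_low hSf hB hm0 hmp hmq hE hdbl' hne
    (Filter.inter_mem hV (hWo.mem_nhds hW0)) (hP _ (hsS n) _ (hsS l) hind)
    (hVm.inter hWo.measurableSet)
  obtain ⟨B, hB0, Z, hZ0, hBZ⟩ := ev_bds μ hF hcmp hmp q (‖φ₀‖ + 1)
  obtain ⟨Y, hY⟩ : ∃ Y, Y = A₀ * (Z * Z) + 1 := ⟨_, rfl⟩
  have hY0 : 0 < Y := by rw [hY]; positivity
  have hY1 : 1 ≤ Y := by
    rw [hY]
    have : 0 ≤ A₀ * (Z * Z) := by positivity
    linarith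
  refine ⟨c / Y ^ 2, by positivity, fun ε hε hε1 => ?_⟩
  have h1 := hlow (ε / Y) (by positivity) (by
    rw [div_le_one hY0]
    linarith)
  have e1 : c * (ε / Y) ^ 2 = c / Y ^ 2 * ε ^ 2 := by
    field_simp
  rw [e1] at h1
  refine h1.trans (measure_mono ?_)
  rintro φ ⟨⟨hφV, hφW⟩, hφε⟩
  refine ⟨hφV, ?_⟩
  rw [hW] at hφW
  obtain ⟨hφA, hφR⟩ := hφW
  have hφε' : dl a b q φ ≤ ε / Y := hφε
  obtain ⟨-, hZ1⟩ := hBZ φ (le_of_lt hφR)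
  show x φ (q + 1) - x φ q ≤ ε
  have h2 := hmp q hmq φ
  have h3 := hmp (q + 1) (by omega) φ
  have h4 := hZ1 q (by omega)
  have h5 := hZ1 (q + 1) (by omega)
  have h6 := hmono φ q (q + 1) (by omega)
  have h7 := hpos φ
  have hδ0 : 0 ≤ dl a b q φ := by
    unfold dl
    rw [sub_nonneg]
    exact inv_anti₀ h2 h6
  have e2 : Ev a (b φ) (q + 1) - Ev a (b φ) q =
      dl a b q φ * (Ev a (b φ) q * Ev a (b φ) (q + 1)) := by
    unfold dl iv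
    field_simp
  have h8 : Ev a (b φ) q * Ev a (b φ) (q + 1) ≤ Z * Z := mul_le_mul h4 h5 h3.le hZ0.le
  have h9 : x φ (q + 1) - x φ q ≤ (∫ x, Real.exp (φ x) ∂μ) *
      (Ev a (b φ) (q + 1) - Ev a (b φ) q) := by
    rw [hxE, hxE, ← sub_div, ← mul_sub, div_le_iff₀ hpi]
    have h10 : 0 ≤ (∫ x, Real.exp (φ x) ∂μ) * (Ev a (b φ) (q + 1) - Ev a (b φ) q) :=
      mul_nonneg h7.le (by linarith)
    have h11 : 1 ≤ 4 * Real.pi := by linarith [Real.pi_gt_three]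
    nlinarith
  refine h9.trans ?_
  have hφA' : (∫ x, Real.exp (φ x) ∂μ) ≤ A₀ := le_of_lt hφA
  calc (∫ x, Real.exp (φ x) ∂μ) * (Ev a (b φ) (q + 1) - Ev a (b φ) q) ≤
      A₀ * (Ev a (b φ) (q + 1) - Ev a (b φ) q) :=
        mul_le_mul_of_nonneg_right hφA' (by linarith)
    _ = A₀ * (dl a b q φ * (Ev a (b φ) q * Ev a (b φ) (q + 1))) := by rw [e2]
    _ ≤ A₀ * (dl a b q φ * (Z * Z)) := by gcongr
    _ = (A₀ * (Z * Z)) * dl a b q φ := by ring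
    _ ≤ Y * dl a b q φ := mul_le_mul_of_nonneg_right (by rw [hY]; linarith) hδ0
    _ ≤ Y * (ε / Y) := mul_le_mul_of_nonneg_left hφε' hY0.le
    _ = ε := by field_simp

/-- **the lower bound of the pair correlation measure** -/
theorem pc_low (hcont : UC.StCont) (hucp : UC.StUCP) [ConnectedSpace M] (hD : D.IsSurf μ)
    (hiso : ∀ p, ∀ z ∈ D.T p, ∃ c : ℝ, ∀ v, ‖D.A p z v‖ = c * ‖v‖)
    [MeasurableSpace C(M, ℝ)] [BorelSpace C(M, ℝ)] {P : Measure C(M, ℝ)}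
    {S : Set C(M, ℝ)} (hS : Dense (Submodule.span ℝ S : Set C(M, ℝ))) {φ₀ : C(M, ℝ)}
    (hP : ∀ h ∈ S, ∀ k ∈ S, LinearIndependent ℝ ![h, k] → UC.LowDir2 P h k φ₀)
    (x : C(M, ℝ) → ℕ → ℝ)
    (hx : ∀ φ, ∃ (u : ℕ → M → ℝ) (lam : ℕ → ℝ),
      EigBasis (D.conf fun x => Real.exp (φ x)) (wm μ fun x => Real.exp (φ x)) u lam ∧
        ∀ j, x φ j = (wm μ fun y => Real.exp (φ y)).real univ * lam j / (4 * Real.pi))
    {q : ℕ} (hq : 0 < x φ₀ q) (hdbl : ∀ l, x φ₀ l = x φ₀ q ↔ l = q ∨ l = q + 1)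
    {T : ℝ} (hT : x φ₀ q < T) :
    ∃ c > 0, ∀ ε, 0 < ε → ε ≤ 1 →
      ENNReal.ofReal (c * ε ^ 2) ≤ ∫⁻ φ, (ENNReal.ofReal T⁻¹ • Measure.sum
        fun p : Prs T (x φ) => Measure.dirac (x φ p.1.1 - x φ p.1.2)) (Icc (-ε) ε) ∂P := by
  obtain ⟨V, hV⟩ : ∃ V : Set C(M, ℝ), V = {φ : C(M, ℝ) | x φ (q + 1) < T} ∩
    {φ : C(M, ℝ) | 0 < x φ q} := ⟨_, rfl⟩
  have hVo : IsOpen V := by
    rw [hV]
    exact (isOpen_lt (lev_c μ D hD x hx (q + 1)) continuous_const).inter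
      (isOpen_lt continuous_const (lev_c μ D hD x hx q))
  have hV0 : φ₀ ∈ V := by
    rw [hV]
    refine ⟨?_, hq⟩
    show x φ₀ (q + 1) < T
    rw [(hdbl (q + 1)).2 (Or.inr rfl)]
    exact hT
  obtain ⟨c, hc, hlow⟩ := lr_low hcont hucp hD hiso hS hP x hx hq hdbl (hVo.mem_nhds hV0)
    hVo.measurableSet
  have hT0 : 0 < T := hq.trans hT
  refine ⟨T⁻¹ * c, by positivity, fun ε hε hε1 => ?_⟩
  have h1 : MeasurableSet (V ∩ {φ | x φ (q + 1) - x φ q ≤ ε}) :=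
    hVo.measurableSet.inter (measurableSet_le ((lev_c μ D hD x hx (q + 1)).measurable.sub
      (lev_c μ D hD x hx q).measurable) measurable_const)
  have h2 : ∀ φ ∈ V ∩ {φ | x φ (q + 1) - x φ q ≤ ε}, ENNReal.ofReal T⁻¹ ≤
      (ENNReal.ofReal T⁻¹ • Measure.sum fun p : Prs T (x φ) =>
        Measure.dirac (x φ p.1.1 - x φ p.1.2)) (Icc (-ε) ε) := by
    rintro φ ⟨hφV, hφε⟩
    rw [hV] at hφV
    obtain ⟨g1, g2⟩ := hφV
    have g1' : x φ (q + 1) < T := g1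
    have g2' : 0 < x φ q := g2
    have g3 : x φ (q + 1) - x φ q ≤ ε := hφε
    have g4 : x φ q ≤ x φ (q + 1) := lev_mono x hx φ (by omega)
    rw [Measure.smul_apply, smul_eq_mul]
    refine le_mul_of_one_le_right zero_le ?_
    obtain ⟨p, hp⟩ : ∃ p : Prs T (x φ), p.1 = (q + 1, q) :=
      ⟨⟨(q + 1, q), by omega, ⟨g2'.trans_le g4, g1'.le⟩, ⟨g2', g4.trans g1'.le⟩⟩, rfl⟩
    refine le_trans ?_ (Measure.le_sum_apply _ _)
    refine le_trans ?_ (ENNReal.le_tsum p)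
    rw [hp, Measure.dirac_apply' _ measurableSet_Icc, indicator_of_mem]
    · rfl
    · exact ⟨by simp only; linarith, g3⟩
  calc ENNReal.ofReal (T⁻¹ * c * ε ^ 2) = ENNReal.ofReal T⁻¹ * ENNReal.ofReal (c * ε ^ 2) := by
        rw [← ENNReal.ofReal_mul (by positivity)]
        congr 1
        ring
    _ ≤ ENNReal.ofReal T⁻¹ * P (V ∩ {φ | x φ (q + 1) - x φ q ≤ ε}) :=
        mul_le_mul' le_rfl (hlow ε hε hε1)
    _ = ∫⁻ _ in V ∩ {φ | x φ (q + 1) - x φ q ≤ ε}, ENNReal.ofReal T⁻¹ ∂P := by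
        rw [setLIntegral_const]
    _ ≤ ∫⁻ φ in V ∩ {φ | x φ (q + 1) - x φ q ≤ ε}, (ENNReal.ofReal T⁻¹ • Measure.sum
        fun p : Prs T (x φ) => Measure.dirac (x φ p.1.1 - x φ p.1.2)) (Icc (-ε) ε) ∂P :=
        setLIntegral_mono' h1 h2
    _ ≤ _ := setLIntegral_le_lintegral _ _

end Pool.Agent.H23.LR
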