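import Pool.Agent.H23.LR.Fin2
import Pool.Agent.H23.LR.Fin3

/-!
# Level repulsion: lower bounds for connected surfaces
-/

set_option autoImplicit false
set_option linter.unusedSectionVars false

open Set Filter Topology MeasureTheory
open scoped ENNReal
open Pool.Agent.Y262.QE Pool.Agent.Y264.QR Pool.Agent.Y319.QR Q101.QG
open Pool.Agent.Q233 Pool.Agent.Q233.GLV

noncomputable section

namespace Pool.Agent.H23.LR

variable {M : Type} [MetricSpace M] [CompactSpace M] [MeasurableSpace M] [BorelSpace M]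
  {μ : Measure M} {D : Data M} [Nonempty M]

/-- **the lower bounds near an exactly double eigenvalue** -/
theorem lr_low_all (hcont : UC.StCont) (hucp : UC.StUCP) [ConnectedSpace M] (hD : D.IsSurf μ)
    (hiso : ∀ p, ∀ z ∈ D.T p, ∃ c : ℝ, ∀ v, ‖D.A p z v‖ = c * ‖v‖)
    [MeasurableSpace C(M, ℝ)] [BorelSpace C(M, ℝ)] {P : Measure C(M, ℝ)}
    {S : Set C(M, ℝ)} (hS : Dense (Submodule.span ℝ S : Set C(M, ℝ))) {φ₀ : C(M, ℝ)}
    (hP : ∀ h ∈ S, ∀ k ∈ S, LinearIndependent ℝ ![h, k] → UC.LowDir2 P h k φ₀)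
    {x : C(M, ℝ) → ℕ → ℝ} (hx : Lev μ D x)
    {q : ℕ} (hdbl : ∀ l, x φ₀ l = x φ₀ q ↔ l = q ∨ l = q + 1) :
    (∃ c > 0, ∀ ε, 0 < ε → ε ≤ 1 →
      ENNReal.ofReal (c * ε ^ 2) ≤ P {φ | x φ (q + 1) - x φ q ≤ ε}) ∧
    ∀ T, x φ₀ q < T → ∃ c > 0, ∀ ε, 0 < ε → ε ≤ 1 →
      ENNReal.ofReal (c * ε ^ 2) ≤ ∫⁻ φ, pcm T (x φ) (Icc (-ε) ε) ∂P ∧
      ENNReal.ofReal (c * ε ^ 2) ≤ ∫⁻ φ, spm T (x φ) (Iic ε) ∂P := by
  have hq : 0 < x φ₀ q := by
    rw [← (hdbl (q + 1)).2 (Or.inr rfl)]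
    exact (lev_pos hD hx φ₀).2 (q + 1) (by omega)
  constructor
  · obtain ⟨c, hc, h1⟩ := lr_low hcont hucp hD hiso hS hP x hx hq hdbl (V := univ) univ_mem
      MeasurableSet.univ
    refine ⟨c, hc, fun ε hε hε1 => ?_⟩
    have h2 := h1 ε hε hε1
    rwa [univ_inter] at h2
  · intro T hT
    obtain ⟨V, hV⟩ : ∃ V : Set C(M, ℝ), V = {φ : C(M, ℝ) | x φ (q + 1) < T} := ⟨_, rfl⟩
    have hVo : IsOpen V := by
      rw [hV]
      exact isOpen_lt (lev_c μ D hD x hx (q + 1)) continuous_const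
    have hV0 : φ₀ ∈ V := by
      rw [hV]
      show x φ₀ (q + 1) < T
      rw [(hdbl (q + 1)).2 (Or.inr rfl)]
      exact hT
    exact pair_spac_low (fun j => (lev_c μ D hD x hx j).measurable) (lev_mono' hx) (hq.trans hT)
      hVo.measurableSet (fun φ hφ => by
        rw [hV] at hφ
        exact hφ) (lr_low hcont hucp hD hiso hS hP x hx hq hdbl (hVo.mem_nhds hV0)
        hVo.measurableSet)

end Pool.Agent.H23.LR
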