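import Pool.Agent.H23.LR.Line

/-!
# Level repulsion: the integral over a line of conformal factors
-/

set_option autoImplicit false
set_option linter.unusedSectionVars false

open Set Filter Topology MeasureTheory
open Pool.Agent.Y262.QE Pool.Agent.Y264.QR Q101.QG
open Pool.Agent.Q233 Pool.Agent.Q233.GLV

noncomputable section

namespace Pool.Agent.H23.LR

/-- the integral of the second differences -/
lemma int_sd {f : ℝ → ℝ} (hf : Continuous f) {τ L α β : ℝ} (hτ : 0 < τ) (hL : 0 ≤ L)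
    (hαβ : α ≤ β) (h : ∀ t, α - τ ≤ t → t ≤ β → |f (t + τ) - f t| ≤ L * τ) :
    ∫ t in α..β, (f (t + τ) + f (t - τ) - 2 * f t) ≤ 2 * L * τ ^ 2 := by
  obtain ⟨G, hG⟩ : ∃ G : ℝ → ℝ, G = fun t => f (t + τ) - f t := ⟨_, rfl⟩
  have hGc : Continuous G := by rw [hG]; fun_prop
  have hGi : ∀ x y : ℝ, IntervalIntegrable G volume x y := fun x y => hGc.intervalIntegrable x y
  have h1 : ∫ t in α..β, (f (t + τ) + f (t - τ) - 2 * f t) =
      (∫ t in α..β, G t) - ∫ t in (α - τ)..(β - τ), G t := by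
    rw [← intervalIntegral.integral_comp_sub_right, ← intervalIntegral.integral_sub (hGi _ _)]
    · refine intervalIntegral.integral_congr fun t _ => ?_
      rw [hG]
      simp only [sub_add_cancel]
      ring
    · exact (hGc.comp (continuous_id.sub continuous_const)).intervalIntegrable _ _
  have h2 : (∫ t in α..β, G t) - ∫ t in (α - τ)..(β - τ), G t =
      (∫ t in (β - τ)..β, G t) - ∫ t in (α - τ)..α, G t := by
    have h3 := intervalIntegral.integral_add_adjacent_intervals (hGi (α - τ) α) (hGi α β)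
    have h4 := intervalIntegral.integral_add_adjacent_intervals (hGi (α - τ) (β - τ)) (hGi (β - τ) β)
    linarith
  have h3 : |∫ t in (β - τ)..β, G t| ≤ L * τ * |β - (β - τ)| := by
    rw [← Real.norm_eq_abs]
    refine intervalIntegral.norm_integral_le_of_norm_le_const fun t ht => ?_
    rw [uIoc_of_le (by linarith)] at ht
    rw [hG, Real.norm_eq_abs]
    exact h t (by linarith [ht.1]) ht.2
  have h4 : |∫ t in (α - τ)..α, G t| ≤ L * τ * |α - (α - τ)| := by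
    rw [← Real.norm_eq_abs]
    refine intervalIntegral.norm_integral_le_of_norm_le_const fun t ht => ?_
    rw [uIoc_of_le (by linarith)] at ht
    rw [hG, Real.norm_eq_abs]
    exact h t (by linarith [ht.1]) (by linarith [ht.2])
  rw [sub_sub_cancel, abs_of_pos hτ] at h3 h4
  rw [h1, h2]
  have h5 := (abs_le.1 h3).2
  have h6 := (abs_le.1 h4).1
  nlinarith

/-- the integral of a function which is bounded by the second difference -/
lemma int_le {f g : ℝ → ℝ} (hf : Continuous f) {τ L C α β : ℝ} (hτ : 0 < τ) (hL : 0 ≤ L)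
    (hαβ : α ≤ β) (h : ∀ t, α - τ ≤ t → t ≤ β → |f (t + τ) - f t| ≤ L * τ)
    (hg : ∀ t ∈ Ioc α β, g t ≤ (f (t + τ) + f (t - τ) - 2 * f t) / τ ^ 2 + C)
    (hp : ∀ t ∈ Ioc α β, 0 ≤ (f (t + τ) + f (t - τ) - 2 * f t) / τ ^ 2 + C) :
    ∫⁻ t in Ioc α β, ENNReal.ofReal (g t) ≤ ENNReal.ofReal (2 * L + C * (β - α)) := by
  obtain ⟨G, hG⟩ : ∃ G : ℝ → ℝ, G = fun t => (f (t + τ) + f (t - τ) - 2 * f t) / τ ^ 2 + C :=
    ⟨_, rfl⟩
  have hGc : Continuous G := by rw [hG]; fun_prop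
  have h1 : ∫⁻ t in Ioc α β, ENNReal.ofReal (g t) ≤ ∫⁻ t in Ioc α β, ENNReal.ofReal (G t) := by
    refine setLIntegral_mono (hGc.measurable.ennreal_ofReal) fun t ht => ?_
    rw [hG]
    exact ENNReal.ofReal_le_ofReal (hg t ht)
  refine h1.trans ?_
  rw [← ofReal_integral_eq_lintegral_ofReal]
  · refine ENNReal.ofReal_le_ofReal ?_
    rw [← intervalIntegral.integral_of_le hαβ, hG]
    rw [intervalIntegral.integral_add, intervalIntegral.integral_div,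
      intervalIntegral.integral_const, smul_eq_mul]
    · have h2 := int_sd hf hτ hL hαβ h
      have h3 : (∫ t in α..β, (f (t + τ) + f (t - τ) - 2 * f t)) / τ ^ 2 ≤ 2 * L := by
        rw [div_le_iff₀ (by positivity)]
        exact h2
      linarith
    · have : Continuous fun t => (f (t + τ) + f (t - τ) - 2 * f t) / τ ^ 2 := by fun_prop
      exact this.intervalIntegrable _ _
    · exact continuous_const.intervalIntegrable _ _
  · exact hGc.integrableOn_Ioc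
  · refine (ae_restrict_iff' measurableSet_Ioc).2 (Eventually.of_forall fun t ht => ?_)
    rw [hG]
    exact hp t ht

variable {M : Type} [MetricSpace M] [CompactSpace M] [MeasurableSpace M] [BorelSpace M]
  {μ : Measure M} [IsFiniteMeasure μ] {H : Type} [NormedAddCommGroup H] [InnerProductSpace ℝ H]
  {i : H →L[ℝ] Lp ℝ 2 μ} {a : H →L[ℝ] H →L[ℝ] ℝ} {b : C(M, ℝ) → H →L[ℝ] H →L[ℝ] ℝ} {m q : ℕ}

lemma iv_cont (hF : ∀ φ, Fm a (b φ)) (μ : Measure M) [IsFiniteMeasure μ]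
    (hcmp : ∀ (φ ψ : C(M, ℝ)) (v : H), b φ v v ≤ Real.exp ‖φ - ψ‖ * b ψ v v)
    (hmp : ∀ j, m ≤ j → ∀ φ, 0 < Ev a (b φ) j) {j : ℕ} (hj : m ≤ j) :
    Continuous (iv a b j) := by
  obtain ⟨-, -, -, hcont, -⟩ := tLip M μ H a b hF hcmp
  exact (hcont j).inv₀ fun φ => (hmp j hj φ).ne'

lemma sm_cont (hF : ∀ φ, Fm a (b φ)) (μ : Measure M) [IsFiniteMeasure μ]
    (hcmp : ∀ (φ ψ : C(M, ℝ)) (v : H), b φ v v ≤ Real.exp ‖φ - ψ‖ * b ψ v v)
    (hmp : ∀ j, m ≤ j → ∀ φ, 0 < Ev a (b φ) j) (q : ℕ) : Continuous (Sm a b m q) := by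
  unfold Sm
  exact continuous_finsetSum _ fun j hj => iv_cont hF μ hcmp hmp (Finset.mem_Ico.1 hj).1

lemma sm_lip (hF : ∀ φ, Fm a (b φ)) (μ : Measure M) [IsFiniteMeasure μ]
    (hcmp : ∀ (φ ψ : C(M, ℝ)) (v : H), b φ v v ≤ Real.exp ‖φ - ψ‖ * b ψ v v)
    (hmp : ∀ j, m ≤ j → ∀ φ, 0 < Ev a (b φ) j) {B R : ℝ} (hB0 : 0 < B)
    (hB : ∀ φ : C(M, ℝ), ‖φ‖ ≤ R → ∀ j, m ≤ j → iv a b j φ ≤ B) {φ ψ : C(M, ℝ)} (hφ : ‖φ‖ ≤ R)
    (hψ : ‖ψ‖ ≤ R) (hd : ‖φ - ψ‖ ≤ 1 / 2) :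
    |Sm a b m q φ - Sm a b m q ψ| ≤ (q + 1 : ℝ) * (2 * B) * ‖φ - ψ‖ := by
  obtain ⟨hnn, hmono, hexp, -, -⟩ := tLip M μ H a b hF hcmp
  have key : ∀ φ ψ : C(M, ℝ), ‖ψ‖ ≤ R → ‖φ - ψ‖ ≤ 1 / 2 → ∀ j, m ≤ j →
      iv a b j φ - iv a b j ψ ≤ 2 * B * ‖φ - ψ‖ := by
    intro φ ψ hψ hd j hj
    have h1 := hexp ψ φ j
    have h2 := hmp j hj φ
    have h3 := hmp j hj ψ
    rw [norm_sub_rev] at h1
    obtain ⟨s, hs⟩ : ∃ s, s = ‖φ - ψ‖ := ⟨_, rfl⟩
    rw [← hs] at h1 hd ⊢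
    have hs0 : 0 ≤ s := by rw [hs]; exact norm_nonneg _
    have h4 : Real.exp s ≤ 1 + 2 * s := by
      have := Real.abs_exp_sub_one_le (x := s) (by rw [abs_of_nonneg hs0]; linarith)
      rw [abs_of_nonneg hs0] at this
      linarith [(abs_le.1 this).2]
    have h5 : iv a b j φ ≤ (1 + 2 * s) * iv a b j ψ := by
      unfold iv
      rw [← div_eq_mul_inv, le_div_iff₀ h3, inv_mul_le_iff₀ h2, mul_comm]
      exact h1.trans (mul_le_mul_of_nonneg_right h4 h2.le)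
    have h6 := hB ψ hψ j hj
    nlinarith
  unfold Sm
  rw [← Finset.sum_sub_distrib]
  refine (Finset.abs_sum_le_sum_abs _ _).trans ?_
  have h1 : ∀ j ∈ Finset.Ico m (q + 1), |iv a b j φ - iv a b j ψ| ≤ 2 * B * ‖φ - ψ‖ := by
    intro j hj
    have hj' := (Finset.mem_Ico.1 hj).1
    rw [abs_le]
    have h2 := key φ ψ hψ hd j hj'
    have h3 := key ψ φ hφ (by rwa [norm_sub_rev]) j hj'
    rw [norm_sub_rev] at h3
    constructor <;> linarith
  refine (Finset.sum_le_sum h1).trans ?_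
  rw [Finset.sum_const, Nat.card_Ico, nsmul_eq_mul]
  have h2 : ((q + 1 - m : ℕ) : ℝ) ≤ (q + 1 : ℝ) := by
    have : q + 1 - m ≤ q + 1 := Nat.sub_le _ _
    exact_mod_cast this
  have h3 : 0 ≤ 2 * B * ‖φ - ψ‖ := by positivity
  nlinarith

/-- **the integral over a line** -/
theorem line_int [CompleteSpace H] (hS : Sf μ i a) (hB : IsB μ i b)
    (hm0 : ∀ j, j < m → ∀ φ, Ev a (b φ) j = 0) (hmp : ∀ j, m ≤ j → ∀ φ, 0 < Ev a (b φ) j)
    (hmq : m ≤ q) (h : C(M, ℝ)) (R : ℝ) :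
    ∃ C > 0, ∀ (A : Set C(M, ℝ)) (c : ℝ), 0 < c →
      (∀ φ ∈ A, ∃ u, Tp a b q φ u ∧ c ≤ |od i h φ q u|) →
      ∀ (ψ : C(M, ℝ)) (α β : ℝ), α ≤ β → (∀ t, α - 1 ≤ t → t ≤ β + 1 → ‖ψ + t • h‖ ≤ R) →
      ∀ ε > 0, ∫⁻ t in Ioc α β, A.indicator (fun φ => ENNReal.ofReal
        (iv a b q φ - iv a b (q + 1) φ + ε)⁻¹) (ψ + t • h) ≤
        ENNReal.ofReal (C * (1 + (β - α)) / c ^ 2) := by
  obtain ⟨hF, hcmp, -⟩ := forms μ i a b hS hB
  obtain ⟨hnn, hmono, hexp, hcont, -⟩ := tLip M μ H a b hF hcmp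
  obtain ⟨B, hB0, Z, hZ0, hBZ⟩ := ev_bds μ hF hcmp hmp q R
  obtain ⟨C, hC0, K, hK0, hpt⟩ := line_pt hS hB hm0 hmp hmq h R
  obtain ⟨L, hL⟩ : ∃ L, L = (q + 1 : ℝ) * (2 * B) * ‖h‖ := ⟨_, rfl⟩
  have hL0 : 0 ≤ L := by rw [hL]; positivity
  refine ⟨(2 * L + C) * K, by positivity, ?_⟩
  intro A c hc hA ψ α β hαβ hR ε hε
  obtain ⟨τ, hτ⟩ : ∃ τ, τ = min (min 1 ε) 1 / (K + 2 * ‖h‖ + 1) := ⟨_, rfl⟩
  have hh := norm_nonneg h
  have hden : 0 < K + 2 * ‖h‖ + 1 := by positivity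
  have hmin0 : 0 < min (min 1 ε) 1 := by positivity
  have hτ0 : 0 < τ := by rw [hτ]; positivity
  have hτK : τ * (K + 2 * ‖h‖ + 1) = min (min 1 ε) 1 := by
    rw [hτ, div_mul_cancel₀ _ hden.ne']
  have hmin1 : min (min 1 ε) 1 ≤ 1 := min_le_right _ _
  have hmin2 : min (min 1 ε) 1 ≤ ε := (min_le_left _ _).trans (min_le_right _ _)
  have hτ1 : τ * K ≤ min (min 1 ε) 1 := by
    rw [← hτK]
    exact mul_le_mul_of_nonneg_left (by linarith) hτ0.le
  have hτ2 : τ ≤ 1 := by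
    have : τ * 1 ≤ τ * (K + 2 * ‖h‖ + 1) := mul_le_mul_of_nonneg_left (by linarith) hτ0.le
    linarith
  have hτ3 : τ * ‖h‖ ≤ 1 / 2 := by
    have : τ * (2 * ‖h‖) ≤ τ * (K + 2 * ‖h‖ + 1) := mul_le_mul_of_nonneg_left (by linarith) hτ0.le
    linarith
  obtain ⟨f, hf⟩ : ∃ f : ℝ → ℝ, f = fun t => Sm a b m q (ψ + t • h) := ⟨_, rfl⟩
  have hfc : Continuous f := by
    rw [hf]
    exact (sm_cont hF μ hcmp hmp q).comp (by fun_prop)
  have hflip : ∀ t, α - τ ≤ t → t ≤ β → |f (t + τ) - f t| ≤ L * τ := by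
    intro t h1 h2
    rw [hf]
    have e1 : ψ + (t + τ) • h - (ψ + t • h) = τ • h := by
      rw [add_smul]
      abel
    have e2 : ‖ψ + (t + τ) • h - (ψ + t • h)‖ = τ * ‖h‖ := by
      rw [e1, norm_smul, Real.norm_eq_abs, abs_of_pos hτ0]
    have h3 := sm_lip (q := q) hF μ hcmp hmp hB0 (fun φ hφ j hj => (hBZ φ hφ).1 j hj)
      (hR (t + τ) (by linarith) (by linarith)) (hR t (by linarith) (by linarith))
      (by rw [e2]; exact hτ3)
    rw [e2] at h3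
    refine h3.trans (le_of_eq ?_)
    rw [hL]
    ring
  have hdf : ∀ t, f (t + τ) + f (t - τ) - 2 * f t = Df a b m q h (ψ + t • h) τ := by
    intro t
    unfold Df
    rw [hf]
    simp only
    have e1 : ψ + t • h + τ • h = ψ + (t + τ) • h := by rw [add_smul, add_assoc]
    have e2 : ψ + t • h + (-τ) • h = ψ + (t - τ) • h := by
      rw [sub_eq_add_neg, add_smul, add_assoc]
    rw [e1, e2]
  have hp : ∀ t ∈ Ioc α β, ∀ u, Tp a b q (ψ + t • h) u → (od i h (ψ + t • h) q u) ^ 2 /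
      (K * (iv a b q (ψ + t • h) - iv a b (q + 1) (ψ + t • h) + ε)) ≤
      (f (t + τ) + f (t - τ) - 2 * f t) / τ ^ 2 + C := by
    intro t ht u hu
    rw [hdf]
    exact hpt (ψ + t • h) (hR t (by linarith [ht.1]) (by linarith [ht.2])) u hu ε hε τ hτ0
      (hτ1.trans hmin1) (hτ1.trans hmin2)
  have hδ : ∀ φ : C(M, ℝ), 0 ≤ iv a b q φ - iv a b (q + 1) φ := by
    intro φ
    rw [sub_nonneg]
    exact inv_anti₀ (hmp q hmq φ) (hmono φ q (q + 1) (by omega))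
  obtain ⟨g, hg⟩ : ∃ g : ℝ → ℝ, g = fun t => c ^ 2 / K * A.indicator (fun φ =>
      (iv a b q φ - iv a b (q + 1) φ + ε)⁻¹) (ψ + t • h) := ⟨_, rfl⟩
  have h1 := int_le (g := g) (C := C) hfc hτ0 hL0 hαβ hflip (fun t ht => by
    rw [hg]
    simp only
    by_cases hmem : ψ + t • h ∈ A
    · rw [indicator_of_mem hmem]
      obtain ⟨u, hu, hcu⟩ := hA _ hmem
      refine le_trans ?_ (hp t ht u hu)
      have h2 := hδ (ψ + t • h)
      have h3 : 0 < iv a b q (ψ + t • h) - iv a b (q + 1) (ψ + t • h) + ε := by linarith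
      have h4 : c ^ 2 ≤ (od i h (ψ + t • h) q u) ^ 2 := by
        rw [← sq_abs (od i h (ψ + t • h) q u)]
        exact pow_le_pow_left₀ hc.le hcu 2
      rw [← div_eq_mul_inv, div_div]
      exact div_le_div_of_nonneg_right h4 (by positivity)
    · rw [indicator_of_notMem hmem, mul_zero]
      obtain ⟨u, hu⟩ := tp_ex hF q (ψ + t • h)
      refine le_trans ?_ (hp t ht u hu)
      have h2 := hδ (ψ + t • h)
      positivity) (fun t ht => by
      obtain ⟨u, hu⟩ := tp_ex hF q (ψ + t • h)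
      refine le_trans ?_ (hp t ht u hu)
      have h2 := hδ (ψ + t • h)
      positivity)
  have h2 : ∀ t, A.indicator (fun φ => ENNReal.ofReal
      (iv a b q φ - iv a b (q + 1) φ + ε)⁻¹) (ψ + t • h) =
      ENNReal.ofReal (K / c ^ 2) * ENNReal.ofReal (g t) := by
    intro t
    rw [hg, ← ENNReal.ofReal_mul (by positivity)]
    simp only
    by_cases hmem : ψ + t • h ∈ A
    · rw [indicator_of_mem hmem, indicator_of_mem hmem]
      congr 1
      field_simp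
    · rw [indicator_of_notMem hmem, indicator_of_notMem hmem]
      simp
  simp only [h2]
  rw [lintegral_const_mul' _ _ ENNReal.ofReal_ne_top]
  refine (mul_le_mul_right h1 _).trans ?_
  rw [← ENNReal.ofReal_mul (by positivity)]
  refine ENNReal.ofReal_le_ofReal ?_
  have h3 : 0 ≤ β - α := by linarith
  have h4 : 2 * L + C * (β - α) ≤ (2 * L + C) * (1 + (β - α)) := by nlinarith
  calc K / c ^ 2 * (2 * L + C * (β - α)) ≤ K / c ^ 2 * ((2 * L + C) * (1 + (β - α))) :=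
        mul_le_mul_of_nonneg_left h4 (by positivity)
    _ = _ := by ring

end Pool.Agent.H23.LR
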