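import Pool.Graph.R_seed8.Y264.QR.All

/-!
# Level repulsion: sums of inverse eigenvalues and their second differences
-/

set_option autoImplicit false

open Set Filter Topology MeasureTheory
open Pool.Agent.Y262.QE

noncomputable section

namespace Pool.Agent.H23.LR

section forms

variable {H : Type} [NormedAddCommGroup H] [InnerProductSpace ℝ H]

lemma sum_form (a : H →L[ℝ] H →L[ℝ] ℝ) {ι : Type} (s : Finset ι) (c : ι → ℝ) (g : ι → H) (v : H) :
    a (∑ i ∈ s, c i • g i) v = ∑ i ∈ s, c i * a (g i) v := by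
  rw [map_sum, ContinuousLinearMap.sum_apply]
  refine Finset.sum_congr rfl fun i _ => ?_
  rw [map_smul, ContinuousLinearMap.smul_apply, smul_eq_mul]

/-- Bessel's inequality -/
lemma bessel {a : H →L[ℝ] H →L[ℝ] ℝ} (sa : ∀ u v, a u v = a v u) (na : ∀ v, 0 ≤ a v v)
    {ι : Type} [DecidableEq ι] (s : Finset ι) (g : ι → H) (G : ι → ℝ) (hG : ∀ i ∈ s, 0 < G i)
    (hg : ∀ i ∈ s, ∀ j ∈ s, a (g i) (g j) = if i = j then G i else 0) (v : H) :
    ∑ i ∈ s, (a v (g i)) ^ 2 / G i ≤ a v v := by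
  obtain ⟨p, hp⟩ : ∃ p, p = ∑ i ∈ s, (a v (g i) / G i) • g i := ⟨_, rfl⟩
  have h1 : a p v = ∑ i ∈ s, (a v (g i)) ^ 2 / G i := by
    rw [hp, sum_form]
    refine Finset.sum_congr rfl fun i _ => ?_
    rw [sa (g i) v]
    ring
  have h2 : a p p = ∑ i ∈ s, (a v (g i)) ^ 2 / G i := by
    have h21 : ∀ i ∈ s, a (g i) p = a v (g i) := by
      intro i hi
      rw [sa (g i) p, hp, sum_form, Finset.sum_eq_single_of_mem i hi]
      · rw [hg i hi i hi, if_pos rfl, div_mul_cancel₀ _ (hG i hi).ne']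
      · intro j hj hji
        rw [hg j hj i hi, if_neg hji, mul_zero]
    have h22 : a p p = ∑ i ∈ s, (a v (g i) / G i) * a (g i) p := by
      conv_lhs => rw [hp]
      rw [sum_form, ← hp]
    rw [h22]
    refine Finset.sum_congr rfl fun i hi => ?_
    rw [h21 i hi]
    ring
  have h3 := na (v - p)
  have h4 : a (v - p) (v - p) = a v v - ∑ i ∈ s, (a v (g i)) ^ 2 / G i := by
    have h5 : a (v - p) (v - p) = a v v - a v p - (a p v - a p p) := by
      simp only [map_sub, ContinuousLinearMap.sub_apply]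
      ring
    rw [h5, sa v p, h1, h2]
    ring
  linarith

/-- a weighted sum with weights at most one and total weight at most `n` -/
lemma rearr {μ w : ℕ → ℝ} {m n M : ℕ} (hM : m + n ≤ M) (hμ : ∀ i j, m ≤ i → i ≤ j → μ j ≤ μ i)
    (hμ0 : ∀ j, m ≤ j → 0 ≤ μ j) (hw0 : ∀ j, 0 ≤ w j) (hw1 : ∀ j, m ≤ j → w j ≤ 1)
    (hw : ∑ j ∈ Finset.Ico m M, w j ≤ n) :
    ∑ j ∈ Finset.Ico m M, μ j * w j ≤ ∑ j ∈ Finset.Ico m (m + n), μ j := by
  rcases Nat.eq_zero_or_pos n with rfl | hn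
  · have h0 : ∀ j ∈ Finset.Ico m M, w j = 0 := by
      have h1 : ∑ j ∈ Finset.Ico m M, w j = 0 :=
        le_antisymm (by simpa using hw) (Finset.sum_nonneg fun j _ => hw0 j)
      exact (Finset.sum_eq_zero_iff_of_nonneg fun j _ => hw0 j).1 h1
    rw [Finset.sum_eq_zero fun j hj => by rw [h0 j hj, mul_zero]]
    simp
  · obtain ⟨q, hq⟩ : ∃ q, q = μ (m + n - 1) := ⟨_, rfl⟩
    rw [← Finset.sum_Ico_consecutive _ (Nat.le_add_right m n) hM]
    rw [← Finset.sum_Ico_consecutive _ (Nat.le_add_right m n) hM] at hw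
    have h1 : ∑ j ∈ Finset.Ico m (m + n), μ j * w j ≤
        ∑ j ∈ Finset.Ico m (m + n), (μ j - q * (1 - w j)) := by
      refine Finset.sum_le_sum fun j hj => ?_
      rw [Finset.mem_Ico] at hj
      have h2 : q ≤ μ j := by
        rw [hq]
        exact hμ _ _ hj.1 (by omega)
      nlinarith [hw1 j hj.1]
    have h2 : ∑ j ∈ Finset.Ico (m + n) M, μ j * w j ≤ ∑ j ∈ Finset.Ico (m + n) M, q * w j := by
      refine Finset.sum_le_sum fun j hj => ?_
      rw [Finset.mem_Ico] at hj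
      have h2 : μ j ≤ q := by
        rw [hq]
        exact hμ _ _ (by omega) (by omega)
      exact mul_le_mul_of_nonneg_right h2 (hw0 j)
    have hq0 : 0 ≤ q := by
      rw [hq]
      exact hμ0 _ (by omega)
    rw [Finset.sum_sub_distrib, ← Finset.mul_sum, Finset.sum_sub_distrib] at h1
    rw [← Finset.mul_sum] at h2
    have h3 : ∑ j ∈ Finset.Ico m (m + n), (1 : ℝ) = n := by simp
    rw [h3] at h1
    nlinarith

/-- the maximum principle for sums of inverse eigenvalues -/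
theorem kyfan {a b : H →L[ℝ] H →L[ℝ] ℝ} (sa : ∀ u v, a u v = a v u) (na : ∀ v, 0 ≤ a v v)
    {e : ℕ → H} {E : ℕ → ℝ} (hE : Eg a b e E) {m : ℕ} (hpos : ∀ j, m ≤ j → 0 < E j)
    (sb : ∀ u v, b u v = b v u) (n : ℕ) (f : Fin n → H)
    (hf : ∀ i j, a (f i) (f j) = if i = j then 1 else 0) :
    ∑ i, (b (f i) (f i) - ∑ j ∈ Finset.range m, (b (f i) (e j)) ^ 2) ≤
      ∑ j ∈ Finset.Ico m (m + n), (E j)⁻¹ := by
  obtain ⟨w, hw⟩ : ∃ w : ℕ → ℝ, ∀ j, w j = ∑ i, (a (f i) (e j)) ^ 2 / E j :=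
    ⟨fun j => ∑ i, (a (f i) (e j)) ^ 2 / E j, fun j => rfl⟩
  have hee : ∀ i j, a (e i) (e j) = if i = j then E i else 0 := by
    intro i j
    rw [hE.eig, hE.orth]
    split_ifs <;> simp
  have hsum : HasSum (fun j => ∑ i, (b (f i) (e j)) ^ 2) (∑ i, b (f i) (f i)) :=
    hasSum_sum fun i _ => hE.sum (f i)
  have hbj : ∀ j, m ≤ j → ∑ i, (b (f i) (e j)) ^ 2 = (E j)⁻¹ * w j := by
    intro j hj
    rw [hw, Finset.mul_sum]
    refine Finset.sum_congr rfl fun i _ => ?_
    have h1 : a (f i) (e j) = E j * b (f i) (e j) := by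
      rw [sa, hE.eig, sb]
    have h2 := (hpos j hj).ne'
    rw [h1]
    field_simp
  have h1 : ∀ M, m + n ≤ M → ∑ j ∈ Finset.range M, ∑ i, (b (f i) (e j)) ^ 2 ≤
      ∑ j ∈ Finset.range m, ∑ i, (b (f i) (e j)) ^ 2 + ∑ j ∈ Finset.Ico m (m + n), (E j)⁻¹ := by
    intro M hM
    rw [Finset.range_eq_Ico, ← Finset.sum_Ico_consecutive _ (Nat.zero_le m) (by omega : m ≤ M),
      ← Finset.range_eq_Ico]
    refine add_le_add le_rfl ?_
    rw [Finset.sum_congr rfl fun j hj => hbj j (Finset.mem_Ico.1 hj).1]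
    refine rearr hM (fun i j hi hij => ?_) (fun j hj => (inv_pos.2 (hpos j hj)).le) (fun j => ?_)
      (fun j hj => ?_) ?_
    · exact inv_anti₀ (hpos i hi) (hE.mono hij)
    · rw [hw]
      rcases lt_or_ge j m with h | h
      · refine Finset.sum_nonneg fun i _ => ?_
        have h3 : 0 ≤ E j := by
          have h4 := na (e j)
          rw [hee, if_pos rfl] at h4
          exact h4
        positivity
      · refine Finset.sum_nonneg fun i _ => ?_
        have h3 := (hpos j h).le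
        positivity
    · rw [hw, ← Finset.sum_div, div_le_one (hpos j hj)]
      have h3 := bessel sa na Finset.univ f (fun _ => 1) (fun _ _ => one_pos)
        (fun i _ j _ => hf i j) (e j)
      rw [hee, if_pos rfl] at h3
      refine le_trans (le_of_eq ?_) h3
      refine Finset.sum_congr rfl fun i _ => ?_
      rw [div_one, sa]
    · have h3 : ∑ j ∈ Finset.Ico m M, w j = ∑ i, ∑ j ∈ Finset.Ico m M, (a (f i) (e j)) ^ 2 / E j := by
        rw [Finset.sum_comm]
        exact Finset.sum_congr rfl fun j _ => hw j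
      rw [h3]
      have h4 : ∀ i, ∑ j ∈ Finset.Ico m M, (a (f i) (e j)) ^ 2 / E j ≤ 1 := by
        intro i
        have h5 := bessel sa na (Finset.Ico m M) e E
          (fun j hj => hpos j (Finset.mem_Ico.1 hj).1) (fun i _ j _ => hee i j) (f i)
        rwa [hf, if_pos rfl] at h5
      refine (Finset.sum_le_sum fun i _ => h4 i).trans ?_
      simp
  have h2 : ∑ i, b (f i) (f i) ≤ ∑ j ∈ Finset.range m, ∑ i, (b (f i) (e j)) ^ 2 +
      ∑ j ∈ Finset.Ico m (m + n), (E j)⁻¹ :=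
    le_of_tendsto hsum.tendsto_sum_nat (eventually_atTop.2 ⟨m + n, h1⟩)
  rw [Finset.sum_sub_distrib, Finset.sum_comm]
  linarith

end forms

end Pool.Agent.H23.LR
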