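import Pool.Agent.H23.LR.SD
import Pool.Graph.R_pool_sql_team_seeded_3997aac3.Q233.GLV.GTop2

/-!
# Level repulsion: the estimate on a line of conformal factors
-/

set_option autoImplicit false
set_option linter.unusedSectionVars false

open Set Filter Topology MeasureTheory
open Pool.Agent.Y262.QE Pool.Agent.Y264.QR Q101.QG
open Pool.Agent.Q233 Pool.Agent.Q233.GLV

noncomputable section

namespace Pool.Agent.H23.LR

variable {M : Type} [MetricSpace M] [CompactSpace M] [MeasurableSpace M] [BorelSpace M]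
  {μ : Measure M} [IsFiniteMeasure μ] {H : Type} [NormedAddCommGroup H] [InnerProductSpace ℝ H]
  {i : H →L[ℝ] Lp ℝ 2 μ} {a : H →L[ℝ] H →L[ℝ] ℝ} {b : C(M, ℝ) → H →L[ℝ] H →L[ℝ] ℝ}

/-- the inverse of the eigenvalue `j` -/
def iv (a : H →L[ℝ] H →L[ℝ] ℝ) (b : C(M, ℝ) → H →L[ℝ] H →L[ℝ] ℝ) (j : ℕ) (φ : C(M, ℝ)) : ℝ :=
  (Ev a (b φ) j)⁻¹

/-- the sum of the inverses of the eigenvalues `m, ..., q` -/
def Sm (a : H →L[ℝ] H →L[ℝ] ℝ) (b : C(M, ℝ) → H →L[ℝ] H →L[ℝ] ℝ) (m q : ℕ) (φ : C(M, ℝ)) : ℝ :=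
  ∑ j ∈ Finset.Ico m (q + 1), iv a b j φ

/-- the tuples of eigenvectors of the conformal factor `φ` -/
def Tp (a : H →L[ℝ] H →L[ℝ] ℝ) (b : C(M, ℝ) → H →L[ℝ] H →L[ℝ] ℝ) (q : ℕ) (φ : C(M, ℝ))
    (u : ℕ → H) : Prop :=
  Tup a (b φ) (fun j => Ev a (b φ) j) q u

lemma tp_ex [CompleteSpace H] (hF : ∀ φ, Fm a (b φ)) (q : ℕ) (φ : C(M, ℝ)) :
    ∃ u, Tp a b q φ u := by
  obtain ⟨e, E, hE⟩ := tSp H a (b φ) (hF φ)
  refine ⟨e, ⟨fun i j _ _ => hE.orth i j, fun j _ v => ?_⟩⟩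
  rw [hE.eig j v, Pool.Agent.Y592.QE.mm H a (b φ) (hF φ) e E hE j]

section one

variable (hS : Sf μ i a) (hB : IsB μ i b)
include hS hB

lemma low (φ h : C(M, ℝ)) (τ : ℝ) (v : H) :
    b φ v v + τ * kf b (h * ex φ) v v ≤ b (φ + τ • h) v v := by
  obtain ⟨b', hB', hF', -, hb', hk⟩ := tFm M μ H i a hS
  have hbb : b' = b := by
    funext φ
    ext u v
    rw [hB', hB]
  rw [hbb] at hk
  obtain ⟨k, -, h2, h3⟩ := hk h
  have h4 := h3 φ v τ
  rw [(h2 φ v).1, kap_kf hB] at h4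
  exact h4

lemma form_near {φ h : C(M, ℝ)} {τ : ℝ} (hτ : |τ| * ‖h‖ ≤ 1 / 2) :
    (∀ x y, |b (φ + τ • h) x y - b φ x y| ≤ (|τ| * ‖h‖) * (b φ x x + b φ y y)) ∧
      ∀ v, b φ v v ≤ 2 * b (φ + τ • h) v v := by
  obtain ⟨hF, hb, -⟩ := forms μ i a b hS hB
  obtain ⟨s, hs⟩ : ∃ s, s = |τ| * ‖h‖ := ⟨_, rfl⟩
  have hs0 : 0 ≤ s := by rw [hs]; positivity
  have hn : ‖φ + τ • h - φ‖ = s := by
    rw [add_sub_cancel_left, norm_smul, Real.norm_eq_abs, hs]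
  have hn' : ‖φ - (φ + τ • h)‖ = s := by rw [norm_sub_rev, hn]
  rw [← hs] at hτ ⊢
  have h1 : Real.exp s ≤ 1 + 2 * s := by
    have := Real.abs_exp_sub_one_le (x := s) (by rw [abs_of_nonneg hs0]; linarith)
    rw [abs_of_nonneg hs0] at this
    linarith [(abs_le.1 this).2]
  have hup : ∀ v, b (φ + τ • h) v v ≤ (1 + 2 * s) * b φ v v := fun v => by
    have h2 := hb (φ + τ • h) φ v
    rw [hn] at h2
    exact h2.trans (mul_le_mul_of_nonneg_right h1 ((hF φ).nb v))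
  have hlo : ∀ v, b φ v v ≤ (1 + 2 * s) * b (φ + τ • h) v v := fun v => by
    have h2 := hb φ (φ + τ • h) v
    rw [hn'] at h2
    exact h2.trans (mul_le_mul_of_nonneg_right h1 ((hF _).nb v))
  have hd : ∀ v, |b (φ + τ • h) v v - b φ v v| ≤ 2 * s * b φ v v := fun v => by
    have h2 := hup v
    have h3 := hlo v
    have h4 := (hF φ).nb v
    have h5 := (hF (φ + τ • h)).nb v
    rw [abs_le]
    constructor
    · have h6 : b φ v v - b (φ + τ • h) v v ≤ 2 * s * b (φ + τ • h) v v := by linarith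
      rcases le_or_gt (b (φ + τ • h) v v) (b φ v v) with h7 | h7
      · have h8 : 2 * s * b (φ + τ • h) v v ≤ 2 * s * b φ v v :=
          mul_le_mul_of_nonneg_left h7 (by positivity)
        linarith
      · have h8 : 0 ≤ 2 * s * b φ v v := by positivity
        linarith
    · linarith
  constructor
  · intro x y
    have e1 : b (φ + τ • h) x y - b φ x y =
        ((b (φ + τ • h) (x + y) (x + y) - b φ (x + y) (x + y)) -
          (b (φ + τ • h) (x - y) (x - y) - b φ (x - y) (x - y))) / 4 := by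
      simp only [map_add, map_sub, add_apply, sub_apply]
      rw [(hF _).sb y x, (hF φ).sb y x]
      ring
    have e2 : b φ (x + y) (x + y) + b φ (x - y) (x - y) = 2 * (b φ x x + b φ y y) := by
      simp only [map_add, map_sub, add_apply, sub_apply]
      ring
    have h2 := hd (x + y)
    have h3 := hd (x - y)
    rw [e1, abs_div, abs_of_pos (show (0 : ℝ) < 4 by norm_num), div_le_iff₀ (by norm_num)]
    refine (abs_sub _ _).trans ?_
    calc |b (φ + τ • h) (x + y) (x + y) - b φ (x + y) (x + y)| +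
        |b (φ + τ • h) (x - y) (x - y) - b φ (x - y) (x - y)| ≤
        2 * s * (b φ (x + y) (x + y) + b φ (x - y) (x - y)) := by linarith
      _ = s * (b φ x x + b φ y y) * 4 := by rw [e2]; ring
  · intro v
    refine (hlo v).trans ?_
    exact mul_le_mul_of_nonneg_right (by linarith) ((hF _).nb v)

/-- the off-diagonal element of the derivative -/
def od (i : H →L[ℝ] Lp ℝ 2 μ) (h φ : C(M, ℝ)) (q : ℕ) (u : ℕ → H) : ℝ :=
  ∫ x, h x * Real.exp (φ x) * (i (u q) x * i (u (q + 1)) x) ∂μ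

omit hS in
lemma od_kf (h φ : C(M, ℝ)) (q : ℕ) (u : ℕ → H) :
    kf b (h * ex φ) (u q) (u (q + 1)) = od i h φ q u := by
  rw [kf_apply hB]
  rfl

end one

section two

variable {m q : ℕ}

/-- the bounds of the eigenvalues on a ball -/
lemma ev_bds (μ : Measure M) [IsFiniteMeasure μ] (hF : ∀ φ, Fm a (b φ))
    (hcmp : ∀ (φ ψ : C(M, ℝ)) (v : H), b φ v v ≤ Real.exp ‖φ - ψ‖ * b ψ v v)
    (hmp : ∀ j, m ≤ j → ∀ φ, 0 < Ev a (b φ) j) (q : ℕ) (R : ℝ) :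
    ∃ B > 0, ∃ Z > 0, ∀ φ : C(M, ℝ), ‖φ‖ ≤ R → (∀ j, m ≤ j → iv a b j φ ≤ B) ∧
      ∀ j, j < q + 2 → Ev a (b φ) j ≤ Z := by
  obtain ⟨hnn, hmono, hexp, -, -⟩ := tLip M μ H a b hF hcmp
  have hpos := hmp m le_rfl 0
  refine ⟨Real.exp R * (Ev a (b 0) m)⁻¹, by positivity, Real.exp R * Ev a (b 0) (q + 1) + 1, ?_, ?_⟩
  · have := hnn 0 (q + 1)
    positivity
  · intro φ hφ
    constructor
    · intro j hj
      have h1 := hexp 0 φ m
      rw [zero_sub, norm_neg] at h1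
      have h2 : Ev a (b 0) m ≤ Real.exp R * Ev a (b φ) m :=
        h1.trans (mul_le_mul_of_nonneg_right (Real.exp_le_exp.2 hφ) (hnn φ m))
      have h3 : Ev a (b φ) m ≤ Ev a (b φ) j := hmono φ m j hj
      have h4 := hmp m le_rfl φ
      unfold iv
      rw [← div_eq_mul_inv, le_div_iff₀ hpos, inv_mul_le_iff₀ (h4.trans_le h3)]
      refine h2.trans ?_
      rw [mul_comm]
      exact mul_le_mul_of_nonneg_right h3 (Real.exp_pos _).le
    · intro j hj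
      have h1 := hexp φ 0 j
      rw [sub_zero] at h1
      have h2 : Ev a (b φ) j ≤ Real.exp R * Ev a (b 0) j :=
        h1.trans (mul_le_mul_of_nonneg_right (Real.exp_le_exp.2 hφ) (hnn 0 j))
      have h3 : Ev a (b 0) j ≤ Ev a (b 0) (q + 1) := hmono 0 j (q + 1) (by omega)
      have h4 : Real.exp R * Ev a (b 0) j ≤ Real.exp R * Ev a (b 0) (q + 1) :=
        mul_le_mul_of_nonneg_left h3 (Real.exp_pos _).le
      linarith

/-- the second difference in the direction `h` -/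
def Df (a : H →L[ℝ] H →L[ℝ] ℝ) (b : C(M, ℝ) → H →L[ℝ] H →L[ℝ] ℝ) (m q : ℕ) (h φ : C(M, ℝ))
    (τ : ℝ) : ℝ :=
  Sm a b m q (φ + τ • h) + Sm a b m q (φ + (-τ) • h) - 2 * Sm a b m q φ

/-- **the pointwise estimate** -/
theorem line_pt [CompleteSpace H] (hS : Sf μ i a) (hB : IsB μ i b)
    (hm0 : ∀ j, j < m → ∀ φ, Ev a (b φ) j = 0) (hmp : ∀ j, m ≤ j → ∀ φ, 0 < Ev a (b φ) j)
    (hmq : m ≤ q) (h : C(M, ℝ)) (R : ℝ) :
    ∃ C > 0, ∃ K > 0, ∀ φ : C(M, ℝ), ‖φ‖ ≤ R → ∀ u, Tp a b q φ u → ∀ ε > 0, ∀ τ > 0,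
      τ * K ≤ 1 → τ * K ≤ ε →
      (od i h φ q u) ^ 2 / (K * (iv a b q φ - iv a b (q + 1) φ + ε)) ≤
        Df a b m q h φ τ / τ ^ 2 + C := by
  obtain ⟨hF, hcmp, -⟩ := forms μ i a b hS hB
  obtain ⟨hnn, hmono, -, -, -⟩ := tLip M μ H a b hF hcmp
  obtain ⟨B, hB0, Z, hZ0, hBZ⟩ := ev_bds μ hF hcmp hmp q R
  obtain ⟨C, hC⟩ : ∃ C, C = 2 * ((q + 1 : ℝ) * (m * (‖h‖ * (B + 2)) ^ 2)) + 1 := ⟨_, rfl⟩
  obtain ⟨K, hK⟩ : ∃ K, K = 2 * ‖h‖ + 2 * (‖h‖ * B) + Z ^ 2 := ⟨_, rfl⟩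
  have hK0 : 0 < K := by rw [hK]; positivity
  refine ⟨C, by rw [hC]; positivity, K, hK0, ?_⟩
  intro φ hφ u hu ε hε τ hτ hτ1 hτε
  obtain ⟨hB1, hZ1⟩ := hBZ φ hφ
  have hh : 0 ≤ ‖h‖ := norm_nonneg h
  have hτh : |τ| * ‖h‖ ≤ 1 / 2 := by
    rw [abs_of_pos hτ]
    have h1 : 2 * ‖h‖ ≤ K := by
      rw [hK]
      have : 0 ≤ 2 * (‖h‖ * B) + Z ^ 2 := by positivity
      linarith
    have h2 : τ * (2 * ‖h‖) ≤ τ * K := mul_le_mul_of_nonneg_left h1 hτ.le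
    linarith
  have hτh' : |-τ| * ‖h‖ ≤ 1 / 2 := by rwa [abs_neg]
  obtain ⟨n1, n2⟩ := form_near hS hB (φ := φ) hτh
  obtain ⟨n1', n2'⟩ := form_near hS hB (φ := φ) hτh'
  rw [abs_neg] at n1'
  obtain ⟨e', E', hE'⟩ := tSp H a (b (φ + τ • h)) (hF _)
  obtain ⟨e'', E'', hE''⟩ := tSp H a (b (φ + (-τ) • h)) (hF _)
  have hm' := Pool.Agent.Y592.QE.mm H a _ (hF (φ + τ • h)) e' E' hE'
  have hm'' := Pool.Agent.Y592.QE.mm H a _ (hF (φ + (-τ) • h)) e'' E'' hE''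
  obtain ⟨δ, hδ⟩ : ∃ δ, δ = iv a b q φ - iv a b (q + 1) φ := ⟨_, rfl⟩
  have hq0 := hmp q hmq φ
  have hq1 := hmp (q + 1) (by omega) φ
  have hδ0 : 0 ≤ δ := by
    rw [hδ, sub_nonneg]
    exact inv_anti₀ hq0 (hmono φ q (q + 1) (by omega))
  obtain ⟨κ, hκ⟩ : ∃ κ, κ = kf b (h * ex φ) (nv (fun j => Ev a (b φ) j) u q)
      (nv (fun j => Ev a (b φ) j) u (q + 1)) := ⟨_, rfl⟩
  have hposE : ∀ j, m ≤ j → j < q + 2 → 0 < Ev a (b φ) j := fun j hj _ => hmp j hj φ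
  -- the main inequality
  have main : ∀ x y : ℝ, x ^ 2 + y ^ 2 = 1 →
      4 * τ * (x * y) * κ - 2 * y ^ 2 * δ - (C - 1) * τ ^ 2 ≤ Df a b m q h φ τ := by
    intro x y hxy
    have h1 := two_side (a := a) (b := b φ) (E := fun j => Ev a (b φ) j) (q := q) (u := u) (m := m)
      (hF φ).sa (hF φ).na hu hposE hmq (b' := b (φ + τ • h)) (b'' := b (φ + (-τ) • h))
      (k := kf b (h * ex φ)) (hF _).sb (hF _).sb (fun u v => kf_symm hB _ u v) hE'
      (fun j hj => by rw [← hm' j]; exact hm0 j hj _) (fun j hj => by rw [← hm' j]; exact hmp j hj _)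
      hE'' (fun j hj => by rw [← hm'' j]; exact hm0 j hj _)
      (fun j hj => by rw [← hm'' j]; exact hmp j hj _) (τ := τ) (η := |τ| * ‖h‖) (B := B)
      (by positivity) (fun v => low hS hB φ h τ v) n1 n2 (fun v => low hS hB φ h (-τ) v) n1' n2'
      (fun j hj _ => hB1 j hj) (hF φ).nb hxy
    rw [← hκ] at h1
    have h2 : 2 * ((q + 1 : ℝ) * (m * (|τ| * ‖h‖ * (B + 2)) ^ 2)) = (C - 1) * τ ^ 2 := by
      rw [hC, abs_of_pos hτ]
      ring
    rw [h2] at h1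
    have h3 : (∑ j ∈ Finset.Ico m (q + 1), (E' j)⁻¹) = Sm a b m q (φ + τ • h) := by
      unfold Sm iv
      exact Finset.sum_congr rfl fun j _ => by rw [hm' j]
    have h4 : (∑ j ∈ Finset.Ico m (q + 1), (E'' j)⁻¹) = Sm a b m q (φ + (-τ) • h) := by
      unfold Sm iv
      exact Finset.sum_congr rfl fun j _ => by rw [hm'' j]
    rw [h3, h4] at h1
    unfold Df
    rw [hδ]
    exact h1
  -- the bound of `κ`
  have hκ1 : |κ| ≤ ‖h‖ * B := by
    obtain ⟨X, hX⟩ : ∃ X, X = nv (fun j => Ev a (b φ) j) u q := ⟨_, rfl⟩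
    obtain ⟨Y, hY⟩ : ∃ Y, Y = nv (fun j => Ev a (b φ) j) u (q + 1) := ⟨_, rfl⟩
    have hXX : b φ X X ≤ B := by
      rw [hX, nv_b hu hposE hmq (by omega) (by omega), if_pos rfl]
      exact hB1 q hmq
    have hYY : b φ Y Y ≤ B := by
      rw [hY, nv_b hu hposE (by omega) (by omega) (by omega), if_pos rfl]
      exact hB1 (q + 1) (by omega)
    have hkv : ∀ v, |kf b (h * ex φ) v v| ≤ ‖h‖ * b φ v v := by
      intro v
      obtain ⟨-, -, hk⟩ := forms μ i a b hS hB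
      obtain ⟨k, -, h2⟩ := hk h
      rw [← kap_kf hB, ← (h2 φ v).1]
      exact (h2 φ v).2
    have e1 : κ = (kf b (h * ex φ) (X + Y) (X + Y) - kf b (h * ex φ) (X - Y) (X - Y)) / 4 := by
      rw [hκ, ← hX, ← hY]
      simp only [map_add, map_sub, add_apply, sub_apply]
      rw [kf_symm hB _ Y X]
      ring
    have e2 : b φ (X + Y) (X + Y) + b φ (X - Y) (X - Y) = 2 * (b φ X X + b φ Y Y) := by
      simp only [map_add, map_sub, add_apply, sub_apply]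
      ring
    rw [e1, abs_div, abs_of_pos (show (0 : ℝ) < 4 by norm_num), div_le_iff₀ (by norm_num)]
    refine (abs_sub _ _).trans ?_
    have h2 := hkv (X + Y)
    have h3 := hkv (X - Y)
    calc |kf b (h * ex φ) (X + Y) (X + Y)| + |kf b (h * ex φ) (X - Y) (X - Y)| ≤
        ‖h‖ * (b φ (X + Y) (X + Y) + b φ (X - Y) (X - Y)) := by linarith
      _ = ‖h‖ * (2 * (b φ X X + b φ Y Y)) := by rw [e2]
      _ ≤ ‖h‖ * (2 * (B + B)) := by gcongr
      _ = ‖h‖ * B * 4 := by ring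
  -- the choice of the angle
  obtain ⟨ρ, hρ⟩ : ∃ ρ, ρ = κ / (δ + ε) := ⟨_, rfl⟩
  have hδε : 0 < δ + ε := by linarith
  have hy : |τ * ρ| ≤ 1 / 2 := by
    rw [hρ, abs_mul, abs_div, abs_of_pos hτ, abs_of_pos hδε, ← mul_div_assoc, div_le_iff₀ hδε]
    have h1 : τ * |κ| ≤ τ * (‖h‖ * B) := mul_le_mul_of_nonneg_left hκ1 hτ.le
    have h2 : 2 * (‖h‖ * B) ≤ K := by
      rw [hK]
      have : 0 ≤ 2 * ‖h‖ + Z ^ 2 := by positivity
      linarith
    have h3 : τ * (2 * (‖h‖ * B)) ≤ τ * K := mul_le_mul_of_nonneg_left h2 hτ.le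
    linarith
  obtain ⟨y, hyd⟩ : ∃ y, y = τ * ρ := ⟨_, rfl⟩
  rw [← hyd] at hy
  have hy2 : y ^ 2 ≤ 1 / 4 := by
    rw [← sq_abs]
    nlinarith [abs_nonneg y]
  obtain ⟨x, hx⟩ : ∃ x, x = Real.sqrt (1 - y ^ 2) := ⟨_, rfl⟩
  have hxx : x ^ 2 = 1 - y ^ 2 := by rw [hx, Real.sq_sqrt (by linarith)]
  have hx0 : 0 ≤ x := by rw [hx]; exact Real.sqrt_nonneg _
  have hx34 : 3 / 4 ≤ x := by
    by_contra hcon
    push Not at hcon
    nlinarith
  have h1 := main x y (by rw [hxx]; ring)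
  have h2 : κ ^ 2 / (δ + ε) ≤ Df a b m q h φ τ / τ ^ 2 + (C - 1) := by
    have h3 : 4 * τ * (x * y) * κ = τ ^ 2 * (4 * x * (κ ^ 2 / (δ + ε))) := by
      rw [hyd, hρ]
      ring
    have h4 : 2 * y ^ 2 * δ = τ ^ 2 * (2 * (κ ^ 2 / (δ + ε)) * (δ / (δ + ε))) := by
      rw [hyd, hρ]
      ring
    have h5 : 0 ≤ κ ^ 2 / (δ + ε) := by positivity
    have h6 : δ / (δ + ε) ≤ 1 := by
      rw [div_le_one hδε]
      linarith
    have h7 : τ ^ 2 * (κ ^ 2 / (δ + ε)) ≤ 4 * τ * (x * y) * κ - 2 * y ^ 2 * δ := by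
      rw [h3, h4, ← mul_sub]
      refine mul_le_mul_of_nonneg_left ?_ (by positivity)
      have h8 : 2 * (κ ^ 2 / (δ + ε)) * (δ / (δ + ε)) ≤ 2 * (κ ^ 2 / (δ + ε)) * 1 :=
        mul_le_mul_of_nonneg_left h6 (by positivity)
      nlinarith
    have h8 : τ ^ 2 * (κ ^ 2 / (δ + ε)) ≤ Df a b m q h φ τ + (C - 1) * τ ^ 2 := by linarith
    have h9 : κ ^ 2 / (δ + ε) ≤ (Df a b m q h φ τ + (C - 1) * τ ^ 2) / τ ^ 2 := by
      rw [le_div_iff₀ (by positivity)]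
      linarith
    refine h9.trans (le_of_eq ?_)
    field_simp
  have h3 : (od i h φ q u) ^ 2 / (K * (δ + ε)) ≤ κ ^ 2 / (δ + ε) := by
    have h4 : od i h φ q u = κ * (Real.sqrt (Ev a (b φ) q) * Real.sqrt (Ev a (b φ) (q + 1))) := by
      rw [hκ, ← od_kf hB]
      unfold nv
      simp only [map_smul, smul_apply, smul_eq_mul]
      have h5 := (Real.sqrt_pos.2 hq0).ne'
      have h6 := (Real.sqrt_pos.2 hq1).ne'
      field_simp
    have h5 : (od i h φ q u) ^ 2 ≤ κ ^ 2 * K := by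
      rw [h4, mul_pow, mul_pow, Real.sq_sqrt hq0.le, Real.sq_sqrt hq1.le]
      refine mul_le_mul_of_nonneg_left ?_ (sq_nonneg _)
      have h7 := hZ1 q (by omega)
      have h8 := hZ1 (q + 1) (by omega)
      have h9 : Ev a (b φ) q * Ev a (b φ) (q + 1) ≤ Z * Z :=
        mul_le_mul h7 h8 hq1.le hZ0.le
      rw [hK]
      have h10 : 0 ≤ 2 * ‖h‖ + 2 * (‖h‖ * B) := by positivity
      nlinarith
    rw [div_le_div_iff₀ (by positivity) hδε]
    calc (od i h φ q u) ^ 2 * (δ + ε) ≤ (κ ^ 2 * K) * (δ + ε) :=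
          mul_le_mul_of_nonneg_right h5 hδε.le
      _ = _ := by ring
  rw [← hδ]
  linarith

end two

end Pool.Agent.H23.LR
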