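import Pool.Agent.H23.LR.Cov2
import Pool.Agent.H23.LR.Top

/-!
# Level repulsion: the quadratic bound
-/

set_option autoImplicit false
set_option linter.unusedSectionVars false

open Set Filter Topology MeasureTheory
open scoped ENNReal
open Pool.Agent.Y262.QE Pool.Agent.Y264.QR Pool.Agent.Y319.QR Q101.QG
open Pool.Agent.Q233 Pool.Agent.Q233.GLV

noncomputable section

namespace Pool.Agent.H23.LR

section abs

variable {M : Type} [MetricSpace M] [CompactSpace M] [MeasurableSpace M] [BorelSpace M]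
  {μ : Measure M} [IsFiniteMeasure μ] {H : Type} [NormedAddCommGroup H] [InnerProductSpace ℝ H]
  {i : H →L[ℝ] Lp ℝ 2 μ} {a : H →L[ℝ] H →L[ℝ] ℝ} {b : C(M, ℝ) → H →L[ℝ] H →L[ℝ] ℝ} {m q : ℕ}

/-- the determinant of dependent directions vanishes -/
lemma dt_dep (hB : IsB μ i b) {h k : C(M, ℝ)} (hdep : ¬ LinearIndependent ℝ ![h, k])
    (φ : C(M, ℝ)) (u : ℕ → H) : dt a b q h k φ u = 0 := by
  rw [LinearIndependent.pair_iff] at hdep
  push Not at hdep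
  obtain ⟨s, t, hst, hne⟩ := hdep
  have h0 : pl h k ⟨s, t⟩ * ex φ = 0 := by
    unfold pl
    simp only
    rw [hst, zero_mul]
  have h1 : ∀ X Y : H, kf b (pl h k ⟨s, t⟩ * ex φ) X Y = 0 := by
    intro X Y
    rw [h0, kf_apply hB]
    simp
  have h2 : s * dd (kf b (h * ex φ)) (fun j => Ev a (b φ) j) u q +
      t * dd (kf b (k * ex φ)) (fun j => Ev a (b φ) j) u q = 0 := by
    have := dd_pl (q := q) hB h k φ ⟨s, t⟩ (fun j => Ev a (b φ) j) u
    simp only at this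
    rw [← this]
    unfold dd
    rw [h1, h1]
    ring
  have h3 : s * oo (kf b (h * ex φ)) (fun j => Ev a (b φ) j) u q +
      t * oo (kf b (k * ex φ)) (fun j => Ev a (b φ) j) u q = 0 := by
    have := oo_pl (q := q) hB h k φ ⟨s, t⟩ (fun j => Ev a (b φ) j) u
    simp only at this
    rw [← this]
    unfold oo
    rw [h1]
  have h4 : s * dt a b q h k φ u = 0 := by
    unfold dt
    linear_combination (oo (kf b (k * ex φ)) (fun j => Ev a (b φ) j) u q) * h2 -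
      (dd (kf b (k * ex φ)) (fun j => Ev a (b φ) j) u q) * h3
  have h5 : t * dt a b q h k φ u = 0 := by
    unfold dt
    linear_combination (dd (kf b (h * ex φ)) (fun j => Ev a (b φ) j) u q) * h3 -
      (oo (kf b (h * ex φ)) (fun j => Ev a (b φ) j) u q) * h2
  by_cases hs : s = 0
  · exact (mul_eq_zero.1 h5).resolve_left (hne hs)
  · exact (mul_eq_zero.1 h4).resolve_left hs

/-- the estimate for a pair of directions -/
theorem pair_bd [CompleteSpace H] (hpl : UC.StPlane) (hcell : UC.StCell) (hS : Sf μ i a)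
    (hB : IsB μ i b)
    (hm0 : ∀ j, j < m → ∀ φ, Ev a (b φ) j = 0) (hmp : ∀ j, m ≤ j → ∀ φ, 0 < Ev a (b φ) j)
    (hmq : m ≤ q) [MeasurableSpace C(M, ℝ)] [BorelSpace C(M, ℝ)] {P : Measure C(M, ℝ)}
    {h k : C(M, ℝ)} (hP : LinearIndependent ℝ ![h, k] → UC.BdDir2 P h k)
    {K : Set C(M, ℝ)} (hK : IsClosed K) {R c : ℝ} (hKR : ∀ φ ∈ K, ‖φ‖ ≤ R) (hc : 0 < c) :
    ∃ X : ENNReal, X ≠ ⊤ ∧ ∀ ε > 0, P (K ∩ ({φ | iv a b q φ - iv a b (q + 1) φ ≤ ε} ∩
      Fc2 a b q h k c)) ≤ X * ENNReal.ofReal (ε ^ 2) := by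
  obtain ⟨hF, hcmp, -⟩ := forms μ i a b hS hB
  by_cases hind : LinearIndependent ℝ ![h, k]
  · obtain ⟨r, hr, X, hX0, hX⟩ := plane hpl hS hB hm0 hmp hmq h k R hc
    obtain ⟨C, hC, hle⟩ := hcell C(M, ℝ) P h k (hP hind) hind R r hr
    refine ⟨C * ENNReal.ofReal X, ENNReal.mul_ne_top hC ENNReal.ofReal_ne_top, fun ε hε => ?_⟩
    have hcl : IsClosed {φ : C(M, ℝ) | iv a b q φ - iv a b (q + 1) φ ≤ ε} :=
      isClosed_le ((iv_cont hF μ hcmp hmp hmq).sub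
        (iv_cont hF μ hcmp hmp (by omega : m ≤ q + 1))) continuous_const
    have h1 := hle _ (hK.inter (hcl.inter (fc2_closed hS hB hmp hmq h k c))).measurableSet
      (fun φ hφ => hKR φ hφ.1) (ENNReal.ofReal (X * ε ^ 2)) (fun ψ => by
        refine (measure_mono ?_).trans (hX ψ ε hε)
        rintro z ⟨hz1, hz2, hz3, hz4⟩
        exact ⟨hz1, ⟨hKR _ hz2, hz3⟩, hz4⟩)
    refine h1.trans (le_of_eq ?_)
    rw [ENNReal.ofReal_mul hX0.le, mul_assoc]
  · refine ⟨0, ENNReal.zero_ne_top, fun ε hε => ?_⟩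
    have h0 : K ∩ ({φ | iv a b q φ - iv a b (q + 1) φ ≤ ε} ∩ Fc2 a b q h k c) = ∅ := by
      rw [eq_empty_iff_forall_notMem]
      rintro φ ⟨-, -, u, -, hu⟩
      rw [dt_dep hB hind, abs_zero] at hu
      linarith
    rw [h0, measure_empty]
    exact zero_le

/-- **the quadratic bound, abstract form** -/
theorem gap_sq [CompleteSpace H] [Nonempty M] (hpl : UC.StPlane) (hcell : UC.StCell)
    (hS : Sf μ i a) (hB : IsB μ i b)
    (hm0 : ∀ j, j < m → ∀ φ, Ev a (b φ) j = 0) (hmp : ∀ j, m ≤ j → ∀ φ, 0 < Ev a (b φ) j)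
    (hmq : m ≤ q) (hns : NoSplit μ i a b) [MeasurableSpace C(M, ℝ)] [BorelSpace C(M, ℝ)]
    {P : Measure C(M, ℝ)} [IsProbabilityMeasure P] {S : Set C(M, ℝ)}
    (hSd : Dense (Submodule.span ℝ S : Set C(M, ℝ)))
    (hP : ∀ h ∈ S, ∀ k ∈ S, LinearIndependent ℝ ![h, k] → UC.BdDir2 P h k)
    {K : Set C(M, ℝ)} (hK : IsCompact K) :
    ∃ C : ENNReal, C ≠ ⊤ ∧ ∀ ε > 0, P (K ∩ {φ | iv a b q φ - iv a b (q + 1) φ ≤ ε}) ≤
      C * ENNReal.ofReal (ε ^ 2) := by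
  obtain ⟨hs, hsS, hsd⟩ := ctb_total hSd
  obtain ⟨N, c, hc, hcov⟩ := cover2 hS hB hmp hmq hs
    (fun φ u hu heq => dt_ne hS hB hmp hmq hns hsd φ u hu heq) hK
  obtain ⟨R, hR⟩ := hK.isBounded.exists_norm_le
  choose X hX hXle using fun n l : ℕ => pair_bd (c := c) (R := R) hpl hcell hS hB hm0 hmp hmq
    (hP _ (hsS n) _ (hsS l)) hK.isClosed hR hc
  refine ⟨ENNReal.ofReal (1 / c ^ 2) + ∑ n ∈ Finset.range N, ∑ l ∈ Finset.range N, X n l, ?_, ?_⟩
  · refine ENNReal.add_ne_top.2 ⟨ENNReal.ofReal_ne_top, ?_⟩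
    exact (ENNReal.sum_lt_top.2 fun n _ => ENNReal.sum_lt_top.2 fun l _ => (hX n l).lt_top).ne
  · intro ε hε
    rw [add_mul]
    rcases le_or_gt ε c with hεc | hεc
    · refine le_add_left ?_
      have h1 : K ∩ {φ | iv a b q φ - iv a b (q + 1) φ ≤ ε} ⊆ ⋃ n ∈ Finset.range N,
          ⋃ l ∈ Finset.range N, K ∩ ({φ | iv a b q φ - iv a b (q + 1) φ ≤ ε} ∩
            Fc2 a b q (hs n) (hs l) c) := by
        rintro φ ⟨hφK, hφε⟩
        obtain ⟨n, hn, l, hl, hmem⟩ := hcov φ hφK (le_trans hφε hεc)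
        simp only [mem_iUnion, Finset.mem_range]
        exact ⟨n, hn, l, hl, hφK, hφε, hmem⟩
      refine (measure_mono h1).trans ?_
      refine (measure_biUnion_finset_le _ _).trans ?_
      rw [Finset.sum_mul]
      refine Finset.sum_le_sum fun n _ => ?_
      refine (measure_biUnion_finset_le _ _).trans ?_
      rw [Finset.sum_mul]
      exact Finset.sum_le_sum fun l _ => hXle n l ε hε
    · refine le_add_right ?_
      rw [← ENNReal.ofReal_mul (by positivity)]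
      refine prob_le_one.trans ?_
      rw [← ENNReal.ofReal_one]
      refine ENNReal.ofReal_le_ofReal ?_
      rw [div_mul_eq_mul_div, one_mul, le_div_iff₀ (by positivity), one_mul]
      exact pow_le_pow_left₀ hc.le hεc.le 2

end abs

variable {M : Type} [MetricSpace M] [CompactSpace M] [MeasurableSpace M] [BorelSpace M]
  {μ : Measure M} {D : Data M} [Nonempty M]

/-- **the quadratic bound** -/
theorem lr_sq (hcont : UC.StCont) (hucp : UC.StUCP) (hpl : UC.StPlane) (hcell : UC.StCell)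
    [ConnectedSpace M] (hD : D.IsSurf μ)
    (hiso : ∀ p, ∀ z ∈ D.T p, ∃ c : ℝ, ∀ v, ‖D.A p z v‖ = c * ‖v‖)
    [MeasurableSpace C(M, ℝ)] [BorelSpace C(M, ℝ)] {P : Measure C(M, ℝ)} [IsProbabilityMeasure P]
    {S : Set C(M, ℝ)} (hS : Dense (Submodule.span ℝ S : Set C(M, ℝ)))
    (hP : ∀ h ∈ S, ∀ k ∈ S, LinearIndependent ℝ ![h, k] → UC.BdDir2 P h k)
    {K : Set C(M, ℝ)} (hK : IsCompact K) (x : C(M, ℝ) → ℕ → ℝ)
    (hx : ∀ φ, ∃ (u : ℕ → M → ℝ) (lam : ℕ → ℝ),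
      EigBasis (D.conf fun x => Real.exp (φ x)) (wm μ fun x => Real.exp (φ x)) u lam ∧
        ∀ j, x φ j = (wm μ fun y => Real.exp (φ y)).real univ * lam j / (4 * Real.pi))
    {q : ℕ} (hq : ∃ φ, 0 < x φ q) :
    ∃ C : ℝ, ∀ ε > 0, P (K ∩ {φ | x φ (q + 1) - x φ q ≤ ε}) ≤ ENNReal.ofReal (C * ε ^ 2) := by
  obtain ⟨hf, hcs, i, a, b, hSf, hi, ha, hB, hpos, hEv⟩ := setup μ D hD
  have hxE : ∀ φ j, x φ j = (∫ x, Real.exp (φ x) ∂μ) * Ev a (b φ) j / (4 * Real.pi) := by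
    intro φ j
    obtain ⟨u, lam, hu, hl⟩ := hx φ
    rw [hl, hEv φ u lam hu]
  have hpi : 0 < 4 * Real.pi := by positivity
  have hq' : ∃ φ, 0 < Ev a (b φ) q := by
    obtain ⟨φ, hφ⟩ := hq
    refine ⟨φ, ?_⟩
    rw [hxE, div_pos_iff_of_pos_right hpi] at hφ
    exact (pos_iff_pos_of_mul_pos hφ).1 (hpos φ)
  obtain ⟨m, hmq, hm0, hmp⟩ := first_pos hSf hB hq'
  have hns := no_split hcont hucp hD hiso hi ha hB
  obtain ⟨C, hC, hCle⟩ := gap_sq hpl hcell hSf hB hm0 hmp hmq hns hS hP hK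
  obtain ⟨Z, hZ0, hZ⟩ := gap_conv hSf hB hmp hmq hpos hK
  refine ⟨C.toReal * Z ^ 2, fun ε hε => ?_⟩
  have h1 : K ∩ {φ | x φ (q + 1) - x φ q ≤ ε} ⊆
      K ∩ {φ | iv a b q φ - iv a b (q + 1) φ ≤ Z * ε} := by
    rintro φ ⟨hφK, hφε⟩
    refine ⟨hφK, ?_⟩
    have h2 := hZ φ hφK
    rw [sub_div, ← hxE, ← hxE] at h2
    exact h2.trans (mul_le_mul_of_nonneg_left hφε hZ0.le)
  refine (measure_mono h1).trans ((hCle (Z * ε) (by positivity)).trans (le_of_eq ?_))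
  rw [← ENNReal.ofReal_toReal hC, ← ENNReal.ofReal_mul ENNReal.toReal_nonneg,
    ENNReal.toReal_ofReal ENNReal.toReal_nonneg]
  congr 1
  ring

end Pool.Agent.H23.LR
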