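import Pool.Agent.H23.LR.Crs
import Pool.Agent.H23.LR.Sq

/-!
# Level repulsion: neighbourhoods of a double eigenvalue
-/

set_option autoImplicit false
set_option linter.unusedSectionVars false

open Set Filter Topology MeasureTheory
open scoped ENNReal
open Pool.Agent.Y262.QE Pool.Agent.Y264.QR Q101.QG
open Pool.Agent.Q233 Pool.Agent.Q233.GLV

noncomputable section

namespace Pool.Agent.H23.LR

variable {M : Type} [MetricSpace M] [CompactSpace M] [MeasurableSpace M] [BorelSpace M]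
  {μ : Measure M} [IsFiniteMeasure μ] {H : Type} [NormedAddCommGroup H] [InnerProductSpace ℝ H]
  {i : H →L[ℝ] Lp ℝ 2 μ} {a : H →L[ℝ] H →L[ℝ] ℝ} {b : C(M, ℝ) → H →L[ℝ] H →L[ℝ] ℝ} {m q : ℕ}

/-- the eigenvectors of an exactly double eigenvalue -/
lemma dbl_span (hS : Sf μ i a) (hB : IsB μ i b) {φ : C(M, ℝ)} {e : ℕ → H}
    {E : ℕ → ℝ} (hE : Eg a (b φ) e E) (hdbl : ∀ l, E l = E q ↔ l = q ∨ l = q + 1) {v : H}
    (hv : ∀ w, a v w = E q * b φ v w) :
    v = (b φ v (e q)) • e q + (b φ v (e (q + 1))) • e (q + 1) := by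
  obtain ⟨hF, hcmp, -⟩ := forms μ i a b hS hB
  have hq1 : E (q + 1) = E q := (hdbl (q + 1)).2 (Or.inr rfl)
  obtain ⟨d, hd⟩ : ∃ d, d = v - ((b φ v (e q)) • e q + (b φ v (e (q + 1))) • e (q + 1)) := ⟨_, rfl⟩
  have h1 : ∀ l, b φ d (e l) = 0 := by
    intro l
    have h2 : b φ d (e l) = b φ v (e l) - (b φ v (e q) * (if q = l then 1 else 0) +
        b φ v (e (q + 1)) * (if q + 1 = l then 1 else 0)) := by
      rw [hd]
      simp only [map_add, map_sub, map_smul, add_apply, sub_apply, smul_apply, smul_eq_mul]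
      rw [hE.orth, hE.orth]
    rw [h2]
    by_cases hl : l = q
    · subst hl
      rw [if_pos rfl, if_neg (by omega)]
      ring
    · by_cases hl1 : l = q + 1
      · subst hl1
        rw [if_pos rfl, if_neg (by omega)]
        ring
      · rw [if_neg (Ne.symm hl), if_neg (Ne.symm hl1)]
        have h3 : E l ≠ E q := fun h => by
          rcases (hdbl l).1 h with h | h
          · exact hl h
          · exact hl1 h
        have h4 : a v (e l) = E l * b φ v (e l) := by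
          rw [(hF φ).sa, hE.eig, (hF φ).sb]
        have h5 := hv (e l)
        rw [h4] at h5
        have h6 : (E l - E q) * b φ v (e l) = 0 := by linarith
        rcases mul_eq_zero.1 h6 with h | h
        · exact absurd (sub_eq_zero.1 h) h3
        · rw [h]
          ring
  have h2 : b φ d d = 0 := by
    have h3 := hE.sum d
    have h4 : (fun j => (b φ d (e j)) ^ 2) = fun _ => 0 := by
      funext j
      rw [h1]
      ring
    rw [h4] at h3
    exact h3.unique hasSum_zero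
  have h3 : a d d = 0 := by
    have h4 : a d d = E q * b φ d d := by
      have h5 : a d = a v - ((b φ v (e q)) • a (e q) + (b φ v (e (q + 1))) • a (e (q + 1))) := by
        rw [hd, map_sub, map_add, map_smul, map_smul]
      have h6 : b φ d = b φ v - ((b φ v (e q)) • b φ (e q) +
          (b φ v (e (q + 1))) • b φ (e (q + 1))) := by
        rw [hd, map_sub, map_add, map_smul, map_smul]
      rw [h5, h6]
      simp only [add_apply, sub_apply, smul_apply, smul_eq_mul]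
      rw [hv, hE.eig, hE.eig, hq1]
      ring
    rw [h4, h2, mul_zero]
  have h4 : ‖i d‖ ^ 2 ≤ 0 := by
    rw [← b_zero hB]
    have h5 := hcmp 0 φ d
    rwa [h2, mul_zero] at h5
  have h5 := hS.nm d
  rw [h3] at h5
  have h6 : ‖d‖ ^ 2 = 0 := le_antisymm (by linarith) (sq_nonneg _)
  have h7 : d = 0 := by
    rw [← norm_eq_zero]
    exact pow_eq_zero_iff (two_ne_zero) |>.1 h6
  rw [hd] at h7
  exact sub_eq_zero.1 h7

/-- the forms at a double eigenvalue -/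
lemma dd_eq {φ : C(M, ℝ)} (hpos : 0 < Ev a (b φ) q) (heq : Ev a (b φ) q = Ev a (b φ) (q + 1))
    (k : H →L[ℝ] H →L[ℝ] ℝ) (u : ℕ → H) :
    dd k (fun j => Ev a (b φ) j) u q =
      (Ev a (b φ) q)⁻¹ * ((k (u q) (u q) - k (u (q + 1)) (u (q + 1))) / 2) ∧
    oo k (fun j => Ev a (b φ) j) u q = (Ev a (b φ) q)⁻¹ * k (u q) (u (q + 1)) := by
  have hEi : (Real.sqrt (Ev a (b φ) q))⁻¹ * (Real.sqrt (Ev a (b φ) q))⁻¹ =
      (Ev a (b φ) q)⁻¹ := by
    rw [← mul_inv, Real.mul_self_sqrt hpos.le]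
  constructor
  · unfold dd
    rw [kf_nv, kf_nv, ← heq, ← hEi]
    ring
  · unfold oo
    rw [kf_nv, ← heq, ← hEi]
    ring

/-- the determinant does not depend on the basis of the eigenspace -/
lemma dt_inv (hS : Sf μ i a) (hB : IsB μ i b) {φ : C(M, ℝ)} {e : ℕ → H}
    {E : ℕ → ℝ} (hE : Eg a (b φ) e E) (hdbl : ∀ l, E l = E q ↔ l = q ∨ l = q + 1)
    (hpos : 0 < Ev a (b φ) q) {u : ℕ → H} (hu : Tp a b q φ u) (h k : C(M, ℝ)) :
    |dt a b q h k φ u| = |dt a b q h k φ e| := by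
  obtain ⟨hF, hcmp, -⟩ := forms μ i a b hS hB
  have hmm := Pool.Agent.Y592.QE.mm H a (b φ) (hF φ) e E hE
  have hq1 : E (q + 1) = E q := (hdbl (q + 1)).2 (Or.inr rfl)
  have heq : Ev a (b φ) q = Ev a (b φ) (q + 1) := by rw [hmm, hmm, hq1]
  have h1 := dbl_span hS hB hE hdbl (v := u q) (fun w => by
    rw [hu.eig q (by omega) w, hmm])
  have h2 := dbl_span hS hB hE hdbl (v := u (q + 1)) (fun w => by
    rw [hu.eig (q + 1) (by omega) w, hmm, hq1])
  obtain ⟨α, hα⟩ : ∃ α, α = b φ (u q) (e q) := ⟨_, rfl⟩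
  obtain ⟨β, hβ⟩ : ∃ β, β = b φ (u q) (e (q + 1)) := ⟨_, rfl⟩
  obtain ⟨γ, hγ⟩ : ∃ γ, γ = b φ (u (q + 1)) (e q) := ⟨_, rfl⟩
  obtain ⟨δ, hδ⟩ : ∃ δ, δ = b φ (u (q + 1)) (e (q + 1)) := ⟨_, rfl⟩
  rw [← hα, ← hβ] at h1
  rw [← hγ, ← hδ] at h2
  have o1 := hu.orth q q (by omega) (by omega)
  have o2 := hu.orth (q + 1) (q + 1) (by omega) (by omega)
  have o3 := hu.orth q (q + 1) (by omega) (by omega)
  rw [if_pos rfl] at o1 o2
  rw [if_neg (by omega)] at o3
  have ob : ∀ x y x' y' : ℝ, b φ (x • e q + y • e (q + 1)) (x' • e q + y' • e (q + 1)) =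
      x * x' + y * y' := by
    intro x y x' y'
    simp only [map_add, map_smul, add_apply, smul_apply, smul_eq_mul]
    rw [hE.orth, hE.orth, hE.orth, hE.orth, if_pos rfl, if_pos rfl, if_neg (by omega),
      if_neg (by omega)]
    ring
  rw [h1, ob] at o1
  rw [h2, ob] at o2
  rw [h1, h2, ob] at o3
  have hγβ : γ ^ 2 = β ^ 2 := by
    linear_combination (-γ ^ 2) * o1 + (α * γ - β * δ) * o3 + β ^ 2 * o2
  have hdet : (α * δ - β * γ) ^ 2 = 1 := by
    have : (α * δ - β * γ) ^ 2 = (α * α + β * β) * (γ * γ + δ * δ) - (α * γ + β * δ) ^ 2 := by ring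
    rw [this, o1, o2, o3]
    ring
  have hK : ∀ g : C(M, ℝ), (kf b (g * ex φ) (u q) (u q) -
        kf b (g * ex φ) (u (q + 1)) (u (q + 1))) / 2 =
      (α ^ 2 - γ ^ 2) * ((kf b (g * ex φ) (e q) (e q) -
        kf b (g * ex φ) (e (q + 1)) (e (q + 1))) / 2) +
      (α * β - γ * δ) * kf b (g * ex φ) (e q) (e (q + 1)) ∧
      kf b (g * ex φ) (u q) (u (q + 1)) =
      (2 * (α * γ)) * ((kf b (g * ex φ) (e q) (e q) -
        kf b (g * ex φ) (e (q + 1)) (e (q + 1))) / 2) +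
      (α * δ + β * γ) * kf b (g * ex φ) (e q) (e (q + 1)) := by
    intro g
    rw [h1, h2]
    simp only [map_add, map_smul, add_apply, smul_apply, smul_eq_mul]
    rw [kf_symm hB _ (e (q + 1)) (e q)]
    constructor
    · linear_combination (kf b (g * ex φ) (e (q + 1)) (e (q + 1)) / 2) * o1 -
        (kf b (g * ex φ) (e (q + 1)) (e (q + 1)) / 2) * o2
    · linear_combination (kf b (g * ex φ) (e (q + 1)) (e (q + 1))) * o3
  rw [← sq_eq_sq_iff_abs_eq_abs]
  obtain ⟨d1, d2⟩ := dd_eq hpos heq (kf b (h * ex φ)) u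
  obtain ⟨d3, d4⟩ := dd_eq hpos heq (kf b (k * ex φ)) u
  obtain ⟨d5, d6⟩ := dd_eq hpos heq (kf b (h * ex φ)) e
  obtain ⟨d7, d8⟩ := dd_eq hpos heq (kf b (k * ex φ)) e
  obtain ⟨k1, k2⟩ := hK h
  obtain ⟨k3, k4⟩ := hK k
  have e1 : dt a b q h k φ u = ((α ^ 2 + γ ^ 2) * (α * δ - β * γ)) * dt a b q h k φ e := by
    unfold dt
    rw [d1, d2, d3, d4, d5, d6, d7, d8, k1, k2, k3, k4]
    ring
  have e2 : α ^ 2 + γ ^ 2 = 1 := by rw [hγβ]; linarith
  rw [e1, mul_pow, mul_pow, hdet, e2]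
  ring

/-- **the neighbourhood of a transversal double eigenvalue** -/
theorem nbhd [CompleteSpace H] (hS : Sf μ i a) (hB : IsB μ i b)
    (hmp : ∀ j, m ≤ j → ∀ φ, 0 < Ev a (b φ) j) (hmq : m ≤ q) {φ₀ : C(M, ℝ)} {e : ℕ → H}
    {E : ℕ → ℝ} (hE : Eg a (b φ₀) e E) (hdbl : ∀ l, E l = E q ↔ l = q ∨ l = q + 1)
    {h k : C(M, ℝ)} (hne : dt a b q h k φ₀ e ≠ 0) :
    ∃ c > 0, ∀ᶠ φ in 𝓝 φ₀, (∀ u, Tp a b q φ u → c ≤ |dt a b q h k φ u|) ∧
      (∀ l < q, Ev a (b φ) l < Ev a (b φ) q) ∧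
      ∀ l > q + 1, Ev a (b φ) (q + 1) < Ev a (b φ) l := by
  obtain ⟨hF, hcmp, -⟩ := forms μ i a b hS hB
  obtain ⟨hnn, hmono, -, hcont, -⟩ := tLip M μ H a b hF hcmp
  have hmm := Pool.Agent.Y592.QE.mm H a (b φ₀) (hF φ₀) e E hE
  have hc : 0 < |dt a b q h k φ₀ e| := abs_pos.2 hne
  refine ⟨|dt a b q h k φ₀ e| / 2, by positivity, ?_⟩
  have h1 : ∀ᶠ φ in 𝓝 φ₀, ∀ u, Tp a b q φ u → |dt a b q h k φ₀ e| / 2 ≤ |dt a b q h k φ u| := by
    by_contra hcon
    rw [Filter.not_eventually] at hcon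
    obtain ⟨φs, hφs, hbad⟩ := Filter.exists_seq_forall_of_frequently hcon
    push Not at hbad
    choose us hus hlt using hbad
    obtain ⟨s, u, hs, hu, hlim⟩ := cl hS hB hφs hus
    have h2 := (dt_tend hS hB hmp hmq (hφs.comp hs.tendsto_atTop) hlim h k).abs
    have h3 : |dt a b q h k φ₀ u| ≤ |dt a b q h k φ₀ e| / 2 :=
      le_of_tendsto' h2 fun n => (hlt (s n)).le
    rw [dt_inv hS hB hE hdbl (hmp q hmq φ₀) hu] at h3
    linarith
  have h2 : ∀ᶠ φ in 𝓝 φ₀, ∀ l < q, Ev a (b φ) l < Ev a (b φ) q := by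
    rcases Nat.eq_zero_or_pos q with h0 | h0
    · exact Eventually.of_forall fun φ l hl => by omega
    · have h3 : Ev a (b φ₀) (q - 1) < Ev a (b φ₀) q := by
        refine lt_of_le_of_ne (hmono φ₀ _ _ (by omega)) fun heq => ?_
        rw [hmm, hmm] at heq
        rcases (hdbl (q - 1)).1 heq with h | h <;> omega
      filter_upwards [((hcont (q - 1)).tendsto φ₀).eventually_lt ((hcont q).tendsto φ₀) h3]
        with φ hφ l hl
      exact (hmono φ l (q - 1) (by omega)).trans_lt hφ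
  have h3 : ∀ᶠ φ in 𝓝 φ₀, ∀ l > q + 1, Ev a (b φ) (q + 1) < Ev a (b φ) l := by
    have h4 : Ev a (b φ₀) (q + 1) < Ev a (b φ₀) (q + 2) := by
      refine lt_of_le_of_ne (hmono φ₀ _ _ (by omega)) fun heq => ?_
      rw [hmm, hmm, (hdbl (q + 1)).2 (Or.inr rfl)] at heq
      rcases (hdbl (q + 2)).1 heq.symm with h | h <;> omega
    filter_upwards [((hcont (q + 1)).tendsto φ₀).eventually_lt ((hcont (q + 2)).tendsto φ₀) h4]
      with φ hφ l hl
    exact hφ.trans_le (hmono φ (q + 2) l (by omega))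
  filter_upwards [h1, h2, h3] with φ g1 g2 g3
  exact ⟨g1, g2, g3⟩

end Pool.Agent.H23.LR
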