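import Pool.Agent.H23.LR.Cone
import Pool.Agent.H23.UC.Stm2

/-!
# Level repulsion: planes of conformal factors
-/

set_option autoImplicit false
set_option linter.unusedSectionVars false

open Set Filter Topology MeasureTheory
open scoped ENNReal
open Pool.Agent.Y262.QE Pool.Agent.Y264.QR Q101.QG
open Pool.Agent.Q233 Pool.Agent.Q233.GLV

noncomputable section

namespace Pool.Agent.H23.LR

variable {M : Type} [MetricSpace M] [CompactSpace M] [MeasurableSpace M] [BorelSpace M]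
  {μ : Measure M} [IsFiniteMeasure μ] {H : Type} [NormedAddCommGroup H] [InnerProductSpace ℝ H]
  {i : H →L[ℝ] Lp ℝ 2 μ} {a : H →L[ℝ] H →L[ℝ] ℝ} {b : C(M, ℝ) → H →L[ℝ] H →L[ℝ] ℝ} {m q : ℕ}

/-- the determinant of the directions `h`, `k` -/
def dt (a : H →L[ℝ] H →L[ℝ] ℝ) (b : C(M, ℝ) → H →L[ℝ] H →L[ℝ] ℝ) (q : ℕ) (h k φ : C(M, ℝ))
    (u : ℕ → H) : ℝ :=
  dd (kf b (h * ex φ)) (fun j => Ev a (b φ) j) u q *
    oo (kf b (k * ex φ)) (fun j => Ev a (b φ) j) u q -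
  dd (kf b (k * ex φ)) (fun j => Ev a (b φ) j) u q *
    oo (kf b (h * ex φ)) (fun j => Ev a (b φ) j) u q

/-- the conformal factors with a large determinant in the directions `h`, `k` -/
def Fc2 (a : H →L[ℝ] H →L[ℝ] ℝ) (b : C(M, ℝ) → H →L[ℝ] H →L[ℝ] ℝ) (q : ℕ) (h k : C(M, ℝ))
    (c : ℝ) : Set C(M, ℝ) :=
  {φ | ∃ u, Tp a b q φ u ∧ c ≤ |dt a b q h k φ u|}

/-- the plane -/
def pl (h k : C(M, ℝ)) (z : ℂ) : C(M, ℝ) := z.re • h + z.im • k

lemma pl_sub (h k : C(M, ℝ)) (z w : ℂ) : pl h k z - pl h k w = pl h k (z - w) := by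
  unfold pl
  rw [Complex.sub_re, Complex.sub_im, sub_smul, sub_smul]
  abel

lemma pl_norm (h k : C(M, ℝ)) (z : ℂ) : ‖pl h k z‖ ≤ ‖z‖ * (‖h‖ + ‖k‖) := by
  unfold pl
  refine (norm_add_le _ _).trans ?_
  rw [norm_smul, norm_smul, Real.norm_eq_abs, Real.norm_eq_abs, mul_add]
  exact add_le_add (mul_le_mul_of_nonneg_right (Complex.abs_re_le_norm z) (norm_nonneg _))
    (mul_le_mul_of_nonneg_right (Complex.abs_im_le_norm z) (norm_nonneg _))

lemma pl_cont (h k : C(M, ℝ)) : Continuous (pl h k) := by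
  unfold pl
  exact (Complex.continuous_re.smul continuous_const).add
    (Complex.continuous_im.smul continuous_const)

lemma kf_pl (hB : IsB μ i b) (h k φ : C(M, ℝ)) (z : ℂ) (X Y : H) :
    kf b (pl h k z * ex φ) X Y = z.re * kf b (h * ex φ) X Y + z.im * kf b (k * ex φ) X Y := by
  have e1 : pl h k z * ex φ = z.re • (h * ex φ) + z.im • (k * ex φ) := by
    unfold pl
    rw [add_mul, smul_mul_assoc, smul_mul_assoc]
  rw [e1, kf_lin hB]

section lin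

variable (hB : IsB μ i b) (h k φ : C(M, ℝ)) (z : ℂ) (E : ℕ → ℝ) (u : ℕ → H)
include hB

lemma dd_pl : dd (kf b (pl h k z * ex φ)) E u q =
    z.re * dd (kf b (h * ex φ)) E u q + z.im * dd (kf b (k * ex φ)) E u q := by
  unfold dd
  rw [kf_pl hB, kf_pl hB]
  ring

lemma oo_pl : oo (kf b (pl h k z * ex φ)) E u q =
    z.re * oo (kf b (h * ex φ)) E u q + z.im * oo (kf b (k * ex φ)) E u q := by
  unfold oo
  rw [kf_pl hB]

lemma l1_pl : l1 (kf b (pl h k z * ex φ)) E u m q =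
    z.re * l1 (kf b (h * ex φ)) E u m q + z.im * l1 (kf b (k * ex φ)) E u m q := by
  unfold l1
  simp only [kf_pl hB, Finset.sum_add_distrib, ← Finset.mul_sum]
  ring

lemma l0_pl : l0 (kf b (pl h k z * ex φ)) E u m q =
    z.re * l0 (kf b (h * ex φ)) E u m q + z.im * l0 (kf b (k * ex φ)) E u m q := by
  unfold l0
  simp only [kf_pl hB, Finset.sum_add_distrib, ← Finset.mul_sum]
  ring

end lin

lemma inner_w (p s : ℂ) (t : ℝ) (w : ℂ) :
    inner ℝ (p + t • s) w = (w.re * p.re + w.im * p.im) + t * inner ℝ s w := by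
  rw [inner_add_left, real_inner_smul_left, Complex.inner]
  simp only [Complex.mul_re, Complex.conj_re, Complex.conj_im]
  ring

/-- **the size of the exceptional set in a plane** -/
theorem plane [CompleteSpace H] (hpl : UC.StPlane) (hS : Sf μ i a) (hB : IsB μ i b)
    (hm0 : ∀ j, j < m → ∀ φ, Ev a (b φ) j = 0) (hmp : ∀ j, m ≤ j → ∀ φ, 0 < Ev a (b φ) j)
    (hmq : m ≤ q) (h k : C(M, ℝ)) (R : ℝ) {c : ℝ} (hc : 0 < c) :
    ∃ r > 0, ∃ X > 0, ∀ ψ : C(M, ℝ), ∀ ε > 0, volume {z : ℂ | z ∈ Metric.closedBall (0 : ℂ) r ∧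
      (‖ψ + pl h k z‖ ≤ R ∧ iv a b q (ψ + pl h k z) - iv a b (q + 1) (ψ + pl h k z) ≤ ε) ∧
        ψ + pl h k z ∈ Fc2 a b q h k c} ≤ ENNReal.ofReal (X * ε ^ 2) := by
  obtain ⟨hF, hcmp, -⟩ := forms μ i a b hS hB
  obtain ⟨C, hC0, B, hB0, hpt⟩ := pt2 hS hB hm0 hmp hmq (R + 1 / 2)
  obtain ⟨N, hN⟩ : ∃ N, N = ‖h‖ + ‖k‖ := ⟨_, rfl⟩
  have hh := norm_nonneg h
  have hk := norm_nonneg k
  have hN0 : 0 ≤ N := by rw [hN]; positivity
  obtain ⟨r, hr⟩ : ∃ r, r = 1 / (4 * (N + 1)) := ⟨_, rfl⟩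
  have hr0 : 0 < r := by rw [hr]; positivity
  have hrN : 2 * r * N ≤ 1 / 2 := by
    rw [hr]
    rw [show 2 * (1 / (4 * (N + 1))) * N = N / (2 * (N + 1)) by field_simp; ring]
    rw [div_le_div_iff₀ (by positivity) (by norm_num)]
    linarith
  have hr1 : r ≤ 1 := by
    rw [hr, div_le_one (by positivity)]
    linarith
  obtain ⟨Y, hY⟩ : ∃ Y, Y = N * B := ⟨_, rfl⟩
  have hY0 : 0 ≤ Y := by rw [hY]; positivity
  obtain ⟨c', hc'⟩ : ∃ c', c' = c / (2 * Y + 1) := ⟨_, rfl⟩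
  have hc'0 : 0 < c' := by rw [hc']; positivity
  obtain ⟨L, hL⟩ : ∃ L, L = 2 * ((q + 2 : ℝ) * Y) + 2 * (C * N ^ 2) + 1 := ⟨_, rfl⟩
  have hL0 : 0 < L := by rw [hL]; positivity
  obtain ⟨X, hX0, hX⟩ := hpl L c' hL0 hc'0
  refine ⟨r, hr0, X, hX0, fun ψ ε hε => ?_⟩
  obtain ⟨A, hA⟩ : ∃ A : Set ℂ, A = {z : ℂ | z ∈ Metric.closedBall (0 : ℂ) r ∧
      (‖ψ + pl h k z‖ ≤ R ∧ iv a b q (ψ + pl h k z) - iv a b (q + 1) (ψ + pl h k z) ≤ ε) ∧
        ψ + pl h k z ∈ Fc2 a b q h k c} := ⟨_, rfl⟩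
  rw [← hA]
  rcases A.eq_empty_or_nonempty with h0 | ⟨z₀, hz₀⟩
  · rw [h0, measure_empty]
    exact zero_le
  have hz₀' : z₀ ∈ Metric.closedBall (0 : ℂ) r ∧ ‖ψ + pl h k z₀‖ ≤ R := by
    rw [hA] at hz₀
    exact ⟨hz₀.1, hz₀.2.1.1⟩
  -- the differences of points of the disc
  have hdist : ∀ s ∈ Metric.closedBall (0 : ℂ) r, ∀ y ∈ Metric.closedBall (0 : ℂ) r,
      ‖pl h k (y - s)‖ ≤ ‖y - s‖ * N ∧ ‖pl h k (y - s)‖ ≤ 1 / 2 := by
    intro s hs y hy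
    rw [mem_closedBall_zero_iff] at hs hy
    have h1 := pl_norm h k (y - s)
    rw [← hN] at h1
    refine ⟨h1, h1.trans ?_⟩
    have h2 : ‖y - s‖ ≤ 2 * r := by
      refine (norm_sub_le _ _).trans ?_
      linarith
    exact (mul_le_mul_of_nonneg_right h2 hN0).trans hrN
  have hball : ∀ s ∈ Metric.closedBall (0 : ℂ) r, ‖ψ + pl h k s‖ ≤ R + 1 / 2 := by
    intro s hs
    have e1 : ψ + pl h k s = (ψ + pl h k z₀) + pl h k (s - z₀) := by
      rw [← pl_sub]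
      abel
    rw [e1]
    exact (norm_add_le _ _).trans (add_le_add hz₀'.2 (hdist z₀ hz₀'.1 s hs).2)
  obtain ⟨F, hFd⟩ : ∃ F : ℂ → ℝ, F = fun z => Sm a b m q (ψ + pl h k z) + C * N ^ 2 * ‖z‖ ^ 2 :=
    ⟨_, rfl⟩
  have hFc : Continuous F := by
    rw [hFd]
    exact ((sm_cont hF μ hcmp hmp q).comp (continuous_const.add (pl_cont h k))).add
      (continuous_const.mul (continuous_norm.pow 2))
  -- the algebra of the subgradients
  have hsub : ∀ s y : ℂ, ∀ p : ℂ, ∀ G : ℝ, ‖pl h k (y - s)‖ ≤ ‖y - s‖ * N →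
      Sm a b m q (ψ + pl h k s) + ((y - s).re * p.re + (y - s).im * p.im) + G -
        C * ‖pl h k (y - s)‖ ^ 2 ≤ Sm a b m q (ψ + pl h k y) →
      F s + inner ℝ (p + (2 * (C * N ^ 2)) • s) (y - s) + G ≤ F y := by
    intro s y p G h1 h2
    have h3 : C * ‖pl h k (y - s)‖ ^ 2 ≤ C * N ^ 2 * ‖y - s‖ ^ 2 := by
      have h4 : ‖pl h k (y - s)‖ ^ 2 ≤ (‖y - s‖ * N) ^ 2 := pow_le_pow_left₀ (norm_nonneg _) h1 2
      calc C * ‖pl h k (y - s)‖ ^ 2 ≤ C * (‖y - s‖ * N) ^ 2 := mul_le_mul_of_nonneg_left h4 hC0.le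
        _ = _ := by ring
    have h4 := norm_add_sq_real s (y - s)
    rw [add_sub_cancel] at h4
    have h5 : C * N ^ 2 * ‖y‖ ^ 2 =
        C * N ^ 2 * (‖s‖ ^ 2 + 2 * inner ℝ s (y - s) + ‖y - s‖ ^ 2) := by rw [← h4]
    rw [hFd, inner_w]
    simp only
    rw [h5]
    nlinarith
  have hpbd : ∀ p s : ℂ, |p.re| ≤ (q + 2 : ℝ) * Y → |p.im| ≤ (q + 2 : ℝ) * Y →
      s ∈ Metric.closedBall (0 : ℂ) r → ‖p + (2 * (C * N ^ 2)) • s‖ ≤ L := by
    intro p s h1 h2 hs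
    rw [mem_closedBall_zero_iff] at hs
    refine (norm_add_le _ _).trans ?_
    have h3 := Complex.norm_le_abs_re_add_abs_im p
    rw [norm_smul, Real.norm_eq_abs, abs_of_nonneg (by positivity)]
    have h4 : 2 * (C * N ^ 2) * ‖s‖ ≤ 2 * (C * N ^ 2) * 1 :=
      mul_le_mul_of_nonneg_left (hs.trans hr1) (by positivity)
    rw [hL]
    linarith
  have hl0 : ∀ φ : C(M, ℝ), ‖φ‖ ≤ R + 1 / 2 → ∀ u, Tp a b q φ u → ∀ g : C(M, ℝ), ‖g‖ ≤ N →
      |l0 (kf b (g * ex φ)) (fun j => Ev a (b φ) j) u m q| ≤ (q + 2 : ℝ) * Y ∧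
      |l1 (kf b (g * ex φ)) (fun j => Ev a (b φ) j) u m q| ≤ (q + 2 : ℝ) * Y ∧
      |dd (kf b (g * ex φ)) (fun j => Ev a (b φ) j) u q| ≤ Y ∧
      |oo (kf b (g * ex φ)) (fun j => Ev a (b φ) j) u q| ≤ Y := by
    intro φ hφ u hu g hg
    obtain ⟨h1, -⟩ := hpt φ hφ u hu
    have h2 : ∀ j l, m ≤ j → j < q + 2 → m ≤ l → l < q + 2 →
        |kf b (g * ex φ) (nv (fun j => Ev a (b φ) j) u j) (nv (fun j => Ev a (b φ) j) u l)| ≤ Y := by
      intro j l h3 h4 h5 h6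
      refine (h1 g j l h3 h4 h5 h6).trans ?_
      rw [hY]
      exact mul_le_mul_of_nonneg_right hg hB0.le
    have h3 : |∑ j ∈ Finset.Ico m q, kf b (g * ex φ) (nv (fun j => Ev a (b φ) j) u j)
        (nv (fun j => Ev a (b φ) j) u j)| ≤ (q : ℝ) * Y := by
      refine (Finset.abs_sum_le_sum_abs _ _).trans ?_
      refine (Finset.sum_le_sum fun j hj => h2 j j (Finset.mem_Ico.1 hj).1
        (by have := (Finset.mem_Ico.1 hj).2; omega) (Finset.mem_Ico.1 hj).1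
        (by have := (Finset.mem_Ico.1 hj).2; omega)).trans ?_
      rw [Finset.sum_const, Nat.card_Ico, nsmul_eq_mul]
      refine mul_le_mul_of_nonneg_right ?_ hY0
      exact_mod_cast Nat.sub_le q m
    have h4 := h2 q q hmq (by omega) hmq (by omega)
    have h5 := h2 (q + 1) (q + 1) (by omega) (by omega) (by omega) (by omega)
    have h6 := h2 q (q + 1) hmq (by omega) (by omega) (by omega)
    rw [abs_le] at h3 h4 h5
    refine ⟨?_, ?_, ?_, h6⟩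
    · unfold l0
      rw [abs_le]
      constructor <;> linarith [h3.1, h3.2, h4.1, h4.2]
    · unfold l1
      rw [abs_le]
      constructor <;> linarith [h3.1, h3.2, h4.1, h4.2, h5.1, h5.2]
    · unfold dd
      rw [abs_le]
      constructor <;> linarith [h4.1, h4.2, h5.1, h5.2]
  have hhN : ‖h‖ ≤ N := by rw [hN]; linarith
  have hkN : ‖k‖ ≤ N := by rw [hN]; linarith
  have hshift : ∀ s y : ℂ, ψ + pl h k s + pl h k (y - s) = ψ + pl h k y := by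
    intro s y
    rw [← pl_sub]
    abel
  refine hX r F A ε hr0 hε (fun z hz => ?_) hFc.continuousOn ?_ ?_
  · rw [hA] at hz
    exact hz.1
  · intro s hs
    obtain ⟨u, hu⟩ := tp_ex hF q (ψ + pl h k s)
    obtain ⟨-, h2⟩ := hpt _ (hball s hs) u hu
    have b1 := (hl0 _ (hball s hs) u hu h hhN).1
    have b2 := (hl0 _ (hball s hs) u hu k hkN).1
    refine ⟨(⟨l0 (kf b (h * ex (ψ + pl h k s))) (fun j => Ev a (b (ψ + pl h k s)) j) u m q,
      l0 (kf b (k * ex (ψ + pl h k s))) (fun j => Ev a (b (ψ + pl h k s)) j) u m q⟩ : ℂ) +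
      (2 * (C * N ^ 2)) • s, hpbd _ _ b1 b2 hs, fun y hy => ?_⟩
    obtain ⟨d1, d2⟩ := hdist s hs y hy
    obtain ⟨h3, -⟩ := h2 (pl h k (y - s)) d2
    rw [l0_pl hB, hshift] at h3
    have h4 := hsub s y ⟨l0 (kf b (h * ex (ψ + pl h k s))) (fun j => Ev a (b (ψ + pl h k s)) j) u m q,
      l0 (kf b (k * ex (ψ + pl h k s))) (fun j => Ev a (b (ψ + pl h k s)) j) u m q⟩ 0 d1
      (by simpa using h3)
    rwa [add_zero] at h4
  · intro s hs
    rw [hA] at hs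
    obtain ⟨hs1, ⟨-, hs2⟩, u, hu, hdet⟩ := hs
    obtain ⟨-, h2⟩ := hpt _ (hball s hs1) u hu
    obtain ⟨-, b1, b3, b4⟩ := hl0 _ (hball s hs1) u hu h hhN
    obtain ⟨-, b2, b5, b6⟩ := hl0 _ (hball s hs1) u hu k hkN
    refine ⟨(⟨l1 (kf b (h * ex (ψ + pl h k s))) (fun j => Ev a (b (ψ + pl h k s)) j) u m q,
      l1 (kf b (k * ex (ψ + pl h k s))) (fun j => Ev a (b (ψ + pl h k s)) j) u m q⟩ : ℂ) +
      (2 * (C * N ^ 2)) • s, hpbd _ _ b1 b2 hs1, fun y hy => ?_⟩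
    obtain ⟨d1, d2⟩ := hdist s hs1 y hy
    obtain ⟨-, h3⟩ := h2 (pl h k (y - s)) d2
    rw [l1_pl hB, dd_pl hB, oo_pl hB, hshift] at h3
    have h5 := cone_lin (y - s) hc hY0 b3 b5 b4 b6 hdet
    have h6 : c' * ‖y - s‖ ≤ ‖(⟨(y - s).re * dd (kf b (h * ex (ψ + pl h k s)))
        (fun j => Ev a (b (ψ + pl h k s)) j) u q + (y - s).im * dd (kf b (k * ex (ψ + pl h k s)))
        (fun j => Ev a (b (ψ + pl h k s)) j) u q, (y - s).re * oo (kf b (h * ex (ψ + pl h k s)))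
        (fun j => Ev a (b (ψ + pl h k s)) j) u q + (y - s).im * oo (kf b (k * ex (ψ + pl h k s)))
        (fun j => Ev a (b (ψ + pl h k s)) j) u q⟩ : ℂ)‖ := by
      rw [hc', div_mul_eq_mul_div, div_le_iff₀ (by positivity)]
      refine h5.trans ?_
      rw [mul_comm]
      exact mul_le_mul_of_nonneg_left (by linarith) (norm_nonneg _)
    have h4 := hsub s y ⟨l1 (kf b (h * ex (ψ + pl h k s))) (fun j => Ev a (b (ψ + pl h k s)) j) u m q,
      l1 (kf b (k * ex (ψ + pl h k s))) (fun j => Ev a (b (ψ + pl h k s)) j) u m q⟩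
      (c' * ‖y - s‖ - ε) d1 (by
        simp only
        linarith)
    linarith

end Pool.Agent.H23.LR
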