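import Pool.Agent.H23.LR.KF

/-!
# Level repulsion: the second differences
-/

set_option autoImplicit false

open Set Filter Topology MeasureTheory
open Pool.Agent.Y262.QE

noncomputable section

namespace Pool.Agent.H23.LR

section forms

variable {H : Type} [NormedAddCommGroup H] [InnerProductSpace ℝ H]

/-- the first `q + 2` vectors of an orthonormal basis of eigenvectors -/
structure Tup (a b : H →L[ℝ] H →L[ℝ] ℝ) (E : ℕ → ℝ) (q : ℕ) (u : ℕ → H) : Prop where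
  orth : ∀ i j, i < q + 2 → j < q + 2 → b (u i) (u j) = if i = j then 1 else 0
  eig : ∀ j, j < q + 2 → ∀ v, a (u j) v = E j * b (u j) v

/-- the normalised vectors -/
def nv (E : ℕ → ℝ) (u : ℕ → H) (j : ℕ) : H := (Real.sqrt (E j))⁻¹ • u j

variable {a b : H →L[ℝ] H →L[ℝ] ℝ} {E : ℕ → ℝ} {q : ℕ} {u : ℕ → H} {m : ℕ}

lemma nv_b (hu : Tup a b E q u) (hE : ∀ j, m ≤ j → j < q + 2 → 0 < E j) {i j : ℕ}
    (hi : m ≤ i) (hi' : i < q + 2) (hj' : j < q + 2) :
    b (nv E u i) (nv E u j) = if i = j then (E i)⁻¹ else 0 := by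
  unfold nv
  simp only [map_smul, smul_apply, smul_eq_mul, hu.orth i j hi' hj']
  split_ifs with h
  · subst h
    have h1 := hE i hi hi'
    rw [mul_one, ← mul_inv, Real.mul_self_sqrt h1.le]
  · ring

lemma nv_a (hu : Tup a b E q u) (hE : ∀ j, m ≤ j → j < q + 2 → 0 < E j) {i j : ℕ}
    (hi : m ≤ i) (hi' : i < q + 2) (hj' : j < q + 2) :
    a (nv E u i) (nv E u j) = if i = j then 1 else 0 := by
  unfold nv
  simp only [map_smul, smul_apply, smul_eq_mul, hu.eig i hi', hu.orth i j hi' hj']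
  split_ifs with h
  · subst h
    have h1 := hE i hi hi'
    have h2 : (Real.sqrt (E i))⁻¹ * (Real.sqrt (E i))⁻¹ = (E i)⁻¹ := by
      rw [← mul_inv, Real.mul_self_sqrt h1.le]
    calc (Real.sqrt (E i))⁻¹ * ((Real.sqrt (E i))⁻¹ * (E i * 1)) =
        ((Real.sqrt (E i))⁻¹ * (Real.sqrt (E i))⁻¹) * E i := by ring
      _ = 1 := by rw [h2, inv_mul_cancel₀ h1.ne']
  · ring

/-- the trial vectors -/
def tv (E : ℕ → ℝ) (u : ℕ → H) (q : ℕ) (x y : ℝ) (j : ℕ) : H :=
  if j = q then x • nv E u q + y • nv E u (q + 1) else nv E u j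

lemma tv_a (hu : Tup a b E q u) (hE : ∀ j, m ≤ j → j < q + 2 → 0 < E j) (hm : m ≤ q) {x y : ℝ}
    (hxy : x ^ 2 + y ^ 2 = 1) {i j : ℕ} (hi : m ≤ i) (hi' : i < q + 1) (hj : m ≤ j)
    (hj' : j < q + 1) : a (tv E u q x y i) (tv E u q x y j) = if i = j then 1 else 0 := by
  unfold tv
  by_cases h1 : i = q
  · by_cases h2 : j = q
    · subst h1
      subst h2
      simp only [if_true, map_add, map_smul, add_apply, smul_apply, smul_eq_mul]
      rw [nv_a hu hE hm (by omega) (by omega), nv_a hu hE hm (by omega) (by omega),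
        nv_a hu hE (by omega) (by omega) (by omega), nv_a hu hE (by omega) (by omega) (by omega),
        if_pos rfl, if_neg (by omega), if_neg (by omega), if_pos rfl]
      linear_combination hxy
    · subst h1
      rw [if_pos rfl, if_neg h2, if_neg (Ne.symm h2)]
      simp only [map_add, map_smul, add_apply, smul_apply, smul_eq_mul]
      rw [nv_a hu hE hm (by omega) (by omega), nv_a hu hE (by omega) (by omega) (by omega),
        if_neg (Ne.symm h2), if_neg (by omega)]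
      ring
  · by_cases h2 : j = q
    · subst h2
      rw [if_neg h1, if_pos rfl]
      simp only [map_add, map_smul, smul_eq_mul]
      rw [nv_a hu hE hi (by omega) (by omega), nv_a hu hE hi (by omega) (by omega),
        if_neg h1, if_neg (by omega)]
      ring
    · rw [if_neg h1, if_neg h2]
      exact nv_a hu hE hi (by omega) (by omega)

lemma tv_b (hu : Tup a b E q u) (hE : ∀ j, m ≤ j → j < q + 2 → 0 < E j) (hm : m ≤ q) {x y : ℝ}
    (hxy : x ^ 2 + y ^ 2 = 1) {i : ℕ} (hi : m ≤ i) (hi' : i < q + 1) :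
    b (tv E u q x y i) (tv E u q x y i) =
      if i = q then (E q)⁻¹ - y ^ 2 * ((E q)⁻¹ - (E (q + 1))⁻¹) else (E i)⁻¹ := by
  unfold tv
  by_cases h1 : i = q
  · subst h1
    simp only [if_true, map_add, map_smul, add_apply, smul_apply, smul_eq_mul]
    rw [nv_b hu hE hm (by omega) (by omega), nv_b hu hE hm (by omega) (by omega),
      nv_b hu hE (by omega) (by omega) (by omega), nv_b hu hE (by omega) (by omega) (by omega),
      if_pos rfl, if_neg (by omega), if_neg (by omega), if_pos rfl]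
    have h2 : x ^ 2 = 1 - y ^ 2 := by linarith
    linear_combination ((E i)⁻¹) * h2
  · rw [if_neg h1, if_neg h1]
    rw [nv_b hu hE hi (by omega) (by omega), if_pos rfl]

/-- the derivative of the trial sum -/
def dk (k : H →L[ℝ] H →L[ℝ] ℝ) (E : ℕ → ℝ) (u : ℕ → H) (m q : ℕ) (x y : ℝ) : ℝ :=
  ∑ j ∈ Finset.Ico m q, k (nv E u j) (nv E u j) +
    (x ^ 2 * k (nv E u q) (nv E u q) + y ^ 2 * k (nv E u (q + 1)) (nv E u (q + 1)) +
      2 * (x * y) * k (nv E u q) (nv E u (q + 1)))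

lemma sum_tv {F : H → ℝ} {x y : ℝ} (hm : m ≤ q) :
    ∑ i : Fin (q + 1 - m), F (tv E u q x y (m + i)) =
      ∑ j ∈ Finset.Ico m q, F (nv E u j) + F (x • nv E u q + y • nv E u (q + 1)) := by
  rw [Fin.sum_univ_eq_sum_range (fun i => F (tv E u q x y (m + i))) (q + 1 - m),
    ← Finset.sum_Ico_eq_sum_range (fun j => F (tv E u q x y j)) m (q + 1),
    Finset.sum_Ico_succ_top hm]
  congr 1
  · refine Finset.sum_congr rfl fun j hj => ?_
    rw [Finset.mem_Ico] at hj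
    rw [tv, if_neg (by omega)]
  · rw [tv, if_pos rfl]

/-- **the lower bound of the sum of the inverse eigenvalues of a nearby form** -/
theorem one_side (sa : ∀ u v, a u v = a v u) (na : ∀ v, 0 ≤ a v v)
    (hu : Tup a b E q u) (hE : ∀ j, m ≤ j → j < q + 2 → 0 < E j) (hm : m ≤ q)
    {b' k : H →L[ℝ] H →L[ℝ] ℝ} (sb' : ∀ u v, b' u v = b' v u) (sk : ∀ u v, k u v = k v u)
    {e' : ℕ → H} {E' : ℕ → ℝ} (hE' : Eg a b' e' E') (h0' : ∀ j, j < m → E' j = 0)
    (hp' : ∀ j, m ≤ j → 0 < E' j) {τ η B : ℝ} (hη : 0 ≤ η)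
    (hk : ∀ v, b v v + τ * k v v ≤ b' v v) (hd : ∀ x y, |b' x y - b x y| ≤ η * (b x x + b y y))
    (h2 : ∀ v, b v v ≤ 2 * b' v v) (hB : ∀ j, m ≤ j → j < q + 2 → (E j)⁻¹ ≤ B)
    {x y : ℝ} (hxy : x ^ 2 + y ^ 2 = 1) (nb : ∀ v, 0 ≤ b v v) :
    ∑ j ∈ Finset.Ico m (q + 1), (E j)⁻¹ - y ^ 2 * ((E q)⁻¹ - (E (q + 1))⁻¹) +
      τ * dk k E u m q x y - (q + 1 : ℝ) * (m * (η * (B + 2)) ^ 2) ≤
      ∑ j ∈ Finset.Ico m (q + 1), (E' j)⁻¹ := by
  obtain ⟨n, hn⟩ : ∃ n, n = q + 1 - m := ⟨_, rfl⟩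
  obtain ⟨f, hf⟩ : ∃ f : Fin (q + 1 - m) → H,
      f = fun i : Fin (q + 1 - m) => tv E u q x y (m + (i : ℕ)) := ⟨_, rfl⟩
  have hmn : m + (q + 1 - m) = q + 1 := by omega
  have h3 := kyfan sa na hE' (m := m) hp' sb' (q + 1 - m) f (fun i j => by
    rw [hf]
    simp only
    rw [tv_a hu hE hm hxy (by omega) (by omega) (by omega) (by omega)]
    refine if_congr ?_ rfl rfl
    rw [Fin.ext_iff]
    omega)
  rw [hmn] at h3
  refine le_trans ?_ h3
  -- the error term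
  have h4 : ∀ i : Fin (q + 1 - m), ∀ j ∈ Finset.range m, (b' (f i) (e' j)) ^ 2 ≤ (η * (B + 2)) ^ 2 := by
    intro i j hj
    rw [Finset.mem_range] at hj
    have h5 : b (f i) (e' j) = 0 := by
      have h6 : ∀ l, m ≤ l → l < q + 2 → b (nv E u l) (e' j) = 0 := by
        intro l hl hl'
        have h7 : a (u l) (e' j) = 0 := by rw [sa, hE'.eig, h0' j hj, zero_mul]
        rw [hu.eig l hl'] at h7
        unfold nv
        rcases mul_eq_zero.1 h7 with h8 | h8
        · exact absurd h8 (hE l hl hl').ne'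
        · simp only [map_smul, smul_apply, smul_eq_mul, h8, mul_zero]
      rw [hf]
      simp only [tv]
      split_ifs with h9
      · simp only [map_add, map_smul, add_apply, smul_apply, smul_eq_mul]
        rw [h6 q hm (by omega), h6 (q + 1) (by omega) (by omega)]
        ring
      · exact h6 _ (by omega) (by omega)
    have h6 : b (f i) (f i) ≤ B := by
      rw [hf]
      simp only
      rw [tv_b hu hE hm hxy (by omega) (by omega)]
      split_ifs with h9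
      · have h10 := hB q hm (by omega)
        have h11 := hB (q + 1) (by omega) (by omega)
        have h12 : y ^ 2 ≤ 1 := by nlinarith [sq_nonneg x]
        nlinarith [sq_nonneg y]
      · exact hB _ (by omega) (by omega)
    have h7 : b (e' j) (e' j) ≤ 2 := by
      have h8 := h2 (e' j)
      rw [hE'.orth, if_pos rfl] at h8
      linarith
    have h8 := hd (f i) (e' j)
    rw [h5, sub_zero] at h8
    have h9 : |b' (f i) (e' j)| ≤ η * (B + 2) :=
      h8.trans (mul_le_mul_of_nonneg_left (by linarith) hη)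
    rw [← sq_abs]
    exact pow_le_pow_left₀ (abs_nonneg _) h9 2
  have h5 : ∀ i : Fin (q + 1 - m), b (f i) (f i) + τ * k (f i) (f i) - m * (η * (B + 2)) ^ 2 ≤
      b' (f i) (f i) - ∑ j ∈ Finset.range m, (b' (f i) (e' j)) ^ 2 := by
    intro i
    have h6 := Finset.sum_le_sum (h4 i)
    rw [Finset.sum_const, Finset.card_range, nsmul_eq_mul] at h6
    have h7 := hk (f i)
    linarith
  refine le_trans ?_ (Finset.sum_le_sum fun i _ => h5 i)
  rw [Finset.sum_sub_distrib, Finset.sum_add_distrib, ← Finset.mul_sum, Finset.sum_const,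
    Finset.card_univ, Fintype.card_fin, nsmul_eq_mul]
  have h6 : ∑ i, b (f i) (f i) = ∑ j ∈ Finset.Ico m (q + 1), (E j)⁻¹ -
      y ^ 2 * ((E q)⁻¹ - (E (q + 1))⁻¹) := by
    rw [hf]
    simp only
    rw [sum_tv (F := fun v => b v v) hm, Finset.sum_Ico_succ_top hm]
    have h7 := tv_b hu hE hm hxy hm (Nat.lt_succ_self q)
    rw [if_pos rfl, tv, if_pos rfl] at h7
    have h8 : ∑ j ∈ Finset.Ico m q, b (nv E u j) (nv E u j) = ∑ j ∈ Finset.Ico m q, (E j)⁻¹ := by
      refine Finset.sum_congr rfl fun j hj => ?_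
      rw [Finset.mem_Ico] at hj
      rw [nv_b hu hE hj.1 (by omega) (by omega), if_pos rfl]
    rw [h7, h8]
    ring
  have h7 : ∑ i, k (f i) (f i) = dk k E u m q x y := by
    rw [hf]
    simp only
    rw [sum_tv (F := fun v => k v v) hm, dk]
    simp only [map_add, map_smul, add_apply, smul_apply, smul_eq_mul]
    rw [sk (nv E u (q + 1)) (nv E u q)]
    ring
  rw [h6, h7]
  have h8 : ((q + 1 - m : ℕ) : ℝ) ≤ (q + 1 : ℝ) := by
    have : q + 1 - m ≤ q + 1 := Nat.sub_le _ _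
    exact_mod_cast this
  have h9 : ((q + 1 - m : ℕ) : ℝ) * (m * (η * (B + 2)) ^ 2) ≤ (q + 1 : ℝ) * (m * (η * (B + 2)) ^ 2) :=
    mul_le_mul_of_nonneg_right h8 (by positivity)
  linarith

/-- **the lower bound of the second difference** -/
theorem two_side (sa : ∀ u v, a u v = a v u) (na : ∀ v, 0 ≤ a v v)
    (hu : Tup a b E q u) (hE : ∀ j, m ≤ j → j < q + 2 → 0 < E j) (hm : m ≤ q)
    {b' b'' k : H →L[ℝ] H →L[ℝ] ℝ} (sb' : ∀ u v, b' u v = b' v u)
    (sb'' : ∀ u v, b'' u v = b'' v u) (sk : ∀ u v, k u v = k v u)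
    {e' : ℕ → H} {E' : ℕ → ℝ} (hE' : Eg a b' e' E') (h0' : ∀ j, j < m → E' j = 0)
    (hp' : ∀ j, m ≤ j → 0 < E' j)
    {e'' : ℕ → H} {E'' : ℕ → ℝ} (hE'' : Eg a b'' e'' E'') (h0'' : ∀ j, j < m → E'' j = 0)
    (hp'' : ∀ j, m ≤ j → 0 < E'' j) {τ η B : ℝ} (hη : 0 ≤ η)
    (hk' : ∀ v, b v v + τ * k v v ≤ b' v v) (hd' : ∀ x y, |b' x y - b x y| ≤ η * (b x x + b y y))
    (h2' : ∀ v, b v v ≤ 2 * b' v v)
    (hk'' : ∀ v, b v v + (-τ) * k v v ≤ b'' v v)
    (hd'' : ∀ x y, |b'' x y - b x y| ≤ η * (b x x + b y y)) (h2'' : ∀ v, b v v ≤ 2 * b'' v v)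
    (hB : ∀ j, m ≤ j → j < q + 2 → (E j)⁻¹ ≤ B) (nb : ∀ v, 0 ≤ b v v)
    {x y : ℝ} (hxy : x ^ 2 + y ^ 2 = 1) :
    4 * τ * (x * y) * k (nv E u q) (nv E u (q + 1)) - 2 * y ^ 2 * ((E q)⁻¹ - (E (q + 1))⁻¹) -
      2 * ((q + 1 : ℝ) * (m * (η * (B + 2)) ^ 2)) ≤
      (∑ j ∈ Finset.Ico m (q + 1), (E' j)⁻¹) + (∑ j ∈ Finset.Ico m (q + 1), (E'' j)⁻¹) -
      2 * ∑ j ∈ Finset.Ico m (q + 1), (E j)⁻¹ := by
  have h1 := one_side sa na hu hE hm sb' sk hE' h0' hp' hη hk' hd' h2' hB hxy nb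
  have h2 := one_side sa na hu hE hm sb'' sk hE'' h0'' hp'' hη hk'' hd'' h2'' hB
    (x := x) (y := -y) (by rw [neg_sq]; exact hxy) nb
  unfold dk at h1 h2
  rw [neg_sq] at h2
  linarith

end forms

end Pool.Agent.H23.LR
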